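import Mathlib

/-!
The Laurent lemma: for a noetherian subring `B` of a field and `h ≠ 0`, the intersection
`B[h] ∩ B[1/h]` lies in a finitely generated `B`-module, and `B[h] + B[1/h] = B[h, 1/h]`.
-/

set_option autoImplicit false

namespace Pool.Agent.P.MP_f43029_ag.Mx

open Polynomial

variable {F : Type} [Field F]

theorem mem_closure_insert_iff (B : Subring F) (h y : F) :
    y ∈ Subring.closure (insert h (B : Set F)) ↔ ∃ P : B[X], aeval h P = y := by
  constructor
  · intro hy
    induction hy using Subring.closure_induction with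
    | mem x hx =>
      rcases hx with rfl | hx
      · exact ⟨X, aeval_X _⟩
      · exact ⟨C ⟨x, hx⟩, aeval_C _ _⟩
    | zero => exact ⟨0, map_zero _⟩
    | one => exact ⟨1, map_one _⟩
    | add x y _ _ hx hy =>
      obtain ⟨P, rfl⟩ := hx
      obtain ⟨Q, rfl⟩ := hy
      exact ⟨P + Q, map_add _ _ _⟩
    | neg x _ hx =>
      obtain ⟨P, rfl⟩ := hx
      exact ⟨-P, map_neg _ _⟩
    | mul x y _ _ hx hy =>
      obtain ⟨P, rfl⟩ := hx
      obtain ⟨Q, rfl⟩ := hy
      exact ⟨P * Q, map_mul _ _ _⟩
  · rintro ⟨P, rfl⟩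
    rw [aeval_eq_sum_range]
    refine Subring.sum_mem _ fun i _ => ?_
    rw [Algebra.smul_def]
    exact Subring.mul_mem _ (Subring.subset_closure (Set.mem_insert_of_mem _ (P.coeff i).2))
      (Subring.pow_mem _ (Subring.subset_closure (Set.mem_insert _ _)) _)

theorem laurent_deg (B : Subring F) [IsNoetherianRing B] {h : F} (h0 : h ≠ 0) :
    ∃ e : ℕ, ∀ P Q : B[X], aeval h P = aeval h⁻¹ Q →
      ∃ P' : B[X], P'.natDegree ≤ e ∧ aeval h P' = aeval h P := by
  let I : Ideal B[X] := RingHom.ker (aeval h : B[X] →ₐ[B] F).toRingHom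
  obtain ⟨e, he⟩ := monotone_stabilizes_iff_noetherian.mpr (inferInstance : IsNoetherian B B)
    ⟨fun n => I.leadingCoeffNth n, fun _ _ hmn => I.leadingCoeffNth_mono hmn⟩
  refine ⟨e, fun P Q => ?_⟩
  induction hP : P.natDegree using Nat.strong_induction_on generalizing P with
  | _ k ih =>
    intro hPQ
    by_cases hk : k ≤ e
    · exact ⟨P, hP ▸ hk, rfl⟩
    have hk' : e < k := not_le.mp hk
    have hP0 : P ≠ 0 := by
      rintro rfl
      simp at hP
      omega
    let : Invertible h⁻¹ := invertibleOfNonzero (inv_ne_zero h0)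
    have h1 : aeval h (reflect Q.natDegree Q) * h⁻¹ ^ Q.natDegree = aeval h⁻¹ Q := by
      have := eval₂_reflect_mul_pow (algebraMap B F) h⁻¹ Q.natDegree Q le_rfl
      rw [invOf_eq_inv, inv_inv] at this
      exact this
    have h2 : X ^ Q.natDegree * P - reflect Q.natDegree Q ∈ I := by
      change aeval h _ = 0
      rw [map_sub, map_mul, map_pow, aeval_X, hPQ, ← h1, mul_left_comm, ← mul_pow,
        mul_inv_cancel₀ h0, one_pow, mul_one, sub_self]
    have h3 : (X ^ Q.natDegree * P).natDegree = Q.natDegree + k := by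
      rw [natDegree_X_pow_mul _ hP0, hP, add_comm]
    have h4 : (reflect Q.natDegree Q).natDegree < (X ^ Q.natDegree * P).natDegree := by
      rw [h3]
      have := natDegree_reflect_le (N := Q.natDegree) (p := Q)
      omega
    have h5 : P.leadingCoeff ∈ I.leadingCoeffNth (e + (Q.natDegree + k)) := by
      rw [Ideal.mem_leadingCoeffNth]
      refine ⟨_, h2, ?_, ?_⟩
      · refine degree_le_of_natDegree_le ?_
        rw [natDegree_sub_eq_left_of_natDegree_lt h4, h3]
        omega
      · rw [leadingCoeff_sub_of_degree_lt (degree_lt_degree h4), X_pow_mul, leadingCoeff_mul_X_pow]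
    have h6 : I.leadingCoeffNth e = I.leadingCoeffNth (e + (Q.natDegree + k)) :=
      he _ (Nat.le_add_right _ _)
    rw [← h6, Ideal.mem_leadingCoeffNth] at h5
    obtain ⟨G, hG, hd, hl⟩ := h5
    have hG0 : G ≠ 0 := by
      rintro rfl
      exact hP0 (leadingCoeff_eq_zero.mp (hl.symm.trans leadingCoeff_zero))
    have hd' : G.natDegree ≤ e := natDegree_le_of_degree_le hd
    have h7 : (X ^ (k - G.natDegree) * G).natDegree = k := by
      rw [natDegree_X_pow_mul _ hG0]
      omega
    have h8 : aeval h (P - X ^ (k - G.natDegree) * G) = aeval h P := by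
      have : aeval h G = 0 := hG
      rw [map_sub, map_mul, this, mul_zero, sub_zero]
    have h9 : (P - X ^ (k - G.natDegree) * G).natDegree < k := by
      by_cases hz : P - X ^ (k - G.natDegree) * G = 0
      · rw [hz, natDegree_zero]
        omega
      refine lt_of_lt_of_eq (natDegree_lt_natDegree hz (degree_sub_lt_left ?_ hP0 ?_)) hP
      · rw [degree_eq_natDegree hP0, degree_eq_natDegree (mul_ne_zero_iff.mpr ⟨?_, hG0⟩), h7, hP]
        exact pow_ne_zero _ X_ne_zero
      · rw [X_pow_mul, leadingCoeff_mul_X_pow, hl]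
    obtain ⟨P', h10, h11⟩ := ih _ h9 _ rfl (h8.trans hPQ)
    exact ⟨P', h10, h11.trans h8⟩

/-- `B[h] ∩ B[1/h]` has bounded denominators over `B`. -/
theorem laurent_inter (B : Subring F) [IsNoetherianRing B] {h u : F} (h0 : h ≠ 0) (hu : u ∈ B)
    (huh : u * h ∈ B) : ∃ e : ℕ, ∀ y, y ∈ Subring.closure (insert h (B : Set F)) →
      y ∈ Subring.closure (insert h⁻¹ (B : Set F)) → u ^ e * y ∈ B := by
  obtain ⟨e, he⟩ := laurent_deg B h0
  refine ⟨e, fun y hy hy' => ?_⟩
  obtain ⟨P, rfl⟩ := (mem_closure_insert_iff B h y).mp hy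
  obtain ⟨Q, hQ⟩ := (mem_closure_insert_iff B h⁻¹ _).mp hy'
  obtain ⟨P', h1, h2⟩ := he P Q hQ.symm
  rw [← h2, aeval_eq_sum_range' (Nat.lt_succ_of_le h1), Finset.mul_sum]
  refine Subring.sum_mem _ fun i hi => ?_
  obtain ⟨j, rfl⟩ := Nat.exists_eq_add_of_le (Nat.lt_succ_iff.mp (Finset.mem_range.mp hi))
  have : u ^ (i + j) * P'.coeff i • h ^ i = (P'.coeff i : F) * ((u * h) ^ i * u ^ j) := by
    rw [Algebra.smul_def]
    change _ * ((P'.coeff i : F) * _) = _
    ring
  rw [this]
  exact B.mul_mem (P'.coeff i).2 (B.mul_mem (B.pow_mem huh _) (B.pow_mem hu _))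

/-- `B[h, 1/h] = B[h] + B[1/h]`. -/
theorem laurent_sum (B : Subring F) {h : F} (h0 : h ≠ 0) {y : F}
    (hy : y ∈ Subring.closure (insert h (insert h⁻¹ (B : Set F)))) :
    ∃ a ∈ Subring.closure (insert h (B : Set F)), ∃ b ∈ Subring.closure (insert h⁻¹ (B : Set F)),
      y = a + b := by
  let S : AddSubgroup F := (Subring.closure (insert h (B : Set F))).toAddSubgroup ⊔
    (Subring.closure (insert h⁻¹ (B : Set F))).toAddSubgroup
  have key : ∀ (b : F) (k : ℤ), b ∈ B → b * h ^ k ∈ S := by
    intro b k hb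
    obtain ⟨m, rfl | rfl⟩ := k.eq_nat_or_neg
    · refine AddSubgroup.mem_sup_left ?_
      rw [zpow_natCast]
      exact Subring.mul_mem _ (Subring.subset_closure (Set.mem_insert_of_mem _ hb))
        (Subring.pow_mem _ (Subring.subset_closure (Set.mem_insert _ _)) _)
    · refine AddSubgroup.mem_sup_right ?_
      rw [zpow_neg, zpow_natCast, ← inv_pow]
      exact Subring.mul_mem _ (Subring.subset_closure (Set.mem_insert_of_mem _ hb))
        (Subring.pow_mem _ (Subring.subset_closure (Set.mem_insert _ _)) _)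
  let T : AddSubgroup F := AddSubgroup.closure {z | ∃ b ∈ B, ∃ k : ℤ, z = b * h ^ k}
  have hT : T ≤ S := by
    rw [AddSubgroup.closure_le]
    rintro _ ⟨b, hb, k, rfl⟩
    exact key b k hb
  have hmul : ∀ x ∈ T, ∀ z ∈ T, x * z ∈ T := by
    intro x hx z hz
    induction hx using AddSubgroup.closure_induction with
    | mem x hx =>
      induction hz using AddSubgroup.closure_induction with
      | mem z hz =>
        obtain ⟨b, hb, k, rfl⟩ := hx
        obtain ⟨b', hb', k', rfl⟩ := hz
        refine AddSubgroup.subset_closure ⟨b * b', B.mul_mem hb hb', k + k', ?_⟩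
        rw [zpow_add₀ h0]
        ring
      | zero => rw [mul_zero]; exact T.zero_mem
      | add a b _ _ ha hb => rw [mul_add]; exact T.add_mem ha hb
      | neg a _ ha => rw [mul_neg]; exact T.neg_mem ha
    | zero => rw [zero_mul]; exact T.zero_mem
    | add a b _ _ ha hb => rw [add_mul]; exact T.add_mem ha hb
    | neg a _ ha => rw [neg_mul]; exact T.neg_mem ha
  have hy' : y ∈ T := by
    induction hy using Subring.closure_induction with
    | mem x hx =>
      rcases hx with rfl | rfl | hx
      · exact AddSubgroup.subset_closure ⟨1, B.one_mem, 1, by simp⟩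
      · exact AddSubgroup.subset_closure ⟨1, B.one_mem, -1, by simp⟩
      · exact AddSubgroup.subset_closure ⟨x, hx, 0, by simp⟩
    | zero => exact T.zero_mem
    | one => exact AddSubgroup.subset_closure ⟨1, B.one_mem, 0, by simp⟩
    | add x y _ _ hx hy => exact T.add_mem hx hy
    | neg x _ hx => exact T.neg_mem hx
    | mul x y _ _ hx hy => exact hmul _ hx _ hy
  obtain ⟨a, ha, b, hb, h1⟩ := AddSubgroup.mem_sup.mp (hT hy')
  exact ⟨a, ha, b, hb, h1.symm⟩

end Pool.Agent.P.MP_f43029_ag.Mx
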