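import Pool.Agent.P.MP_f43029_ag.CAPow

/-!
A regular local ring has a flat extension whose closed fibre is an algebraically closed field.
-/

set_option autoImplicit false

namespace Pool.Agent.P.MP_f43029_ag

open IsLocalRing Polynomial

variable (R : Type) [CommRing R] [IsRegularLocalRing R]

/-- A finite flat algebra whose closed fibre is a field. -/
def GoodAlg (C : Type) [CommRing C] [Algebra R C] : Prop :=
  Module.Finite R C ∧ Module.Flat R C ∧ ((maximalIdeal R).map (algebraMap R C)).IsMaximal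

variable {R}

theorem GoodAlg.congr {C C' : Type} [CommRing C] [Algebra R C] [CommRing C'] [Algebra R C']
    (h : GoodAlg R C) (e : C ≃ₐ[R] C') : GoodAlg R C' := by
  obtain ⟨h₁, h₂, h₃⟩ := h
  refine ⟨Module.Finite.equiv e.toLinearEquiv, Module.Flat.of_linearEquiv e.symm.toLinearEquiv, ?_⟩
  have : (maximalIdeal R).map (algebraMap R C') =
      ((maximalIdeal R).map (algebraMap R C)).map (e.toRingEquiv : C →+* C') := by
    rw [Ideal.map_map]
    congr 1
    ext r
    simp
  rw [this]
  exact Ideal.IsMaximal.map_bijective _ e.bijective h₃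

theorem GoodAlg.isDomain {C : Type} [CommRing C] [Algebra R C] (h : GoodAlg R C) : IsDomain C := by
  classical
  obtain ⟨h₁, h₂, h₃⟩ := h
  have : IsNoetherianRing C := Algebra.FiniteType.isNoetherianRing R C
  have key : ∀ M : Ideal C, M.IsMaximal → M = (maximalIdeal R).map (algebraMap R C) := by
    intro M hM
    have h4 := Ideal.isMaximal_comap_of_isIntegral_of_isMaximal (R := R) M
    refine (h₃.eq_of_le hM.ne_top ?_).symm
    rw [Ideal.map_le_iff_le_comap, ← eq_maximalIdeal h4]
  have : IsLocalRing C := IsLocalRing.of_unique_max_ideal ⟨_, h₃, key⟩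
  have hm : (maximalIdeal R).map (algebraMap R C) = maximalIdeal C :=
    (key _ inferInstance).symm
  obtain ⟨s, hs, hs'⟩ := Submodule.FG.exists_span_finset_card_eq_spanFinrank
    (IsNoetherian.noetherian (maximalIdeal R))
  have hd := IsRegularLocalRing.spanFinrank_maximalIdeal (R := R)
  refine (regseq_of_gens s.card C (s.image (algebraMap R C)) Finset.card_image_le ?_ ?_).1
  · rw [← hm, ← hs', Finset.coe_image]
    exact (Ideal.map_span _ _).symm
  · rw [← dim_eq_of_flat hm, hs, hd]

theorem GoodAlg.adjoinRoot {C : Type} [CommRing C] [Algebra R C] (h : GoodAlg R C) (F : C[X])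
    (hF : F.Monic)
    (hirr : Irreducible (F.map (Ideal.Quotient.mk ((maximalIdeal R).map (algebraMap R C))))) :
    GoodAlg R (AdjoinRoot F) := by
  obtain ⟨h₁, h₂, h₃⟩ := h
  have := hF.free_adjoinRoot
  have := hF.finite_adjoinRoot
  refine ⟨Module.Finite.trans C _, Module.Flat.trans R C _, ?_⟩
  have h4 : (maximalIdeal R).map (algebraMap R (AdjoinRoot F)) =
      ((maximalIdeal R).map (algebraMap R C)).map (AdjoinRoot.of F) := by
    rw [Ideal.map_map]
    rfl
  rw [h4]
  let := Ideal.Quotient.field ((maximalIdeal R).map (algebraMap R C))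
  have h5 : (Ideal.span {F.map (Ideal.Quotient.mk
      ((maximalIdeal R).map (algebraMap R C)))}).IsMaximal :=
    PrincipalIdealRing.isMaximal_of_irreducible hirr
  exact Ideal.Quotient.maximal_of_isField _
    ((AdjoinRoot.quotEquivQuotMap F _).toMulEquiv.isField
      ((Ideal.Quotient.maximal_ideal_iff_isField_quotient _).mp h5))

section

variable {Ω : Type} [Field Ω] [Algebra R Ω]

/-- A subalgebra which is a directed union of good subalgebras. -/
def IndGood (B : Subalgebra R Ω) : Prop :=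
  ∀ t : Finset Ω, (t : Set Ω) ⊆ B → ∃ C : Subalgebra R Ω, C ≤ B ∧ (t : Set Ω) ⊆ C ∧ GoodAlg R C

theorem IndGood.exists_fun {B : Subalgebra R Ω} (h : IndGood B) {ι : Type} [Fintype ι]
    (y : ι → B) : ∃ (C : Subalgebra R Ω) (hC : C ≤ B) (z : ι → C), GoodAlg R C ∧
      ∀ i, Subalgebra.inclusion hC (z i) = y i := by
  classical
  obtain ⟨C, hC, ht, hg⟩ := h (Finset.univ.image fun i => (y i : Ω)) (by
    intro w hw
    obtain ⟨i, -, rfl⟩ := Finset.mem_image.mp hw
    exact (y i).2)
  exact ⟨C, hC, fun i => ⟨y i, ht (Finset.mem_image_of_mem _ (Finset.mem_univ i))⟩, hg,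
    fun i => rfl⟩

theorem IndGood.flat {B : Subalgebra R Ω} (h : IndGood B) : Module.Flat R B := by
  refine Module.Flat.of_forall_isTrivialRelation fun {l a y} hy => ?_
  obtain ⟨C, hC, z, hg, hz⟩ := h.exists_fun y
  have := hg.2.1
  obtain ⟨k, c, w, h₁, h₂⟩ := Module.Flat.isTrivialRelation_of_sum_smul_eq_zero (R := R) (f := a)
    (x := z) (Subalgebra.inclusion_injective hC (by simp [map_sum, hz, hy]))
  exact ⟨k, c, fun j => Subalgebra.inclusion hC (w j), fun i => by
    rw [← hz, h₁]; simp [map_sum], h₂⟩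

theorem map_inclusion_le {B C : Subalgebra R Ω} (hC : C ≤ B) :
    (maximalIdeal R).map (algebraMap R C) ≤
      ((maximalIdeal R).map (algebraMap R B)).comap (Subalgebra.inclusion hC).toRingHom := by
  rw [Ideal.map_le_iff_le_comap]
  intro r hr
  exact Ideal.mem_map_of_mem (algebraMap R B) hr

theorem IndGood.isMaximal {B : Subalgebra R Ω} (h : IndGood B) :
    ((maximalIdeal R).map (algebraMap R B)).IsMaximal := by
  rw [Ideal.isMaximal_iff]
  constructor
  · intro h1
    obtain ⟨n, c, g, hg⟩ := Submodule.mem_span_set'.mp h1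
    choose r hr hr' using fun i => (g i).2
    obtain ⟨C, hC, z, hC', hz⟩ := h.exists_fun c
    refine hC'.2.2.ne_top ((Ideal.eq_top_iff_one _).mpr ?_)
    have : (1 : C) = ∑ i, z i * algebraMap R C (r i) := Subalgebra.inclusion_injective hC (by
      rw [map_one, ← hg, map_sum]
      refine Finset.sum_congr rfl fun i _ => ?_
      rw [map_mul, hz, AlgHom.commutes, hr', smul_eq_mul])
    rw [this]
    exact Ideal.sum_mem _ fun i _ => Ideal.mul_mem_left _ _ (Ideal.mem_map_of_mem _ (hr i))
  · intro J y hJ hy hyJ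
    obtain ⟨C, hC, z, hC', hz⟩ := h.exists_fun (fun _ : Unit => y)
    have h1 : z () ∉ (maximalIdeal R).map (algebraMap R C) := fun h2 =>
      hy (hz () ▸ map_inclusion_le hC h2)
    obtain ⟨u, v, hv, huv⟩ := hC'.2.2.exists_inv h1
    have h3 := congrArg (Subalgebra.inclusion hC) huv
    rw [map_add, map_mul, hz, map_one] at h3
    rw [← h3]
    exact J.add_mem (J.mul_mem_left _ hyJ) (hJ (map_inclusion_le hC hv))

omit [IsRegularLocalRing R] in
theorem exists_finset_adjoin {B : Set Ω} {α z : Ω} (hz : z ∈ Algebra.adjoin R (insert α B)) :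
    ∃ s : Finset Ω, (s : Set Ω) ⊆ B ∧ z ∈ Algebra.adjoin R (insert α (s : Set Ω)) := by
  classical
  have hmono : ∀ s t : Finset Ω, ∀ w ∈ Algebra.adjoin R (insert α (s : Set Ω)), s ⊆ t →
      w ∈ Algebra.adjoin R (insert α (t : Set Ω)) := fun s t w hw h =>
    Algebra.adjoin_mono (Set.insert_subset_insert (Finset.coe_subset.mpr h)) hw
  induction hz using Algebra.adjoin_induction with
  | mem w hw =>
    rcases hw with rfl | hw
    · exact ⟨∅, by simp, Algebra.subset_adjoin (Set.mem_insert _ _)⟩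
    · exact ⟨{w}, by simpa using hw, Algebra.subset_adjoin (by simp)⟩
  | algebraMap r => exact ⟨∅, by simp, Subalgebra.algebraMap_mem _ _⟩
  | add u v _ _ hu hv =>
    obtain ⟨s, hs, hu⟩ := hu
    obtain ⟨t, ht, hv⟩ := hv
    exact ⟨s ∪ t, by simp [hs, ht], Subalgebra.add_mem _ (hmono _ _ _ hu Finset.subset_union_left)
      (hmono _ _ _ hv Finset.subset_union_right)⟩
  | mul u v _ _ hu hv =>
    obtain ⟨s, hs, hu⟩ := hu
    obtain ⟨t, ht, hv⟩ := hv
    exact ⟨s ∪ t, by simp [hs, ht], Subalgebra.mul_mem _ (hmono _ _ _ hu Finset.subset_union_left)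
      (hmono _ _ _ hv Finset.subset_union_right)⟩

theorem IndGood.adjoin {B : Subalgebra R Ω} (h : IndGood B) (F : B[X]) (hF : F.Monic)
    (hirr : Irreducible (F.map (Ideal.Quotient.mk ((maximalIdeal R).map (algebraMap R B)))))
    (α : Ω) (hα : aeval α F = 0) : IndGood (Algebra.adjoin R (insert α (B : Set Ω))) := by
  classical
  intro t ht
  choose s hs hs' using fun z : t => exists_finset_adjoin (R := R) (ht z.2)
  obtain ⟨C, hC, hsC, hg⟩ := h (Finset.univ.biUnion s ∪ F.support.image fun i => (F.coeff i : Ω))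
    (by
      intro w hw
      rcases Finset.mem_union.mp hw with hw | hw
      · obtain ⟨z, -, hz⟩ := Finset.mem_biUnion.mp hw
        exact hs z hz
      · obtain ⟨i, -, rfl⟩ := Finset.mem_image.mp hw
        exact (F.coeff i).2)
  obtain ⟨G, hGF, -, hG⟩ := lifts_and_natDegree_eq_and_monic
    (f := (Subalgebra.inclusion hC).toRingHom) ((lifts_iff_coeff_lifts F).mpr fun i => by
      by_cases hi : i ∈ F.support
      · exact ⟨⟨F.coeff i, hsC (Finset.mem_union_right _ (Finset.mem_image_of_mem _ hi))⟩, rfl⟩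
      · rw [notMem_support_iff.mp hi]
        exact ⟨0, map_zero _⟩) hF
  have := hg.2.2
  have := h.isMaximal
  have hirr' : Irreducible (G.map (Ideal.Quotient.mk ((maximalIdeal R).map (algebraMap R C)))) := by
    refine Monic.irreducible_of_irreducible_map
      (φ := Ideal.quotientMap _ _ (map_inclusion_le hC)) _ (hG.map _) ?_
    rw [Polynomial.map_map, Ideal.quotientMap_comp_mk, ← Polynomial.map_map, hGF]
    exact hirr
  have hg' := hg.adjoinRoot G hG hirr'
  have hev : G.eval₂ C.val α = 0 := by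
    rw [← hα, ← hGF, aeval_def, eval₂_map]
    rfl
  let φ := AdjoinRoot.liftAlgHom G C.val α hev
  have hφ : Function.Injective φ := by
    have := hg'.isDomain
    have := hG.finite_adjoinRoot
    rw [RingHom.injective_iff_ker_eq_bot]
    refine Ideal.eq_bot_of_comap_eq_bot (R := C) (eq_bot_iff.mpr fun c hc => ?_)
    have h1 : φ (AdjoinRoot.of G c) = 0 := hc
    rw [AdjoinRoot.liftAlgHom_of] at h1
    exact Subtype.ext h1
  refine ⟨φ.range, ?_, fun z hz => ?_, hg'.congr (AlgEquiv.ofInjective φ hφ)⟩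
  · rintro _ ⟨y, rfl⟩
    induction y using AdjoinRoot.induction_on with
    | ih q =>
      change φ _ ∈ _
      rw [AdjoinRoot.liftAlgHom_mk, eval₂_eq_sum_range]
      exact Subalgebra.sum_mem _ fun i _ => Subalgebra.mul_mem _
        (Algebra.subset_adjoin (Set.mem_insert_of_mem _ (hC (q.coeff i).2)))
        (Subalgebra.pow_mem _ (Algebra.subset_adjoin (Set.mem_insert _ _)) _)
  · refine (Algebra.adjoin_le ?_ : _ ≤ φ.range) (hs' ⟨z, hz⟩)
    rintro w (rfl | hw)
    · exact ⟨AdjoinRoot.root G, AdjoinRoot.liftAlgHom_root _ _ _ _⟩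
    · exact ⟨AdjoinRoot.of G ⟨w, hsC (Finset.mem_union_left _
        (Finset.mem_biUnion.mpr ⟨_, Finset.mem_univ _, hw⟩))⟩, AdjoinRoot.liftAlgHom_of _ _ _ _ _⟩

end

variable (R) in
theorem exists_gonflement [IsDomain R] : ∃ (B : Type) (_ : CommRing B) (_ : Algebra R B)
    (K : Type) (_ : Field K) (π : B →+* K), Module.Flat R B ∧ IsAlgClosed K ∧
      Function.Surjective π ∧ RingHom.ker π = (maximalIdeal R).map (algebraMap R B) := by
  classical
  let Ω := AlgebraicClosure (FractionRing R)
  have hinj : Function.Injective (algebraMap R Ω) := by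
    rw [IsScalarTower.algebraMap_eq R (FractionRing R) Ω]
    exact (algebraMap (FractionRing R) Ω).injective.comp (IsFractionRing.injective R _)
  have h0 : IndGood (⊥ : Subalgebra R Ω) := fun t ht =>
    ⟨⊥, le_rfl, ht, GoodAlg.congr (C := R) ⟨inferInstance, inferInstance, by
      rw [Algebra.algebraMap_self, Ideal.map_id]; infer_instance⟩
      (Algebra.botEquivOfInjective hinj).symm⟩
  obtain ⟨B, -, hB⟩ := zorn_le_nonempty₀ {B : Subalgebra R Ω | IndGood B} (fun c hc hch y hy => by
    have : Nonempty c := ⟨⟨y, hy⟩⟩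
    refine ⟨⨆ i : c, i.1, fun t ht => ?_, fun z hz => le_iSup (fun i : c => i.1) ⟨z, hz⟩⟩
    rw [Subalgebra.coe_iSup_of_directed hch.directed] at ht
    have hdir : Directed (· ⊆ ·) fun i : c => (i.1 : Set Ω) := hch.directed
    obtain ⟨i, hi⟩ := hdir.exists_mem_subset_of_finset_subset_biUnion ht
    obtain ⟨C, hC, h₁, h₂⟩ := hc i.2 t hi
    exact ⟨C, hC.trans (le_iSup (fun i : c => i.1) i), h₁, h₂⟩) _ h0
  have hB' : IndGood B := hB.prop
  have := hB'.isMaximal
  let := Ideal.Quotient.field ((maximalIdeal R).map (algebraMap R B))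
  refine ⟨B, inferInstance, inferInstance, B ⧸ (maximalIdeal R).map (algebraMap R B),
    inferInstance, Ideal.Quotient.mk _, hB'.flat, ?_, Ideal.Quotient.mk_surjective, Ideal.mk_ker⟩
  refine IsAlgClosed.of_exists_root _ fun G hG hirr => ?_
  obtain ⟨F, hFG, hdeg, hF⟩ := lifts_and_degree_eq_and_monic
    (f := Ideal.Quotient.mk ((maximalIdeal R).map (algebraMap R B)))
    ((lifts_iff_coeff_lifts G).mpr fun i => Ideal.Quotient.mk_surjective _) hG
  obtain ⟨α, hα⟩ := IsAlgClosed.exists_aeval_eq_zero Ω F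
    (by rw [hdeg]; exact (degree_pos_of_irreducible hirr).ne')
  have h1 := hB.le_of_ge (hB'.adjoin F hF (hFG ▸ hirr) α hα)
    (fun z hz => Algebra.subset_adjoin (Set.mem_insert_of_mem _ hz))
  have h2 : α ∈ B := h1 (Algebra.subset_adjoin (Set.mem_insert _ _))
  refine ⟨Ideal.Quotient.mk _ ⟨α, h2⟩, ?_⟩
  have h3 : F.eval ⟨α, h2⟩ = 0 := Subtype.ext (by
    rw [← coe_aeval_eq_eval]
    exact (aeval_algebraMap_apply Ω (⟨α, h2⟩ : B) F).symm.trans hα)
  rw [← hFG, eval_map, eval₂_at_apply, h3, map_zero]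

end Pool.Agent.P.MP_f43029_ag
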