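import Pool.Agent.P.MP_f43029_ag.Mx.Struct

/-!
Index functions on two-periodic complexes supported at the closed point: the axioms, their formal
consequences, graded homotopies and finite free resolutions in matrix form.
-/

set_option autoImplicit false

namespace Pool.Agent.P.MP_f43029_ag

open IsLocalRing Matrix CategoryTheory

/-- A two-periodic complex of finite free modules on which powers of the `x j` are
null-homotopic. -/
def Cx {R ι : Type} [CommRing R] [Fintype ι] [DecidableEq ι] {D : ℕ} (x : Fin D → R)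
    (p : ι → Bool) (X : Matrix ι ι R) : Prop :=
  ∃ N, IsObj x N 0 p X

/-- The formal properties of an index function. -/
structure IsIdx {R : Type} [CommRing R] {D : ℕ} (x : Fin D → R) {Q : Type} [AddCommGroup Q]
    (ρ : ∀ (ι : Type) [Fintype ι] [DecidableEq ι], (ι → Bool) → Matrix ι ι R → Q) : Prop where
  sum : ∀ (ι κ : Type) [Fintype ι] [DecidableEq ι] [Fintype κ] [DecidableEq κ] (p : ι → Bool)
    (X : Matrix ι ι R) (p' : κ → Bool) (X' : Matrix κ κ R), Cx x p X → Cx x p' X' →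
    ρ (ι ⊕ κ) (Sum.elim p p') (fromBlocks X 0 0 X') = ρ ι p X + ρ κ p' X'
  contr : ∀ (ι : Type) [Fintype ι] [DecidableEq ι] (p : ι → Bool) (X h : Matrix ι ι R),
    OddM p p X → X * X = 0 → OddM p p h → X * h + h * X = 1 → ρ ι p X = 0
  pert : ∀ (ι : Type) [Fintype ι] [DecidableEq ι] (p : ι → Bool) (X X₀ : Matrix ι ι R) (s : ℕ)
    (wt : ι → ℕ), s ≤ 1 → Cx x p X → Cx x p X₀ → (∀ i j, X₀ i j ≠ 0 → wt j = wt i + s) →
    (∀ i j, X i j ≠ X₀ i j → wt i + s < wt j) → ρ ι p X = ρ ι p X₀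

section Lev

variable {R ι κ α β : Type} [CommRing R]

/-- Vectors supported on the indices of level `m`. -/
def lev (R : Type) [CommRing R] {ι α : Type} (wt : ι → α) (m : α) : Submodule R (ι → R) where
  carrier := {v | ∀ i, wt i ≠ m → v i = 0}
  add_mem' := fun hu hv i hi => by simp [hu i hi, hv i hi]
  zero_mem' := fun _ _ => rfl
  smul_mem' := fun c v hv i hi => by simp [hv i hi]

theorem parSub_eq_lev (p : ι → Bool) (b : Bool) : parSub R R p b = lev R p b := rfl

/-- The component of level `m` of a vector. -/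
def cut [DecidableEq α] (wt : ι → α) (m : α) (v : ι → R) : ι → R :=
  fun i => if wt i = m then v i else 0

variable [DecidableEq α] [DecidableEq β]

theorem cut_mem (wt : ι → α) (m : α) (v : ι → R) : cut wt m v ∈ lev R wt m :=
  fun _ hi => if_neg hi

theorem cut_of_mem {wt : ι → α} {m : α} {v : ι → R} (h : v ∈ lev R wt m) : cut wt m v = v := by
  ext i
  by_cases hi : wt i = m
  · exact if_pos hi
  · exact (if_neg hi).trans (h i hi).symm

theorem cut_of_ne {wt : ι → α} {m m' : α} {v : ι → R} (h : v ∈ lev R wt m) (hm : m' ≠ m) :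
    cut wt m' v = 0 := by
  ext i
  by_cases hi : wt i = m'
  · exact (if_pos hi).trans (h i (hi ▸ hm))
  · exact if_neg hi

theorem cut_sub (wt : ι → α) (m : α) (u v : ι → R) : cut wt m (u - v) = cut wt m u - cut wt m v := by
  ext i
  by_cases hi : wt i = m <;> simp [cut, hi]

theorem cut_add (wt : ι → α) (m : α) (u v : ι → R) : cut wt m (u + v) = cut wt m u + cut wt m v := by
  ext i
  by_cases hi : wt i = m <;> simp [cut, hi]

theorem cut_smul (wt : ι → α) (m : α) (c : R) (v : ι → R) : cut wt m (c • v) = c • cut wt m v := by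
  ext i
  by_cases hi : wt i = m <;> simp [cut, hi]

theorem cut_zero (wt : ι → α) (m : α) : cut wt m (0 : ι → R) = 0 := by
  ext i
  simp [cut]

theorem cut_mulVec [Fintype κ] {wt : ι → α} {wt' : κ → β} {m : α} {m' : β} {X : Matrix ι κ R}
    (h : ∀ i j, X i j ≠ 0 → (wt i = m ↔ wt' j = m')) (u : κ → R) :
    cut wt m (X *ᵥ u) = X *ᵥ cut wt' m' u := by
  ext i
  simp only [cut, mulVec, dotProduct]
  split_ifs with hi
  · refine Finset.sum_congr rfl fun j _ => ?_
    by_cases hX : X i j = 0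
    · simp [hX]
    · rw [if_pos ((h i j hX).mp hi)]
  · refine (Finset.sum_eq_zero fun j _ => ?_).symm
    by_cases hX : X i j = 0
    · simp [hX]
    · rw [if_neg (fun h' => hi ((h i j hX).mpr h')), mul_zero]

theorem mulVec_mem_lev [Fintype κ] {wt : ι → α} {wt' : κ → β} {m : α} {m' : β} {X : Matrix ι κ R}
    (h : ∀ i j, X i j ≠ 0 → (wt i = m ↔ wt' j = m')) {u : κ → R} (hu : u ∈ lev R wt' m') :
    X *ᵥ u ∈ lev R wt m := by
  rw [← cut_of_mem hu, ← cut_mulVec h]
  exact cut_mem _ _ _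

theorem OddM.iff {p : ι → Bool} {p' : κ → Bool} {X : Matrix ι κ R} (h : OddM p p' X) (b : Bool)
    (i : ι) (j : κ) (hX : X i j ≠ 0) : p i = b ↔ p' j = !b := by
  have : p i ≠ p' j := fun e => hX (h i j e)
  revert this
  cases p i <;> cases p' j <;> cases b <;> simp

theorem cut_add_cut_not (p : ι → Bool) (b : Bool) (v : ι → R) : cut p b v + cut p (!b) v = v := by
  ext i
  simp only [cut, Pi.add_apply]
  cases p i <;> cases b <;> simp

theorem mem_Bb [Fintype ι] {p : ι → Bool} {X : Matrix ι ι R} (h : OddM p p X) {b : Bool}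
    {v : ι → R} (hv : v ∈ lev R p b) : v ∈ Bb p X b ↔ ∃ u, X *ᵥ u = v :=
  ⟨fun ⟨u, _, hu⟩ => ⟨u, hu⟩, fun ⟨u, hu⟩ => ⟨cut p (!b) u, cut_mem _ _ _, by
    rw [mulVecLin_apply, ← cut_mulVec (h.iff b), hu, cut_of_mem hv]⟩⟩

/-- An even map which is bijective on ungraded homology is bijective in each parity. -/
theorem hb_equiv [Fintype ι] [Fintype κ] {p : ι → Bool} {p' : κ → Bool} {X : Matrix ι ι R}
    {X' : Matrix κ κ R} (h : OddM p p X) (h' : OddM p' p' X') (β : Matrix κ ι R)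
    (hβ : OddM (fun i => !p' i) p β) (hZ : ∀ v, X *ᵥ v = 0 → X' *ᵥ β *ᵥ v = 0)
    (hB : ∀ u, ∃ u', X' *ᵥ u' = β *ᵥ X *ᵥ u)
    (hi : ∀ v, X *ᵥ v = 0 → (∃ u', X' *ᵥ u' = β *ᵥ v) → ∃ u, X *ᵥ u = v)
    (hs : ∀ v', X' *ᵥ v' = 0 → ∃ v u', X *ᵥ v = 0 ∧ X' *ᵥ u' = β *ᵥ v - v') (b : Bool) :
    Nonempty (Hb p X b ≃ₗ[R] Hb p' X' b) := by
  have hβ' : ∀ c i j, β i j ≠ 0 → (p' i = c ↔ p j = c) := fun c i j hij => by
    have := hβ.iff (!c) i j hij
    simpa using this
  refine sq_equiv β.mulVecLin (fun v hv => ⟨hZ v hv.1, mulVec_mem_lev (hβ' b) hv.2⟩) ?_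
    (fun v hv hb => ?_) fun v' hv' => ?_
  · rintro _ ⟨u, hu, rfl⟩
    exact (mem_Bb h' (mulVec_mem_lev (hβ' b) (mulVec_mem_lev (h.iff b) hu))).mpr (hB u)
  · exact (mem_Bb h hv.2).mpr (hi v hv.1 ((mem_Bb h' (mulVec_mem_lev (hβ' b) hv.2)).mp hb))
  · obtain ⟨v, u', h₁, h₂⟩ := hs v' hv'.1
    refine ⟨cut p b v, ⟨?_, cut_mem _ _ _⟩, cut p' (!b) u', cut_mem _ _ _, ?_⟩
    · have := cut_mulVec (h.iff (!b)) v
      rw [h₁, cut_zero, Bool.not_not] at this
      exact this.symm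
    · rw [mulVecLin_apply, mulVecLin_apply, ← cut_mulVec (h'.iff b), h₂, cut_sub,
        cut_mulVec (hβ' b), cut_of_mem hv'.2]

end Lev

section Cx

variable {R ι κ : Type} [CommRing R] [Fintype ι] [DecidableEq ι] [Fintype κ] [DecidableEq κ]
  {D : ℕ} {x : Fin D → R}

theorem exists_odd_homotopy {p : ι → Bool} {X : Matrix ι ι R} (ho : OddM p p X) {y : R}
    (h : Theta.Nh X y) : ∃ g, OddM p p g ∧ X * g + g * X = y • (1 : Matrix ι ι R) := by
  obtain ⟨g, hg⟩ := h
  refine ⟨Matrix.of fun i j => if p i = p j then 0 else g i j, fun i j hij => if_pos hij, ?_⟩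
  ext i j
  have h1 := congrFun (congrFun hg i) j
  simp only [Matrix.add_apply, Matrix.mul_apply, of_apply] at h1 ⊢
  by_cases hij : p i = p j
  · rw [← h1]
    congr 1 <;> refine Finset.sum_congr rfl fun l _ => ?_
    · split_ifs with hl
      · rw [ho i l (hij.trans hl.symm), zero_mul, zero_mul]
      · rfl
    · split_ifs with hl
      · rw [ho l j (hl.symm.trans hij), mul_zero, mul_zero]
      · rfl
  · have hne : i ≠ j := fun e => hij (e ▸ rfl)
    rw [Matrix.smul_apply, one_apply_ne hne, smul_zero, Finset.sum_eq_zero, Finset.sum_eq_zero,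
      add_zero]
    · intro l _
      split_ifs with hl
      · exact zero_mul _
      · rw [ho l j (by revert hij hl; cases p i <;> cases p j <;> cases p l <;> simp), mul_zero]
    · intro l _
      split_ifs with hl
      · exact mul_zero _
      · rw [ho i l (by revert hij hl; cases p i <;> cases p j <;> cases p l <;> simp), zero_mul]

theorem nh_mul {X : Matrix ι ι R} {y : R} (h : Theta.Nh X y) (c : R) : Theta.Nh X (c * y) := by
  obtain ⟨g, hg⟩ := h
  exact ⟨c • g, by rw [Matrix.mul_smul, Matrix.smul_mul, ← smul_add, hg, smul_smul]⟩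

theorem Cx.mk' {p : ι → Bool} {X : Matrix ι ι R} (ho : OddM p p X) (hX : X * X = 0)
    (h : ∀ j, ∃ N, Theta.Nh X (x j ^ N)) : Cx x p X := by
  choose N hN using h
  have : ∀ j, Theta.Nh X (x j ^ Finset.univ.sup N) := fun j => by
    rw [← Nat.sub_add_cancel (Finset.le_sup (f := N) (Finset.mem_univ j)), pow_add]
    exact nh_mul (hN j) _
  choose g hg hg' using fun j => exists_odd_homotopy ho (this j)
  exact ⟨_, ho, by rw [hX, zero_smul], g, hg, hg'⟩

theorem Cx.odd {p : ι → Bool} {X : Matrix ι ι R} (h : Cx x p X) : OddM p p X :=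
  h.choose_spec.odd

theorem Cx.sq {p : ι → Bool} {X : Matrix ι ι R} (h : Cx x p X) : X * X = 0 := by
  rw [h.choose_spec.sq, zero_smul]

theorem Cx.nh {p : ι → Bool} {X : Matrix ι ι R} (h : Cx x p X) (j : Fin D) :
    ∃ N, Theta.Nh X (x j ^ N) := by
  obtain ⟨N, -, -, g, -, hg⟩ := h
  exact ⟨N, g j, hg j⟩

theorem Cx.killed {p : ι → Bool} {X : Matrix ι ι R} (h : Cx x p X) (j : Fin D) :
    ∃ N, ∀ v, X *ᵥ v = 0 → ∃ u, X *ᵥ u = x j ^ N • v := by
  obtain ⟨N, g, hg⟩ := h.nh j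
  refine ⟨N, fun v hv => ⟨g *ᵥ v, ?_⟩⟩
  have := congrArg (· *ᵥ v) hg
  simpa [add_mulVec, ← mulVec_mulVec, hv, smul_mulVec] using this

theorem Cx.flip {p : ι → Bool} {X : Matrix ι ι R} (h : Cx x p X) : Cx x (fun i => !p i) X :=
  Cx.mk' (fun i j hij => h.odd i j (by simpa using hij)) h.sq h.nh

theorem Cx.neg {p : ι → Bool} {X : Matrix ι ι R} (h : Cx x p X) : Cx x p (-X) :=
  Cx.mk' (fun i j hij => by simp [h.odd i j hij]) (by simp [h.sq]) fun j => by
    obtain ⟨N, g, hg⟩ := h.nh j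
    exact ⟨N, -g, by simpa using hg⟩

theorem Cx.of_contr {p : ι → Bool} {X h : Matrix ι ι R} (ho : OddM p p X) (hX : X * X = 0)
    (hh : X * h + h * X = 1) : Cx x p X :=
  Cx.mk' ho hX fun _ => ⟨0, h, by simpa using hh⟩

omit [Fintype ι] [DecidableEq ι] [Fintype κ] [DecidableEq κ] in
theorem oddM_blocks {p : ι → Bool} {p' : κ → Bool} {X : Matrix ι ι R} {f : Matrix ι κ R}
    {g : Matrix κ ι R} {X' : Matrix κ κ R} (h : OddM p p X) (hf : OddM p p' f) (hg : OddM p' p g)
    (h' : OddM p' p' X') : OddM (Sum.elim p p') (Sum.elim p p') (fromBlocks X f g X') := by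
  rintro (i | i) (j | j) e
  exacts [h i j e, hf i j e, hg i j e, h' i j e]

theorem Cx.tri {p : ι → Bool} {p' : κ → Bool} {X : Matrix ι ι R} {X' : Matrix κ κ R}
    (h : Cx x p X) (h' : Cx x p' X') {f : Matrix ι κ R} (hf : OddM p p' f)
    (hc : X * f + f * X' = 0) : Cx x (Sum.elim p p') (fromBlocks X f 0 X') := by
  have hs := Theta.IdxA_sq h.sq h'.sq hc
  refine Cx.mk' (oddM_blocks h.odd hf (fun _ _ _ => rfl) h'.odd) hs fun j => ?_
  obtain ⟨N, hN⟩ := h.nh j
  obtain ⟨N', hN'⟩ := h'.nh j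
  refine ⟨(N + N') * 2, ?_⟩
  rw [pow_mul]
  refine Theta.IdxA_nh hs ?_ ?_
  · rw [pow_add, mul_comm]; exact nh_mul hN _
  · rw [pow_add]; exact nh_mul hN' _

theorem Cx.conj {p : ι → Bool} {p' : κ → Bool} {X : Matrix ι ι R} {X' : Matrix κ κ R}
    (h : Cx x p X) (ho : OddM p' p' X') {U : Matrix ι κ R} {U' : Matrix κ ι R} (h₁ : U * U' = 1)
    (h₂ : U' * U = 1) (hc : X * U = U * X') : Cx x p' X' := by
  have e : X' = U' * X * U := by rw [Matrix.mul_assoc, hc, ← Matrix.mul_assoc, h₂, Matrix.one_mul]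
  have e' : ∀ A B : Matrix ι ι R, U' * A * U * (U' * B * U) = U' * (A * B) * U := fun A B => by
    rw [Matrix.mul_assoc (U' * A), ← Matrix.mul_assoc U, ← Matrix.mul_assoc U, h₁, Matrix.one_mul]
    simp only [Matrix.mul_assoc]
  refine Cx.mk' ho (by rw [e, e', h.sq]; simp) fun j => ?_
  obtain ⟨N, g, hg⟩ := h.nh j
  refine ⟨N, U' * g * U, ?_⟩
  rw [e, e', e', ← Matrix.add_mul, ← Matrix.mul_add, hg, Matrix.mul_smul, Matrix.mul_one,
    Matrix.smul_mul, h₂]

variable {Q : Type} [AddCommGroup Q]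
  {ρ : ∀ (ι : Type) [Fintype ι] [DecidableEq ι], (ι → Bool) → Matrix ι ι R → Q}

theorem IsIdx.contr' (hρ : IsIdx x ρ) {p : ι → Bool} {X h : Matrix ι ι R} (ho : OddM p p X)
    (hX : X * X = 0) (hh : X * h + h * X = 1) : ρ ι p X = 0 := by
  obtain ⟨g, hg, hg'⟩ := exists_odd_homotopy ho (y := 1) ⟨h, by simpa using hh⟩
  exact hρ.contr ι p X g ho hX hg (by simpa using hg')

theorem IsIdx.tri (hρ : IsIdx x ρ) {p : ι → Bool} {p' : κ → Bool} {X : Matrix ι ι R}
    {X' : Matrix κ κ R} (h : Cx x p X) (h' : Cx x p' X') {f : Matrix ι κ R} (hf : OddM p p' f)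
    (hc : X * f + f * X' = 0) :
    ρ (ι ⊕ κ) (Sum.elim p p') (fromBlocks X f 0 X') = ρ ι p X + ρ κ p' X' := by
  rw [← hρ.sum ι κ p X p' X' h h']
  refine hρ.pert _ _ _ _ 0 (Sum.elim (fun _ => 0) fun _ => 1) (Nat.zero_le _) (h.tri h' hf hc)
    (h.tri h' (fun _ _ _ => rfl) (by simp)) ?_ ?_
  · rintro (i | i) (j | j) e <;> simp_all
  · rintro (i | i) (j | j) e <;> simp_all

theorem IsIdx.cone_iso (hρ : IsIdx x ρ) {p : ι → Bool} {p' : κ → Bool} {X : Matrix ι ι R}
    {X' : Matrix κ κ R} (h : Cx x p X) (h' : Cx x p' X') {U : Matrix ι κ R} {U' : Matrix κ ι R}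
    (hU : OddM p p' U) (h₁ : U * U' = 1) (h₂ : U' * U = 1) (hc : X * U + U * X' = 0) :
    ρ ι p X + ρ κ p' X' = 0 := by
  rw [← hρ.tri h h' hU hc]
  refine hρ.contr' (h := fromBlocks 0 0 U' 0) (h.tri h' hU hc).odd (h.tri h' hU hc).sq ?_
  have : X' * U' + U' * X = 0 := by
    have := congrArg (fun A => U' * A * U') hc
    simp only [Matrix.mul_add, Matrix.add_mul, Matrix.mul_assoc, h₁, Matrix.mul_one,
      Matrix.mul_zero, Matrix.zero_mul] at this
    rwa [← Matrix.mul_assoc, h₂, Matrix.one_mul, add_comm] at this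
  rw [← fromBlocks_one]
  simp [fromBlocks_multiply, fromBlocks_add, h₁, h₂, this]

theorem IsIdx.flip (hρ : IsIdx x ρ) {p : ι → Bool} {X : Matrix ι ι R} (h : Cx x p X) :
    ρ ι (fun i => !p i) X = -ρ ι p X := by
  refine eq_neg_of_add_eq_zero_right (hρ.cone_iso h h.flip (U := SM R p) (U' := SM R p)
    (fun i j hij => ?_) SM_mul_SM SM_mul_SM (SM_anti h.odd))
  refine diagonal_apply_ne _ ?_
  rintro rfl
  simp at hij

theorem IsIdx.iso (hρ : IsIdx x ρ) {p : ι → Bool} {p' : κ → Bool} {X : Matrix ι ι R}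
    {X' : Matrix κ κ R} (h : Cx x p X) (h' : Cx x p' X') {U : Matrix ι κ R} {U' : Matrix κ ι R}
    (hU : OddM p (fun i => !p' i) U) (h₁ : U * U' = 1) (h₂ : U' * U = 1) (hc : X * U = U * X') :
    ρ ι p X = ρ κ p' X' := by
  have e₁ := hρ.cone_iso h h'.neg.flip hU h₁ h₂ (by simp [hc])
  have e₂ := hρ.cone_iso h' h'.neg.flip (U := 1) (U' := 1) (fun i j hij => one_apply_ne (by
    rintro rfl
    simp at hij)) (by simp) (by simp) (by simp)
  exact add_right_cancel (e₁.trans e₂.symm)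

omit [DecidableEq ι] [DecidableEq κ] in
/-- Construction of null-homotopies out of a bounded graded free complex. -/
theorem exists_homotopy {X : Matrix ι ι R} {wt : ι → ℕ} (hX : ∀ i j, X i j ≠ 0 → wt j = wt i + 1)
    (hXX : X * X = 0) {Y : Matrix κ κ R} {c : Matrix κ ι R} (hc : Y * c = c * X) (y : R)
    (V W : ℕ → Submodule R (κ → R))
    (hV : ∀ m, ∀ v ∈ V m, Y *ᵥ v = 0 → ∃ u ∈ W m, Y *ᵥ u = y • v) (hW : ∀ m, W m ≤ V (m + 1))
    (hcV : ∀ j, cᵀ j ∈ V (wt j)) :
    ∃ (L : ℕ) (g : Matrix κ ι R), (∀ j, gᵀ j ∈ W (wt j)) ∧ Y * g + g * X = y ^ L • c := by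
  have hcol : ∀ (g : Matrix κ ι R) (j : ι), (g * X)ᵀ j = ∑ i, X i j • gᵀ i := fun g j => by
    ext k
    simp [Matrix.mul_apply, Finset.sum_apply, mul_comm]
  have hcol' : ∀ (g : Matrix κ ι R) (j : ι), (Y * g)ᵀ j = Y *ᵥ gᵀ j := fun g j => rfl
  have hadd : ∀ (g g' : Matrix κ ι R) (j : ι), (g + g')ᵀ j = gᵀ j + g'ᵀ j := fun _ _ _ => rfl
  have hsub : ∀ (g g' : Matrix κ ι R) (j : ι), (g - g')ᵀ j = gᵀ j - g'ᵀ j := fun _ _ _ => rfl
  have hsm : ∀ (a : R) (g : Matrix κ ι R) (j : ι), (a • g)ᵀ j = a • gᵀ j := fun _ _ _ => rfl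
  have key : ∀ m, ∃ g : Matrix κ ι R, (∀ j, gᵀ j ∈ W (wt j)) ∧ (∀ j, m ≤ wt j → gᵀ j = 0) ∧
      ∀ j, wt j < m → (Y * g + g * X)ᵀ j = (y ^ m • c)ᵀ j := by
    intro m
    induction m with
    | zero => exact ⟨0, fun j => zero_mem _, fun _ _ => rfl, fun j h => absurd h (Nat.not_lt_zero _)⟩
    | succ m ih =>
      obtain ⟨g, h₁, h₂, h₃⟩ := ih
      have h4 : ∀ j, ∃ u ∈ W (wt j), (wt j ≠ m → u = 0) ∧
          (wt j = m → Y *ᵥ u = y • (y ^ m • c - g * X)ᵀ j) := by
        intro j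
        by_cases hj : wt j = m
        swap
        · exact ⟨0, zero_mem _, fun _ => rfl, fun h => absurd h hj⟩
        obtain ⟨u, hu, hu'⟩ := hV (wt j) ((y ^ m • c - g * X)ᵀ j) (by
          rw [hsub, hsm, hcol]
          refine sub_mem (Submodule.smul_mem _ _ (hcV j)) (Submodule.sum_mem _ fun i _ => ?_)
          by_cases hi : X i j = 0
          · rw [hi, zero_smul]; exact zero_mem _
          · rw [hX i j hi]
            exact Submodule.smul_mem _ _ (hW _ (h₁ i))) (by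
          have e : Y * (y ^ m • c - g * X) = (y ^ m • c - (Y * g + g * X)) * X := by
            simp [Matrix.mul_sub, Matrix.sub_mul, Matrix.add_mul, Matrix.mul_assoc, hXX, hc]
          rw [← hcol', e, hcol]
          refine Finset.sum_eq_zero fun i _ => ?_
          by_cases hi : X i j = 0
          · rw [hi, zero_smul]
          · rw [hsub, h₃ i (by have := hX i j hi; omega), sub_self, smul_zero])
        exact ⟨u, hu, fun h => absurd hj h, fun _ => hu'⟩
      choose u hu hu₁ hu₂ using h4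
      have hg : ∀ j, (y • g + (Matrix.of u)ᵀ)ᵀ j = y • gᵀ j + u j := fun j => rfl
      refine ⟨y • g + (Matrix.of u)ᵀ, fun j => ?_, fun j hj => ?_, fun j hj => ?_⟩
      · rw [hg]; exact add_mem (Submodule.smul_mem _ _ (h₁ j)) (hu j)
      · rw [hg, h₂ j (by omega), hu₁ j (by omega), smul_zero, add_zero]
      · have h5 : ((y • g + (Matrix.of u)ᵀ) * X)ᵀ j = y • (g * X)ᵀ j := by
          rw [hcol, hcol, Finset.smul_sum]
          refine Finset.sum_congr rfl fun i _ => ?_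
          by_cases hi : X i j = 0
          · simp [hi]
          · rw [hg, hu₁ i (by have := hX i j hi; omega), add_zero, smul_comm]
        rw [hadd, h5, hcol', hg, mulVec_add, mulVec_smul, pow_succ', mul_smul, hsm]
        by_cases hm : wt j = m
        · rw [h₂ j hm.ge, hu₂ j hm, mulVec_zero, smul_zero, zero_add, ← smul_add, hsub,
            sub_add_cancel]
        · rw [hu₁ j hm, mulVec_zero, add_zero, ← smul_add, ← h₃ j (by omega), ← hcol']
          rfl
  obtain ⟨g, h₁, -, h₃⟩ := key (Finset.univ.sup wt + 1)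
  refine ⟨_, g, h₁, transpose_injective (funext fun j => h₃ j ?_)⟩
  exact Nat.lt_succ_of_le (Finset.le_sup (Finset.mem_univ j))

theorem nh_of_graded {X : Matrix ι ι R} {wt : ι → ℕ} (hX : ∀ i j, X i j ≠ 0 → wt j = wt i + 1)
    (hXX : X * X = 0) (y : R)
    (h : ∀ m, ∀ v ∈ lev R wt m, X *ᵥ v = 0 → ∃ u, X *ᵥ u = y • v) : ∃ L, Theta.Nh X (y ^ L) := by
  obtain ⟨L, g, -, hg⟩ := exists_homotopy hX hXX (Y := X) (c := 1) (by simp) y (lev R wt)
    (fun m => lev R wt (m + 1)) (fun m v hv hv' => by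
      obtain ⟨u, hu⟩ := h m v hv hv'
      refine ⟨cut wt (m + 1) u, cut_mem _ _ _, ?_⟩
      rw [← cut_mulVec (wt := wt) (m := m) (fun i j hij => by have := hX i j hij; omega), hu,
        cut_smul, cut_of_mem hv]) (fun _ => le_rfl)
    fun j i hi => one_apply_ne fun e => hi (e ▸ rfl)
  exact ⟨L, g, hg⟩

end Cx

/-- A finite free resolution in matrix form. -/
structure IsFRes {R γ M : Type} [CommRing R] [Fintype γ] [AddCommGroup M] [Module R M]
    (wt : γ → ℕ) (Y : Matrix γ γ R) (ε : (γ → R) →ₗ[R] M) : Prop where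
  deg : ∀ i j, Y i j ≠ 0 → wt j = wt i + 1
  sq : Y * Y = 0
  aug : ∀ v, ε (Y *ᵥ v) = 0
  low : ∀ v, ε (cut wt 0 v) = ε v
  surj : Function.Surjective ε
  exact : ∀ v, Y *ᵥ v = 0 → ε v = 0 → ∃ u, Y *ᵥ u = v

theorem IsFRes.cyc {R γ M : Type} [CommRing R] [Fintype γ] [AddCommGroup M] [Module R M]
    {wt : γ → ℕ} {Y : Matrix γ γ R} {ε : (γ → R) →ₗ[R] M} (h : IsFRes wt Y ε) {v : γ → R}
    (hv : v ∈ lev R wt 0) : Y *ᵥ v = 0 := by
  ext i
  refine Finset.sum_eq_zero fun j _ => ?_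
  change Y i j * v j = 0
  by_cases hij : Y i j = 0
  · rw [hij, zero_mul]
  · rw [hv j (by have := h.deg i j hij; omega), mul_zero]

theorem IsFRes.surj' {R γ M : Type} [CommRing R] [Fintype γ] [AddCommGroup M] [Module R M]
    {wt : γ → ℕ} {Y : Matrix γ γ R} {ε : (γ → R) →ₗ[R] M} (h : IsFRes wt Y ε) (m : M) :
    ∃ v ∈ lev R wt 0, ε v = m := by
  obtain ⟨v, rfl⟩ := h.surj m
  exact ⟨_, cut_mem _ _ _, h.low v⟩

theorem IsFRes.high {R γ M : Type} [CommRing R] [Fintype γ] [AddCommGroup M] [Module R M]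
    {wt : γ → ℕ} {Y : Matrix γ γ R} {ε : (γ → R) →ₗ[R] M} (h : IsFRes wt Y ε) {m : ℕ} {v : γ → R}
    (hv : v ∈ lev R wt (m + 1)) : ε v = 0 := by
  rw [← h.low, cut_of_ne hv (by omega), map_zero]

theorem exists_fres {R : Type} [CommRing R] [IsLocalRing R] [IsNoetherianRing R] (n : ℕ) :
    ∀ (M : Type) [AddCommGroup M] [Module R M] [Module.Finite R M],
      HasProjectiveDimensionLT (ModuleCat.of R M) (n + 1) →
      ∃ (γ : Type) (_ : Fintype γ) (_ : DecidableEq γ) (wt : γ → ℕ) (Y : Matrix γ γ R)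
        (ε : (γ → R) →ₗ[R] M), IsFRes wt Y ε := by
  induction n with
  | zero =>
    intro M _ _ _ h
    have h2 : Module.Projective R M := (IsProjective.iff_projective (R := R) M).mpr
      (projective_iff_hasProjectiveDimensionLT_one.mpr h)
    have h3 : Module.Free R M := Module.free_of_flat_of_isLocalRing
    let β := Module.finBasis R M
    exact ⟨_, inferInstance, inferInstance, fun _ => 0, 0, β.equivFun.symm.toLinearMap,
      fun i j h => absurd rfl h, by simp, by simp, fun v => by rw [cut_of_mem fun i hi => absurd rfl hi],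
      β.equivFun.symm.surjective, fun v _ hv => ⟨0, by
        rw [mulVec_zero, (map_eq_zero_iff _ β.equivFun.symm.injective).mp hv]⟩⟩
  | succ n ih =>
    intro M _ _ _ h
    obtain ⟨r, q, hq⟩ := Module.Finite.exists_fin' R M
    have hS := shortExact_of (LinearMap.ker q).subtype q (Submodule.subtype_injective _) hq
      (LinearMap.exact_subtype_ker_map q)
    obtain ⟨γ, _, _, wt, Y, ε, hY⟩ := ih (LinearMap.ker q) ((hS.hasProjectiveDimensionLT_X₃_iff n
      (inferInstanceAs (Projective (ModuleCat.of R (Fin r → R))))).mp h)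
    let A : Matrix (Fin r) γ R := LinearMap.toMatrix' ((LinearMap.ker q).subtype ∘ₗ ε)
    have hA : ∀ v, A *ᵥ v = ε v := fun v => LinearMap.toMatrix'_mulVec _ _
    refine ⟨Fin r ⊕ γ, inferInstance, inferInstance, Sum.elim (fun _ => 0) fun j => wt j + 1,
      fromBlocks 0 A 0 Y, q ∘ₗ LinearMap.funLeft R R Sum.inl, ?_, ?_, fun v => ?_, fun v => rfl,
      fun m => ?_, fun v h₁ h₂ => ?_⟩
    · rintro (i | i) (j | j) hij
      · exact absurd rfl hij
      · by_contra h0
        refine hij ?_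
        have h1 : cut wt 0 (Pi.single j (1 : R)) = 0 :=
          cut_of_ne (m := wt j) (fun l hl => Pi.single_eq_of_ne (fun e => hl (congrArg wt e)) _)
            (fun e => h0 (by simp [← e]))
        have h2 := hA (Pi.single j 1)
        rw [← hY.low, h1, map_zero, mulVec_single_one] at h2
        exact congrFun h2 i
      · exact absurd rfl hij
      · exact congrArg (· + 1) (hY.deg i j hij)
    · have : A * Y = 0 := by
        refine Matrix.ext_iff_mulVec.mpr fun v => ?_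
        rw [← mulVec_mulVec, hA, hY.aug, zero_mulVec]; rfl
      simp [fromBlocks_multiply, this, hY.sq]
    · rw [fromBlocks_mulVec]
      change q (_ + A *ᵥ _) = 0
      rw [zero_mulVec, zero_add, hA]
      exact (ε _).2
    · obtain ⟨u, rfl⟩ := hq m
      exact ⟨Sum.elim u 0, rfl⟩
    · rw [fromBlocks_mulVec, ← Sum.elim_zero_zero, Sum.elim_eq_iff, zero_mulVec, zero_mulVec,
        zero_add, zero_add, hA] at h₁
      obtain ⟨u, hu⟩ := hY.exact _ h₁.2 (Subtype.ext h₁.1)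
      obtain ⟨w, hw, hw'⟩ := hY.surj' (⟨v ∘ Sum.inl, h₂⟩ - ε u)
      refine ⟨Sum.elim 0 (u + w), ?_⟩
      rw [fromBlocks_mulVec, zero_mulVec, zero_mulVec, zero_add, zero_add, Sum.elim_comp_inr, hA,
        map_add, hw', add_sub_cancel, mulVec_add, hu, hY.cyc hw, add_zero]
      exact Sum.elim_comp_inl_inr v

end Pool.Agent.P.MP_f43029_ag
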