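import Pool.Agent.P.MP_f43029_ag.Mx.IdxBase

/-!
The index theorem over a regular local ring: an index function is the Euler characteristic times
a constant.
-/

set_option autoImplicit false

namespace Pool.Agent.P.MP_f43029_ag

open IsLocalRing Matrix

section

variable {R ι κ : Type} [CommRing R] [Fintype ι] [DecidableEq ι] [Fintype κ] [DecidableEq κ]
  {D : ℕ} {x : Fin D → R}

theorem Cx.length_ne_top [IsLocalRing R] [IsNoetherianRing R]
    (hx : Ideal.span (Set.range x) = maximalIdeal R) {p : ι → Bool} {X : Matrix ι ι R}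
    (h : Cx x p X) (b : Bool) : Module.length R (Hb p X b) ≠ ⊤ := by
  refine length_ne_top_of_killed _ (Module.annihilator R (Hb p X b)) ?_
    fun y hy => Module.mem_annihilator.mp hy
  rw [← hx, Ideal.span_le]
  rintro _ ⟨j, rfl⟩
  obtain ⟨N, hN⟩ := h.killed j
  refine ⟨N, Module.mem_annihilator.mpr fun v => ?_⟩
  obtain ⟨v, rfl⟩ := Submodule.Quotient.mk_surjective _ v
  rw [← Submodule.Quotient.mk_smul, Submodule.Quotient.mk_eq_zero]
  exact (mem_Bb h.odd (Submodule.smul_mem _ _ v.2.2)).mpr (hN v v.2.1)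

omit [DecidableEq κ] in
theorem length_cone [IsLocalRing R] {p : ι → Bool} {p' : κ → Bool} {X : Matrix ι ι R}
    {K : Matrix κ κ R} {f : Matrix ι κ R} (hX : OddM p p X) (hK : OddM p' p' K)
    (hf : OddM p p' f) (hc : X * f + f * K = 0) {b : Bool} {w₁ : κ → R} (hw : w₁ ∈ lev R p' (!b))
    (hw0 : K *ᵥ w₁ = 0) (H₁ : ∀ w, K *ᵥ w = 0 → ∃ (r : R) (w' : κ → R), w = r • w₁ + K *ᵥ w')
    (H₂ : ¬∃ u, X *ᵥ u = f *ᵥ w₁) (H₃ : ∀ r ∈ maximalIdeal R, ∃ w', K *ᵥ w' = r • w₁) :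
    Module.length R (Hb p X b) =
      1 + Module.length R (Hb (Sum.elim p p') (fromBlocks X f 0 K) b) ∧
    Module.length R (Hb p X (!b)) =
      Module.length R (Hb (Sum.elim p p') (fromBlocks X f 0 K) (!b)) := by
  have hC := oddM_blocks hX hf (g := 0) (fun _ _ _ => rfl) hK
  have hfK : ∀ w, f *ᵥ K *ᵥ w = -(X *ᵥ f *ᵥ w) := fun w => by
    rw [mulVec_mulVec, mulVec_mulVec, ← neg_mulVec, eq_neg_of_add_eq_zero_right hc]
  have hmul : ∀ u w, fromBlocks X f 0 K *ᵥ Sum.elim u w = Sum.elim (X *ᵥ u + f *ᵥ w) (K *ᵥ w) :=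
    fun u w => by simp [fromBlocks_mulVec]
  have hzm : ∀ r : R, (∃ u, X *ᵥ u = r • f *ᵥ w₁) ↔ r ∈ maximalIdeal R := fun r => by
    refine ⟨fun ⟨u, hu⟩ hr => H₂ ⟨(hr.unit⁻¹ : Rˣ) • u, ?_⟩, fun hr => ?_⟩
    · rw [Units.smul_def, mulVec_smul, hu, smul_smul, IsUnit.val_inv_mul, one_smul]
    · obtain ⟨w', hw'⟩ := H₃ r hr
      exact ⟨-(f *ᵥ w'), by rw [mulVec_neg, ← hfK, hw', mulVec_smul]⟩
  let α : (ι → R) →ₗ[R] (ι ⊕ κ → R) := (fromRows (1 : Matrix ι ι R) (0 : Matrix κ ι R)).mulVecLin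
  have hα : ∀ v, α v = Sum.elim v 0 := fun v => by simp [α, fromRows_mulVec]
  have hαl : ∀ c, ∀ v ∈ lev R p c, α v ∈ lev R (Sum.elim p p') c := fun c v hv => by
    rw [hα]
    rintro (i | i) hi
    exacts [hv i hi, rfl]
  have hB : ∀ v, (∃ t, fromBlocks X f 0 K *ᵥ t = α v) ↔
      ∃ (r : R) (u : ι → R), X *ᵥ u = v - r • f *ᵥ w₁ := fun v => by
    rw [hα]
    constructor
    · rintro ⟨t, ht⟩
      rw [← Sum.elim_comp_inl_inr t, hmul, Sum.elim_eq_iff] at ht
      obtain ⟨r, w', h⟩ := H₁ _ ht.2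
      refine ⟨r, t ∘ Sum.inl - f *ᵥ w', ?_⟩
      rw [← ht.1, h, mulVec_add, hfK, mulVec_smul, mulVec_sub]
      abel
    · rintro ⟨r, u, hu⟩
      exact ⟨Sum.elim u (r • w₁), by rw [hmul, hu, mulVec_smul, mulVec_smul, hw0]; simp⟩
  have hZ : ∀ c, ∀ v ∈ Zb p X c, α v ∈ Zb (Sum.elim p p') (fromBlocks X f 0 K) c := fun c v hv =>
    ⟨by
      have : X *ᵥ v = 0 := hv.1
      rw [SetLike.mem_coe, LinearMap.mem_ker, mulVecLin_apply, hα, hmul, this]; simp, hαl c v hv.2⟩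
  have hBB : ∀ c, ∀ v ∈ Bb p X c, α v ∈ Bb (Sum.elim p p') (fromBlocks X f 0 K) c := by
    rintro c _ ⟨u, hu, rfl⟩
    exact (mem_Bb hC (hαl c _ (mulVec_mem_lev (hX.iff c) hu))).mpr ((hB _).mpr ⟨0, u, by simp⟩)
  have hsurj : ∀ c, Function.Surjective (sqMap α (hZ c) (hBB c)) := by
    intro c y
    obtain ⟨⟨t, ht, ht'⟩, rfl⟩ := Submodule.Quotient.mk_surjective _ y
    have h0 : fromBlocks X f 0 K *ᵥ t = 0 := ht
    rw [← Sum.elim_comp_inl_inr t, hmul, ← Sum.elim_zero_zero, Sum.elim_eq_iff] at h0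
    obtain ⟨r, w', h⟩ := H₁ _ h0.2
    obtain ⟨w₂, h₂⟩ := H₃ r ((hzm r).mp ⟨f *ᵥ w' - t ∘ Sum.inl, by
      have h1 := h0.1
      rw [h, mulVec_add, hfK, mulVec_smul] at h1
      rw [mulVec_sub, ← sub_eq_zero, ← neg_eq_zero, ← h1]
      abel⟩)
    have htr : t ∘ Sum.inr ∈ lev R p' c := fun i hi => ht' (Sum.inr i) hi
    have h3 : K *ᵥ cut p' (!c) (w₂ + w') = t ∘ Sum.inr := by
      rw [← cut_mulVec (hK.iff c), mulVec_add, h₂, ← h, cut_of_mem htr]
    have h4 : f *ᵥ cut p' (!c) (w₂ + w') ∈ lev R p c := mulVec_mem_lev (hf.iff c) (cut_mem _ _ _)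
    refine ⟨Submodule.Quotient.mk ⟨t ∘ Sum.inl - f *ᵥ cut p' (!c) (w₂ + w'), ?_,
      sub_mem (fun i hi => ht' (Sum.inl i) hi) h4⟩, ?_⟩
    · rw [SetLike.mem_coe, LinearMap.mem_ker, mulVecLin_apply, mulVec_sub, sub_eq_add_neg, ← hfK,
        h3, h0.1]
    · refine (Submodule.Quotient.eq _).mpr ⟨Sum.elim 0 (-cut p' (!c) (w₂ + w')), ?_, ?_⟩
      · rintro (i | i) hi
        exacts [rfl, neg_eq_zero.mpr (cut_mem _ _ _ i hi)]
      · change fromBlocks X f 0 K *ᵥ _ = α (t ∘ Sum.inl - f *ᵥ cut p' (!c) (w₂ + w')) - t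
        rw [hmul, hα, mulVec_neg, mulVec_neg, h3]
        ext (i | i) <;> simp
  have hker : ∀ c (v : Zb p X c), sqMap α (hZ c) (hBB c) (Submodule.Quotient.mk v) = 0 ↔
      ∃ (r : R) (u : ι → R), X *ᵥ u = v - r • f *ᵥ w₁ := fun c v => by
    rw [← hB]
    exact (Submodule.Quotient.mk_eq_zero _).trans (mem_Bb hC (hαl c _ v.2.2))
  have hz : f *ᵥ w₁ ∈ lev R p b := mulVec_mem_lev (hf.iff b) hw
  constructor
  · let z : Zb p X b := ⟨f *ᵥ w₁, by
      rw [SetLike.mem_coe, LinearMap.mem_ker, mulVecLin_apply, ← neg_eq_zero, ← hfK, hw0,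
        mulVec_zero], hz⟩
    have hz' : ∀ r : R, r • (Submodule.Quotient.mk z : Hb p X b) = 0 ↔ r ∈ maximalIdeal R :=
      fun r => by
      rw [← Submodule.Quotient.mk_smul, Submodule.Quotient.mk_eq_zero, ← hzm]
      exact mem_Bb hX (Submodule.smul_mem _ _ hz)
    let φ : (R ⧸ maximalIdeal R) →ₗ[R] Hb p X b := Submodule.liftQ _
      (LinearMap.toSpanSingleton R _ (Submodule.Quotient.mk z)) fun r hr => (hz' r).mpr hr
    have : IsSimpleModule R (R ⧸ maximalIdeal R) :=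
      isSimpleModule_iff_isCoatom.mpr (Ideal.isMaximal_def.mp inferInstance)
    rw [← Module.length_eq_one R (R ⧸ maximalIdeal R)]
    refine Module.length_eq_add_of_exact φ _ ?_ (hsurj b) fun y => ?_
    · rw [injective_iff_map_eq_zero]
      intro a ha
      obtain ⟨r, rfl⟩ := Submodule.Quotient.mk_surjective _ a
      exact (Submodule.Quotient.mk_eq_zero _).mpr ((hz' r).mp ha)
    · obtain ⟨v, rfl⟩ := Submodule.Quotient.mk_surjective _ y
      rw [hker]
      constructor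
      · rintro ⟨r, u, hu⟩
        refine ⟨Submodule.Quotient.mk r, ?_⟩
        change r • (Submodule.Quotient.mk z : Hb p X b) = _
        rw [← Submodule.Quotient.mk_smul, eq_comm, Submodule.Quotient.eq]
        exact (mem_Bb hX (sub_mem v.2.2 (Submodule.smul_mem _ _ hz))).mpr ⟨u, hu⟩
      · rintro ⟨a, ha⟩
        obtain ⟨r, rfl⟩ := Submodule.Quotient.mk_surjective _ a
        change r • (Submodule.Quotient.mk z : Hb p X b) = _ at ha
        rw [← Submodule.Quotient.mk_smul, eq_comm, Submodule.Quotient.eq] at ha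
        obtain ⟨u, -, hu⟩ := ha
        exact ⟨r, u, hu⟩
  · refine (LinearEquiv.ofBijective _ ⟨?_, hsurj (!b)⟩).length_eq
    rw [injective_iff_map_eq_zero]
    intro y hy
    obtain ⟨v, rfl⟩ := Submodule.Quotient.mk_surjective _ y
    obtain ⟨r, u, hu⟩ := (hker _ v).mp hy
    refine (Submodule.Quotient.mk_eq_zero _).mpr ((mem_Bb hX v.2.2).mpr ⟨cut p (!!b) u, ?_⟩)
    rw [← cut_mulVec (hX.iff (!b)), hu, cut_sub, cut_of_mem v.2.2,
      cut_of_ne (Submodule.smul_mem _ _ hz) (by simp), sub_zero]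

omit [Fintype ι] [DecidableEq ι] [Fintype κ] [DecidableEq κ] in
theorem oddM_of_deg {wt : ι → ℕ} {wt' : κ → ℕ} {X : Matrix ι κ R}
    (h : ∀ i j, X i j ≠ 0 → wt' j = wt i + 1) :
    OddM (fun i => (wt i).bodd) (fun j => (wt' j).bodd) X := fun i j e => by
  by_contra hij
  simp [h i j hij] at e

theorem exists_socle [IsLocalRing R] [IsNoetherianRing R]
    (hx : Ideal.span (Set.range x) = maximalIdeal R) {p : ι → Bool} {X : Matrix ι ι R}
    (h : Cx x p X) (L : Submodule R (ι → R)) {z₀ : ι → R} (hL : z₀ ∈ L) (h₀ : X *ᵥ z₀ = 0)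
    (h₁ : ¬∃ u, X *ᵥ u = z₀) : ∃ z ∈ L, X *ᵥ z = 0 ∧ (¬∃ u, X *ᵥ u = z) ∧
      ∀ r ∈ maximalIdeal R, ∃ u, X *ᵥ u = r • z := by
  classical
  let J : Ideal R := (LinearMap.range X.mulVecLin).comap (LinearMap.toSpanSingleton R _ z₀)
  have hJ : ∃ k, maximalIdeal R ^ k ≤ J := by
    refine Ideal.exists_pow_le_of_le_radical_of_fg ?_ (IsNoetherian.noetherian _)
    rw [← hx, Ideal.span_le]
    rintro _ ⟨j, rfl⟩
    obtain ⟨N, hN⟩ := h.killed j
    exact ⟨N, hN z₀ h₀⟩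
  obtain ⟨k, hk⟩ := Nat.exists_eq_succ_of_ne_zero (n := Nat.find hJ) fun e => h₁ (by
    have := Nat.find_spec hJ
    rw [e, pow_zero, Ideal.one_eq_top] at this
    simpa [J] using this (Submodule.mem_top (x := (1 : R))))
  obtain ⟨a, ha, ha'⟩ := SetLike.not_le_iff_exists.mp (Nat.find_min hJ (m := k) (by omega))
  refine ⟨a • z₀, L.smul_mem _ hL, by rw [mulVec_smul, h₀, smul_zero], ha', fun r hr => ?_⟩
  have := Nat.find_spec hJ
  rw [hk, pow_succ'] at this
  rw [smul_smul]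
  exact this (Ideal.mul_mem_mul hr ha)

variable {Q : Type} [AddCommGroup Q]
  {ρ : ∀ (ι : Type) [Fintype ι] [DecidableEq ι], (ι → Bool) → Matrix ι ι R → Q}

omit [DecidableEq κ] in
theorem IsFRes.decomp [IsLocalRing R] {wt : κ → ℕ} {K : Matrix κ κ R}
    {ε : (κ → R) →ₗ[R] R ⧸ maximalIdeal R} (h : IsFRes wt K ε) {w₁ : κ → R}
    (hw : w₁ ∈ lev R wt 0) (hw' : ε w₁ = 1) (w : κ → R) (h0 : K *ᵥ w = 0) :
    ∃ r : R, Ideal.Quotient.mk _ r = ε w ∧ ∃ w', w = r • w₁ + K *ᵥ w' := by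
  obtain ⟨r, hr⟩ := Ideal.Quotient.mk_surjective (ε w)
  obtain ⟨u, hu⟩ := h.exact (w - r • w₁) (by rw [mulVec_sub, mulVec_smul, h0, h.cyc hw]; simp)
    (by rw [map_sub, map_smul, hw', ← hr, Algebra.smul_def, mul_one]; exact sub_self _)
  exact ⟨r, hr, u, by rw [hu, add_sub_cancel]⟩

theorem IsFRes.cx [IsLocalRing R] (hx : ∀ j, x j ∈ maximalIdeal R) {wt : κ → ℕ}
    {K : Matrix κ κ R} {ε : (κ → R) →ₗ[R] R ⧸ maximalIdeal R} (h : IsFRes wt K ε) :
    Cx x (fun j => (wt j).bodd) K :=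
  Cx.mk' (oddM_of_deg h.deg) h.sq fun j => nh_of_graded h.deg h.sq _ fun m v _ hv =>
    h.exact _ (by rw [mulVec_smul, hv, smul_zero]) (by
      rw [map_smul, Algebra.smul_def, Ideal.Quotient.algebraMap_eq,
        Ideal.Quotient.eq_zero_iff_mem.mpr (hx j), zero_mul])

theorem IsIdx.graded [IsLocalRing R] [IsNoetherianRing R] (hρ : IsIdx x ρ)
    (hx : Ideal.span (Set.range x) = maximalIdeal R) {w₀ : κ → ℕ} {K : Matrix κ κ R}
    {ε : (κ → R) →ₗ[R] R ⧸ maximalIdeal R} (hK : IsFRes w₀ K ε) (n : ℕ) :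
    ∀ (ι : Type) [Fintype ι] [DecidableEq ι] (wt : ι → ℕ) (X : Matrix ι ι R),
      (∀ i j, X i j ≠ 0 → wt j = wt i + 1) → Cx x (fun i => (wt i).bodd) X →
      Module.length R (Hb (fun i => (wt i).bodd) X false) +
        Module.length R (Hb (fun i => (wt i).bodd) X true) = n →
      ρ ι (fun i => (wt i).bodd) X =
        chi (fun i => (wt i).bodd) X • ρ κ (fun j => (w₀ j).bodd) K := by
  classical
  induction n using Nat.strong_induction_on with
  | _ n ih =>
  intro ι _ _ wt X hdeg hX hn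
  have hcut : ∀ m u, cut wt m (X *ᵥ u) = X *ᵥ cut wt (m + 1) u := fun m =>
    cut_mulVec fun i j hij => by have := hdeg i j hij; omega
  let P : ℕ → Prop := fun m => ∃ z ∈ lev R wt m, X *ᵥ z = 0 ∧ ¬∃ u, X *ᵥ u = z
  by_cases hP : ∃ m, P m
  swap
  · obtain ⟨L, g, hg⟩ := nh_of_graded hdeg hX.sq 1 fun m v hv hv' => by
      by_contra h
      exact hP ⟨m, v, hv, hv', by simpa using h⟩
    rw [one_pow, one_smul] at hg
    have hsub : ∀ b, Module.length R (Hb (fun i => (wt i).bodd) X b) = 0 := fun b => by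
      rw [Module.length_eq_zero_iff]
      refine subsingleton_of_forall_eq 0 fun y => ?_
      obtain ⟨v, rfl⟩ := Submodule.Quotient.mk_surjective _ y
      refine (Submodule.Quotient.mk_eq_zero _).mpr ((mem_Bb hX.odd v.2.2).mpr ⟨g *ᵥ v, ?_⟩)
      have h1 : X *ᵥ v = 0 := v.2.1
      simpa [add_mulVec, ← mulVec_mulVec, h1] using congrArg (· *ᵥ (v : ι → R)) hg
    rw [hρ.contr' hX.odd hX.sq hg, chi, hsub, hsub, sub_self, zero_smul]
  have hbd : ∀ m, P m → m ≤ Finset.univ.sup wt := by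
    rintro m ⟨z, hz, -, hz'⟩
    by_contra h
    refine hz' ⟨0, funext fun i => ?_⟩
    rw [mulVec_zero, hz i (by have := Finset.le_sup (f := wt) (Finset.mem_univ i); omega)]
    rfl
  obtain ⟨m₁, hm₁⟩ := hP
  obtain ⟨i₀, ⟨z₀, hz₀, hz₀', hz₀''⟩, hmax⟩ : ∃ i₀, P i₀ ∧ ∀ m, i₀ < m → ¬P m :=
    ⟨_, Nat.findGreatest_spec (hbd m₁ hm₁) hm₁,
      fun m hm h => Nat.findGreatest_is_greatest hm (hbd m h) h⟩
  obtain ⟨z, hz, hz', hz'', hzm⟩ := exists_socle hx hX _ hz₀ hz₀' hz₀''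
  choose r₀ hr₀ using fun j => Ideal.Quotient.mk_surjective (ε (Pi.single j 1))
  have hr : ∀ w, Ideal.Quotient.mk _ (cut w₀ 0 r₀ ⬝ᵥ w) = ε w := fun w => by
    rw [← hK.low, ← Finset.univ_sum_single (cut w₀ 0 w), map_sum, dotProduct, map_sum]
    refine Finset.sum_congr rfl fun j _ => ?_
    rw [← mul_one (cut w₀ 0 w j), ← smul_eq_mul (cut w₀ 0 w j), Pi.single_smul, map_smul, ← hr₀,
      Algebra.smul_def, Ideal.Quotient.algebraMap_eq, ← map_mul]
    by_cases hj : w₀ j = 0 <;> simp [cut, hj, mul_comm]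
  let f₀ : Matrix ι κ R := vecMulVec z (cut w₀ 0 r₀)
  have hf₀ : ∀ w, f₀ *ᵥ w = (cut w₀ 0 r₀ ⬝ᵥ w) • z := fun w => by
    rw [vecMulVec_mulVec]; simp
  have hXf₀ : X * f₀ = 0 := by rw [mul_vecMulVec, hz', zero_vecMulVec]
  obtain ⟨L, g, hg, hg'⟩ := exists_homotopy hK.deg hK.sq (Y := X) (c := -(f₀ * K))
    (by rw [Matrix.mul_neg, ← Matrix.mul_assoc, hXf₀, Matrix.neg_mul, Matrix.mul_assoc, hK.sq]; simp)
    1 (fun | 0 => ⊥ | 1 => lev R wt i₀ ⊓ LinearMap.range X.mulVecLin | m + 2 => lev R wt (i₀ + m + 1))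
    (fun | 0 => ⊥ | m + 1 => lev R wt (i₀ + m + 1))
    (fun
      | 0, v, hv, _ => ⟨0, rfl, by rw [(Submodule.mem_bot R).mp hv]; simp⟩
      | 1, v, ⟨hv, u, hu⟩, _ => ⟨cut wt (i₀ + 1) u, cut_mem _ _ _, by
          rw [← hcut, one_smul]; exact (congrArg _ hu).trans (cut_of_mem hv)⟩
      | m + 2, v, hv, hv' => by
          obtain ⟨u, hu⟩ : ∃ u, X *ᵥ u = v := by
            by_contra h
            exact hmax _ (by omega) ⟨v, hv, hv', h⟩
          exact ⟨cut wt (i₀ + m + 1 + 1) u, cut_mem _ _ _, by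
            rw [← hcut, one_smul, hu, cut_of_mem hv]⟩)
    (fun | 0 => bot_le | m + 1 => le_rfl) (fun j => by
      have h1 : (-(f₀ * K))ᵀ j = (-(cut w₀ 0 r₀ ⬝ᵥ Kᵀ j)) • z := by
        rw [neg_smul, ← hf₀]; rfl
      rw [h1]
      by_cases hj : w₀ j = 1
      · rw [hj]
        refine ⟨Submodule.smul_mem _ _ hz, hzm _ (neg_mem ?_)⟩
        rw [← Ideal.Quotient.eq_zero_iff_mem, hr, ← hK.aug (Pi.single j 1), mulVec_single_one]
        rfl
      · rw [dotProduct, Finset.sum_eq_zero, neg_zero, zero_smul]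
        · exact zero_mem _
        · intro i _
          by_cases hi : K i j = 0
          · rw [transpose_apply, hi, mul_zero]
          · rw [cut_mem w₀ 0 r₀ i (by have := hK.deg i j hi; omega), zero_mul])
  rw [one_pow, one_smul] at hg'
  have hc : X * (f₀ + g) + (f₀ + g) * K = 0 := by
    rw [Matrix.mul_add, Matrix.add_mul, hXf₀, zero_add, add_left_comm, hg', add_neg_cancel]
  have hg0 : ∀ i j, g i j ≠ 0 → w₀ j ≠ 0 ∧ wt i = i₀ + w₀ j := fun i j hij => by
    have h1 := hg j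
    rcases h2 : w₀ j with _ | m
    · rw [h2] at h1
      exact absurd (congrFun h1 i) hij
    · rw [h2] at h1
      exact ⟨by omega, by_contra fun h => hij (h1 i h)⟩
  have hfdeg : ∀ i j, (f₀ + g) i j ≠ 0 → w₀ j + i₀ + 1 = wt i + 1 := fun i j hij => by
    by_cases h1 : g i j = 0
    · rw [Matrix.add_apply, h1, add_zero] at hij
      change z i * cut w₀ 0 r₀ j ≠ 0 at hij
      have h2 : wt i = i₀ := by_contra fun h => hij (by rw [hz i h, zero_mul])
      have h3 : w₀ j = 0 := by_contra fun h => hij (by rw [cut_mem w₀ 0 r₀ j h, mul_zero])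
      omega
    · have := (hg0 i j h1).2
      omega
  have hKx := hK.cx (x := x) fun j => hx ▸ Ideal.subset_span ⟨j, rfl⟩
  have hKo : OddM (fun j => (w₀ j + i₀ + 1).bodd) (fun j => (w₀ j + i₀ + 1).bodd) K :=
    oddM_of_deg fun i j hij => by have := hK.deg i j hij; omega
  have hK' : Cx x (fun j => (w₀ j + i₀ + 1).bodd) K := Cx.mk' hKo hK.sq hKx.nh
  have hfo := oddM_of_deg (wt := wt) (wt' := fun j => w₀ j + i₀ + 1) hfdeg
  obtain ⟨w₁, hw₁, hw₁'⟩ := hK.surj' 1
  obtain ⟨l₁, l₂⟩ := length_cone hX.odd hKo hfo hc (b := i₀.bodd) (w₁ := w₁)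
    (fun j hj => hw₁ j fun e => hj (by simp [e])) (hK.cyc hw₁)
    (fun w hw => (hK.decomp hw₁ hw₁' w hw).imp fun _ h => h.2) (by
      have h1 : g *ᵥ w₁ = 0 := funext fun i => Finset.sum_eq_zero fun j _ => by
        change g i j * w₁ j = 0
        by_cases hij : g i j = 0
        · rw [hij, zero_mul]
        · rw [hw₁ j (hg0 i j hij).1, mul_zero]
      have h2 : IsUnit (cut w₀ 0 r₀ ⬝ᵥ w₁) := by
        rw [← notMem_maximalIdeal, ← Ideal.Quotient.eq_zero_iff_mem, hr, hw₁']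
        exact one_ne_zero
      rw [add_mulVec, h1, add_zero, hf₀]
      rintro ⟨u, hu⟩
      exact hz'' ⟨(h2.unit⁻¹ : Rˣ) • u, by
        rw [Units.smul_def, mulVec_smul, hu, smul_smul, IsUnit.val_inv_mul, one_smul]⟩)
    fun r hr' => hK.exact _ (by rw [mulVec_smul, hK.cyc hw₁, smul_zero]) (by
      rw [map_smul, Algebra.smul_def, Ideal.Quotient.algebraMap_eq,
        Ideal.Quotient.eq_zero_iff_mem.mpr hr', zero_mul])
  have hC := hX.tri hK' hfo hc
  have hT := hρ.tri hX hK' hfo hc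
  have hpar : (fun i => (Sum.elim wt (fun j => w₀ j + i₀ + 1) i).bodd) =
      Sum.elim (fun i => (wt i).bodd) fun j => (w₀ j + i₀ + 1).bodd := by
    ext (i | i) <;> rfl
  obtain ⟨a, ha⟩ := ENat.ne_top_iff_exists.mp (hC.length_ne_top hx false)
  obtain ⟨b, hb⟩ := ENat.ne_top_iff_exists.mp (hC.length_ne_top hx true)
  have ih' := fun h => ih (a + b) h (ι ⊕ κ) (Sum.elim wt fun j => w₀ j + i₀ + 1)
    (fromBlocks X (f₀ + g) 0 K) (by
      rintro (i | i) (j | j) hij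
      · exact hdeg i j hij
      · exact hfdeg i j hij
      · exact absurd rfl hij
      · have := hK.deg i j hij
        simp only [Sum.elim_inr]
        omega) (hpar ▸ hC) (by rw [hpar, ← ha, ← hb, Nat.cast_add])
  rw [hpar, hT, chi, ← ha, ← hb] at ih'
  rw [chi]
  rcases hi : i₀.bodd with _ | _
  · rw [hi] at l₁ l₂
    rw [Bool.not_false] at l₂
    rw [l₁, l₂, ← ha, ← hb] at hn ⊢
    have h1 : (fun j => (w₀ j + i₀ + 1).bodd) = fun j => !(w₀ j).bodd := by ext; simp [hi]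
    rw [h1, hρ.flip hKx] at ih'
    rw [eq_sub_of_add_eq (ih' (by norm_cast at hn; omega))]
    norm_cast
    simp only [ENat.toNat_natCast, Int.subNatNat_eq_coe]
    push_cast
    module
  · rw [hi] at l₁ l₂
    rw [Bool.not_true] at l₂
    rw [l₁, l₂, ← ha, ← hb] at hn ⊢
    have h1 : (fun j => (w₀ j + i₀ + 1).bodd) = fun j => (w₀ j).bodd := by ext; simp [hi]
    rw [h1] at ih'
    rw [eq_sub_of_add_eq (ih' (by norm_cast at hn; omega))]
    norm_cast
    simp only [ENat.toNat_natCast, Int.subNatNat_eq_coe]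
    push_cast
    module

omit [Fintype κ] [DecidableEq κ] [DecidableEq ι] in
theorem mul_ne_zero_entry {μ : Type} {A : Matrix κ ι R} {B : Matrix ι μ R} {i : κ} {j : μ}
    (h : (A * B) i j ≠ 0) : ∃ l, A i l ≠ 0 ∧ B l j ≠ 0 := by
  obtain ⟨l, -, hl⟩ := Finset.exists_ne_zero_of_sum_ne_zero h
  exact ⟨l, left_ne_zero_of_mul hl, right_ne_zero_of_mul hl⟩

theorem exists_unipotent_inv {wt : ι → ℕ} {ν : Matrix ι ι R}
    (h : ∀ i j, ν i j ≠ 0 → wt i = wt j + 2) : ∃ β : Matrix ι ι R, β * (1 + ν) = 1 ∧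
      (1 + ν) * β = 1 ∧ ∀ i j, β i j ≠ 0 → (wt i).bodd = (wt j).bodd := by
  have key : ∀ k i j, ((-ν) ^ k) i j ≠ 0 → wt i = wt j + 2 * k := by
    intro k
    induction k with
    | zero => exact fun i j hij => by rw [by_contra fun e => hij (one_apply_ne e)]; rfl
    | succ k ih =>
      intro i j hij
      rw [pow_succ] at hij
      obtain ⟨l, h₁, h₂⟩ := mul_ne_zero_entry hij
      have := ih i l h₁
      have := h l j (neg_ne_zero.mp h₂)
      omega
  have h0 : (-ν) ^ (Finset.univ.sup wt + 1) = 0 := by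
    ext i j
    by_contra hij
    have := key _ i j hij
    have := Finset.le_sup (f := wt) (Finset.mem_univ i)
    omega
  refine ⟨∑ k ∈ Finset.range (Finset.univ.sup wt + 1), (-ν) ^ k, ?_, ?_, fun i j hij => ?_⟩
  · simpa [h0] using geom_sum_mul_neg (-ν) (Finset.univ.sup wt + 1)
  · simpa [h0] using mul_neg_geom_sum (-ν) (Finset.univ.sup wt + 1)
  · rw [Matrix.sum_apply] at hij
    obtain ⟨k, -, hk⟩ := Finset.exists_ne_zero_of_sum_ne_zero hij
    simp [key k i j hk]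

/-- The data comparing a two-periodic complex with a bounded graded complex. -/
theorem exists_unfold {p : ι → Bool} {X : Matrix ι ι R} (ho : OddM p p X) (hXX : X * X = 0)
    {wt : κ → ℕ} {Y : Matrix κ κ R} {ε : (κ → R) →ₗ[R] Zb p X false} (hY : IsFRes wt Y ε) :
    ∃ (E : Matrix ι κ R) (a : Matrix κ ι R) (ν : Matrix κ κ R), (∀ v, E *ᵥ v = ε v) ∧
      (∀ i j, E i j ≠ 0 → p i = false ∧ wt j = 0) ∧
      (∀ i j, a i j ≠ 0 → wt i = if p j then 0 else 1) ∧ (∀ i j, ν i j ≠ 0 → wt i = wt j + 2) ∧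
      E * a = -(X * parProj R p true) ∧ E * ν = 0 ∧ Y * a = a * (X * parProj R p false) ∧
      Y * ν = a * E + ν * Y := by
  let E : Matrix ι κ R := LinearMap.toMatrix' ((Zb p X false).subtype ∘ₗ ε)
  have hE : ∀ v, E *ᵥ v = ε v := fun v => LinearMap.toMatrix'_mulVec _ _
  have hEdeg : ∀ i j, E i j ≠ 0 → p i = false ∧ wt j = 0 := fun i j hij => by
    have h2 := congrFun (hE (Pi.single j 1)) i
    rw [mulVec_single_one] at h2
    refine ⟨by_contra fun h => hij (h2.trans ((ε _).2.2 i h)), by_contra fun h => hij ?_⟩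
    rw [← hY.low, cut_of_ne (m := wt j)
      (fun l hl => Pi.single_eq_of_ne (fun e => hl (congrArg wt e)) _) (Ne.symm h), map_zero] at h2
    exact h2
  have hP : ∀ b (v : ι → R), parProj R p b *ᵥ v = cut p b v := fun b v =>
    funext (parProj_mulVec p b v)
  have hEY : E * Y = 0 := Matrix.ext_iff_mulVec.mpr fun v => by
    rw [← mulVec_mulVec, hE, hY.aug, zero_mulVec]; rfl
  have hXE : X * parProj R p false * E = 0 := Matrix.ext_iff_mulVec.mpr fun v => by
    rw [← mulVec_mulVec, ← mulVec_mulVec, hP, hE, cut_of_mem (ε v).2.2, zero_mulVec]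
    exact (ε v).2.1
  have hPE : parProj R p true * E = 0 := Matrix.ext_iff_mulVec.mpr fun v => by
    rw [← mulVec_mulVec, hP, hE, cut_of_ne (ε v).2.2 (by simp), zero_mulVec]
  have hPX : parProj R p true * (X * parProj R p false) = X * parProj R p false :=
    Matrix.ext_iff_mulVec.mpr fun v => by
      simp only [← mulVec_mulVec, hP]
      exact cut_of_mem (mulVec_mem_lev (ho.iff true) (cut_mem _ _ _))
  have hPX' : parProj R p false * (X * parProj R p false) = 0 :=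
    Matrix.ext_iff_mulVec.mpr fun v => by
      simp only [← mulVec_mulVec, hP, zero_mulVec]
      exact cut_of_ne (mulVec_mem_lev (ho.iff true) (cut_mem _ _ _)) (by simp)
  have hPP : parProj R p true * parProj R p true = parProj R p true :=
    Matrix.ext_iff_mulVec.mpr fun v => by
      simp only [← mulVec_mulVec, hP]
      exact cut_of_mem (cut_mem _ _ _)
  choose w hw hw' using fun i => hY.surj' ⟨-(X *ᵥ cut p true (Pi.single i 1)), by
    rw [SetLike.mem_coe, LinearMap.mem_ker, mulVecLin_apply, mulVec_neg, mulVec_mulVec, hXX,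
      zero_mulVec, neg_zero], neg_mem (mulVec_mem_lev (ho.iff false) (cut_mem _ _ _))⟩
  let Ψ : Matrix κ ι R := (Matrix.of w)ᵀ * parProj R p true
  have hΨdeg : ∀ i j, Ψ i j ≠ 0 → wt i = 0 ∧ p j = true := fun i j hij => by
    simp only [Ψ, parProj, mul_diagonal, transpose_apply, of_apply] at hij
    exact ⟨by_contra fun h => hij (by rw [hw j i h, zero_mul]),
      by_contra fun h => hij (by rw [if_neg h, mul_zero])⟩
  have hEΨ : E * Ψ = -(X * parProj R p true) := by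
    have : E * (Matrix.of w)ᵀ = -(X * parProj R p true) := by
      ext i j
      have h1 : (E *ᵥ w j) i = (-(X *ᵥ cut p true (Pi.single j 1))) i :=
        congrFun ((hE (w j)).trans (congrArg Subtype.val (hw' j))) i
      rw [← hP, mulVec_mulVec, mulVec_single_one] at h1
      exact h1
    rw [← Matrix.mul_assoc, this, Matrix.neg_mul, Matrix.mul_assoc, hPP]
  have hΨE : Ψ * E = 0 := by rw [Matrix.mul_assoc, hPE, Matrix.mul_zero]
  have hYΨ : Y * Ψ = 0 := by
    ext i j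
    by_contra h
    obtain ⟨l, h₁, h₂⟩ := mul_ne_zero_entry h
    have := hY.deg i l h₁
    have := (hΨdeg l j h₂).1
    omega
  have hXP : ∀ i j, (X * parProj R p false) i j ≠ 0 → p i = true ∧ p j = false := fun i j hij => by
    simp only [parProj, mul_diagonal] at hij
    have h1 : p j = false := by_contra fun h => hij (by rw [if_neg h, mul_zero])
    exact ⟨(ho.iff true i j (left_ne_zero_of_mul hij)).mpr h1, h1⟩
  obtain ⟨L, g, hg, hg'⟩ := exists_homotopy (X := fromBlocks (X * parProj R p false) E 0 Y)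
    (wt := Sum.elim (fun i => if p i then 0 else 1) fun j => wt j + 2) (by
      rintro (i | i) (j | j) hij
      · simp [hXP i j hij]
      · simp [hEdeg i j hij]
      · exact absurd rfl hij
      · simp [hY.deg i j hij])
    (by simp [fromBlocks_multiply, hXE, hEY, hY.sq, Matrix.mul_assoc X, hPX']) (Y := -Y)
    (c := fromCols (-(Ψ * (X * parProj R p false))) 0) (by
      rw [mul_fromCols, fromCols_mul_fromBlocks, Matrix.mul_neg, ← Matrix.mul_assoc,
        Matrix.neg_mul Y, hYΨ]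
      simp [Matrix.mul_assoc Ψ, hXE, Matrix.mul_assoc X, hPX']) 1
    (fun | 0 => ⊥ | m + 1 => lev R wt m ⊓ LinearMap.ker ε) (fun | 0 => ⊥ | m + 1 => lev R wt (m + 1))
    (fun
      | 0, v, hv, _ => ⟨0, rfl, by rw [(Submodule.mem_bot R).mp hv]; simp⟩
      | m + 1, v, hv, hv' => by
          obtain ⟨u, hu⟩ := hY.exact v (by simpa [neg_mulVec] using hv') hv.2
          refine ⟨-cut wt (m + 1) u, neg_mem (cut_mem _ _ _), ?_⟩
          rw [neg_mulVec_neg, ← cut_mulVec (wt := wt) (m := m)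
            (fun i j hij => by have := hY.deg i j hij; omega), hu, cut_of_mem hv.1, one_smul])
    (fun | 0 => bot_le | m + 1 => fun v hv => ⟨hv, hY.high hv⟩) (by
      rintro (j | j)
      swap
      · exact zero_mem _
      have h1 : ∀ i, (Ψ * (X * parProj R p false)) i j ≠ 0 → wt i = 0 ∧ p j = false := fun i h => by
        obtain ⟨l, h₁, h₂⟩ := mul_ne_zero_entry h
        exact ⟨(hΨdeg i l h₁).1, (hXP l j h₂).2⟩
      rcases hj : p j with _ | _
      · simp only [Sum.elim_inl, hj, Bool.false_eq_true, if_false]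
        refine ⟨fun i hi => neg_eq_zero.mpr (by_contra fun h => hi (h1 i h).1), Subtype.ext ?_⟩
        have h2 : E * -(Ψ * (X * parProj R p false)) = 0 := by
          rw [Matrix.mul_neg, ← Matrix.mul_assoc, hEΨ, Matrix.neg_mul, Matrix.mul_assoc, hPX,
            ← Matrix.mul_assoc, hXX]
          simp
        rw [← hE]
        exact congrFun (congrArg transpose h2) j
      · simp only [Sum.elim_inl, hj, if_true]
        exact funext fun i => neg_eq_zero.mpr (by_contra fun h => by simpa [hj] using (h1 i h).2))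
  have hEg : E * g = 0 := by
    refine transpose_injective (funext fun j => ?_)
    have h1 := hg j
    change E *ᵥ gᵀ j = 0
    rw [hE]
    rcases h2 : Sum.elim (fun i => if p i then 0 else 1) (fun j => wt j + 2) j with _ | m
    · rw [h2] at h1
      rw [(Submodule.mem_bot R).mp h1, map_zero]; rfl
    · rw [h2] at h1
      rw [hY.high h1]; rfl
  have hgdeg : ∀ i j, g i j ≠ 0 →
      wt i = Sum.elim (fun i => if p i then 0 else 1) (fun j => wt j + 2) j := fun i j hij => by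
    have h1 := hg j
    rcases h2 : Sum.elim (fun i => if p i then 0 else 1) (fun j => wt j + 2) j with _ | m
    · rw [h2] at h1
      exact absurd (congrFun h1 i) hij
    · rw [h2] at h1
      exact by_contra fun h => hij (h1 i h)
  rw [← fromCols_toCols g, mul_fromCols, ← fromCols_zero, fromCols_ext_iff] at hEg
  rw [one_pow, one_smul, ← fromCols_toCols g, mul_fromCols, fromCols_mul_fromBlocks] at hg'
  have h₁ := congrArg toCols₁ hg'
  have h₂ := congrArg toCols₂ hg'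
  have hadd₁ : ∀ A B : Matrix κ (ι ⊕ κ) R, toCols₁ (A + B) = toCols₁ A + toCols₁ B := fun _ _ => rfl
  have hadd₂ : ∀ A B : Matrix κ (ι ⊕ κ) R, toCols₂ (A + B) = toCols₂ A + toCols₂ B := fun _ _ => rfl
  simp only [hadd₁, hadd₂, toCols₁_fromCols, toCols₂_fromCols, Matrix.mul_zero, add_zero,
    Matrix.neg_mul] at h₁ h₂
  refine ⟨E, Ψ + g.toCols₁, g.toCols₂, hE, hEdeg, fun i j hij => ?_,
    fun i j hij => hgdeg i (Sum.inr j) hij, by rw [Matrix.mul_add, hEΨ, hEg.1, add_zero], hEg.2,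
    ?_, ?_⟩
  · by_cases h : Ψ i j = 0
    · exact hgdeg i (Sum.inl j) (by simpa [h] using hij)
    · simp [hΨdeg i j h]
  · rw [Matrix.mul_add, hYΨ, zero_add, Matrix.add_mul, ← neg_neg (Ψ * _), ← h₁]
    abel
  · rw [Matrix.add_mul, hΨE, zero_add]
    exact neg_add_eq_zero.mp h₂

theorem IsIdx.unfold [IsLocalRing R] (hρ : IsIdx x ρ) {p : ι → Bool} {X : Matrix ι ι R}
    (hX : Cx x p X) {wt : κ → ℕ} {Y : Matrix κ κ R} {ε : (κ → R) →ₗ[R] Zb p X false}
    (hY : IsFRes wt Y ε) : ∃ (w : ι ⊕ κ ⊕ κ → ℕ) (Z : Matrix (ι ⊕ κ ⊕ κ) (ι ⊕ κ ⊕ κ) R),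
      (∀ i j, Z i j ≠ 0 → w j = w i + 1) ∧ Cx x (fun i => (w i).bodd) Z ∧
      chi (fun i => (w i).bodd) Z = chi p X ∧ ρ _ (fun i => (w i).bodd) Z = ρ ι p X := by
  have ho := hX.odd
  obtain ⟨E, a, ν, hE, hEd, had, hνd, hEa, hEν, hYa, hYν⟩ := exists_unfold ho hX.sq hY
  obtain ⟨β, hβ₁, hβ₂, hβd⟩ := exists_unipotent_inv hνd
  have hP : ∀ b (v : ι → R), parProj R p b *ᵥ v = cut p b v := fun b v =>
    funext (parProj_mulVec p b v)
  have hcX : ∀ b u, cut p b (X *ᵥ u) = X *ᵥ cut p (!b) u := fun b => cut_mulVec (ho.iff b)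
  have hcc : ∀ b (u : ι → R), cut p b (cut p b u) = cut p b u := fun b u =>
    cut_of_mem (cut_mem _ _ _)
  have hft : ∀ u : ι → R, cut p false (cut p true u) = 0 := fun u =>
    cut_of_ne (cut_mem _ _ _) (by simp)
  have htf : ∀ u : ι → R, cut p true (cut p false u) = 0 := fun u =>
    cut_of_ne (cut_mem _ _ _) (by simp)
  have htf' : ∀ u : ι → R, cut p true u + cut p false u = u := cut_add_cut_not p true
  have hEl : ∀ g, E *ᵥ g ∈ lev R p false := fun g => hE g ▸ (ε g).2.2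
  have hXE : ∀ g, X *ᵥ E *ᵥ g = 0 := fun g => hE g ▸ (ε g).2.1
  have hEY : ∀ g, E *ᵥ Y *ᵥ g = 0 := fun g => by rw [hE, hY.aug]; rfl
  have hEa' : ∀ v, E *ᵥ a *ᵥ v = -(X *ᵥ cut p true v) := fun v => by
    rw [mulVec_mulVec, hEa, neg_mulVec, ← mulVec_mulVec, hP]
  have hEν' : ∀ g, E *ᵥ ν *ᵥ g = 0 := fun g => by rw [mulVec_mulVec, hEν, zero_mulVec]
  have hYa' : ∀ v, Y *ᵥ a *ᵥ v = a *ᵥ X *ᵥ cut p false v := fun v => by
    rw [mulVec_mulVec, hYa, ← mulVec_mulVec, ← mulVec_mulVec, hP]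
  have hYν' : ∀ g, Y *ᵥ ν *ᵥ g = a *ᵥ E *ᵥ g + ν *ᵥ Y *ᵥ g := fun g => by
    simp only [mulVec_mulVec, hYν, add_mulVec]
  have hex : ∀ g, Y *ᵥ g = 0 → E *ᵥ g = 0 → ∃ u, Y *ᵥ u = g := fun g h h' =>
    hY.exact g h (Subtype.ext ((hE g).symm.trans h'))
  have hsj : ∀ v g, v ∈ lev R p false → X *ᵥ v = 0 → ∃ u, Y *ᵥ u = 0 ∧ E *ᵥ (g + u) = v := by
    intro v g h h'
    obtain ⟨u, hu, hu'⟩ := hY.surj' (⟨v, h', h⟩ - ε g)
    exact ⟨u, hY.cyc hu, by rw [hE, map_add, hu', add_sub_cancel]⟩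
  have hXP : ∀ i j, (X * parProj R p false) i j ≠ 0 → p i = true ∧ p j = false := fun i j hij => by
    simp only [parProj, mul_diagonal] at hij
    have h1 : p j = false := by_contra fun h => hij (by rw [if_neg h, mul_zero])
    exact ⟨(ho.iff true i j (left_ne_zero_of_mul hij)).mpr h1, h1⟩
  let w : ι ⊕ κ ⊕ κ → ℕ := Sum.elim (fun i => if p i then 1 else 2) (Sum.elim (fun j => wt j + 3) wt)
  let Z : Matrix κ κ R → Matrix (ι ⊕ κ ⊕ κ) (ι ⊕ κ ⊕ κ) R := fun α =>
    fromBlocks (X * parProj R p false) (fromCols E 0) (fromRows 0 a) (fromBlocks Y 0 α (-Y))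
  have hpar : (fun i => (w i).bodd) =
      Sum.elim p (Sum.elim (fun j => !(wt j).bodd) fun j => (wt j).bodd) := by
    ext (i | i | i)
    · rcases h : p i <;> simp [w, h]
    · simp [w]
    · rfl
  have hdeg : ∀ i j, Z ν i j ≠ 0 → w j = w i + 1 := by
    rintro (i | i | i) (j | j | j) hij
    · simp [w, hXP i j hij]
    · simp [w, hEd i j hij]
    · exact absurd rfl hij
    · exact absurd rfl hij
    · simp [w, hY.deg i j hij]
    · exact absurd rfl hij
    · rcases h : p j <;> simp [w, had i j hij, h]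
    · simp [w, hνd i j hij]
    · exact hY.deg i j (neg_ne_zero.mp hij)
  have hmul : ∀ α v g g', Z α *ᵥ Sum.elim v (Sum.elim g g') =
      Sum.elim (X *ᵥ cut p false v + E *ᵥ g) (Sum.elim (Y *ᵥ g) (a *ᵥ v + α *ᵥ g - Y *ᵥ g')) := by
    intro α v g g'
    simp only [Z, fromBlocks_mulVec, Sum.elim_comp_inl, Sum.elim_comp_inr, fromCols_mulVec_sumElim,
      fromRows_mulVec, zero_mulVec, add_zero, ← mulVec_mulVec, hP, neg_mulVec]
    ext (i | i | i) <;> simp [sub_eq_add_neg, add_assoc]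
  have hsplit : ∀ t : ι ⊕ κ ⊕ κ → R, ∃ v g g', t = Sum.elim v (Sum.elim g g') := fun t =>
    ⟨t ∘ Sum.inl, t ∘ Sum.inr ∘ Sum.inl, t ∘ Sum.inr ∘ Sum.inr, by ext (i | i | i) <;> rfl⟩
  have hzero : ∀ (v : ι → R) (g g' : κ → R), Sum.elim v (Sum.elim g g') = 0 ↔
      v = 0 ∧ g = 0 ∧ g' = 0 := fun v g g' => by
    rw [← Sum.elim_zero_zero, Sum.elim_eq_iff, ← Sum.elim_zero_zero, Sum.elim_eq_iff]
  have hXX : ∀ v, X *ᵥ X *ᵥ v = 0 := fun v => by rw [mulVec_mulVec, hX.sq, zero_mulVec]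
  have hYY : ∀ v, Y *ᵥ Y *ᵥ v = 0 := fun v => by rw [mulVec_mulVec, hY.sq, zero_mulVec]
  have hsq : Z ν * Z ν = 0 := Matrix.ext_iff_mulVec.mpr fun t => by
    obtain ⟨v, g, g', rfl⟩ := hsplit t
    rw [← mulVec_mulVec, hmul, hmul, zero_mulVec, hzero, cut_add, hcX, cut_of_mem (hEl g),
      mulVec_add, hXX, hXE, hEY, hYY, mulVec_sub, mulVec_add, mulVec_add, hYa', hYν', hYY]
    exact ⟨by simp, rfl, by abel⟩
  let B : Matrix ι (ι ⊕ κ ⊕ κ) R := fromCols (parProj R p true) (fromCols 0 E)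
  have hB : ∀ v g g', B *ᵥ Sum.elim v (Sum.elim g g') = cut p true v + E *ᵥ g' := fun v g g' => by
    simp only [B, fromCols_mulVec_sumElim, hP, zero_mulVec, zero_add]
  have hZ : ∀ t, Z ν *ᵥ t = 0 → X *ᵥ B *ᵥ t = 0 := fun t ht => by
    obtain ⟨v, g, g', rfl⟩ := hsplit t
    rw [hmul, hzero] at ht
    have := congrArg (E *ᵥ ·) ht.2.2
    simp only [mulVec_sub, mulVec_add, hEa', hEν', hEY, mulVec_zero] at this
    rw [hB, mulVec_add, hXE]
    simpa using this
  have hi : ∀ t, Z ν *ᵥ t = 0 → (∃ u', X *ᵥ u' = B *ᵥ t) → ∃ u, Z ν *ᵥ u = t := by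
    rintro t ht ⟨u', hu'⟩
    obtain ⟨v, g, g', rfl⟩ := hsplit t
    rw [hmul, hzero] at ht
    obtain ⟨h₁, h₂, h₃⟩ := ht
    rw [hB] at hu'
    have e₁ := congrArg (cut p true) hu'
    have e₂ := congrArg (cut p false) hu'
    have e₃ := congrArg (cut p true) h₁
    rw [hcX, cut_add, hcc, cut_of_ne (hEl g') (by simp), add_zero, Bool.not_true] at e₁
    rw [hcX, cut_add, hft, cut_of_mem (hEl g'), zero_add, Bool.not_false] at e₂
    rw [cut_add, hcX, cut_of_ne (hEl g) (by simp), add_zero, cut_zero, Bool.not_true, hcc] at e₃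
    rw [e₃, zero_add] at h₁
    obtain ⟨g₁, hg₁⟩ := hex g h₂ h₁
    obtain ⟨g₂, hg₂, hg₂'⟩ := hsj _ g₁ (cut_mem p false v) e₃
    have e₄ : cut p false (cut p false u' - cut p true u') = cut p false u' := by
      rw [cut_sub, hcc, hft, sub_zero]
    have e₅ : cut p true (cut p false u' - cut p true u') = -cut p true u' := by
      rw [cut_sub, hcc, htf, zero_sub]
    have e₆ : Y *ᵥ (g₁ + g₂) = g := by rw [mulVec_add, hg₁, hg₂, add_zero]
    obtain ⟨g₄, hg₄⟩ := hex (a *ᵥ (cut p false u' - cut p true u') + ν *ᵥ (g₁ + g₂) - g')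
      (by rw [mulVec_sub, mulVec_add, hYa', hYν', e₄, e₁, hg₂', e₆, ← add_assoc, ← mulVec_add,
        htf', h₃])
      (by rw [mulVec_sub, mulVec_add, hEa', hEν', e₅, mulVec_neg, e₂]; simp)
    refine ⟨Sum.elim (cut p false u' - cut p true u') (Sum.elim (g₁ + g₂) g₄), ?_⟩
    rw [hmul, e₄, e₁, hg₂', htf', e₆, hg₄, sub_sub_cancel]
  have hZo := oddM_of_deg hdeg
  have hZx : Cx x (fun i => (w i).bodd) (Z ν) := Cx.mk' hZo hsq fun j => by
    obtain ⟨N, hN⟩ := hX.killed j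
    obtain ⟨L, hL⟩ := nh_of_graded hdeg hsq (x j ^ N) fun m t _ ht =>
      hi _ (by rw [mulVec_smul, ht, smul_zero]) (by rw [mulVec_smul]; exact hN _ (hZ t ht))
    exact ⟨N * L, by rwa [pow_mul]⟩
  refine ⟨w, Z ν, hdeg, hZx, ?_, ?_⟩
  · have key := hb_equiv hZo ho B (by
      rw [hpar]
      rintro i (j | j | j) hij
      · change parProj R p true i j = 0
        exact diagonal_apply_ne _ (by rintro rfl; simp at hij)
      · rfl
      · by_contra h
        simp [hEd i j h] at hij) hZ (fun t => by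
      obtain ⟨v, g, g', rfl⟩ := hsplit t
      refine ⟨cut p false v - cut p true v, ?_⟩
      rw [hmul, hB, cut_add, hcX, cut_of_ne (hEl g) (by simp), mulVec_sub E, mulVec_add, hEa', hEν',
        hEY, Bool.not_true, hcc, mulVec_sub]
      abel) hi fun v hv => by
      have e₁ : ∀ b, X *ᵥ cut p b v = 0 := fun b => by
        have := hcX (!b) v
        rw [hv, cut_zero, Bool.not_not] at this
        exact this.symm
      obtain ⟨g₅, hg₅⟩ := hex (a *ᵥ cut p true v) (by rw [hYa', hft]; simp)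
        (by rw [hEa', hcc, e₁, neg_zero])
      obtain ⟨g₂, hg₂, hg₂'⟩ := hsj _ g₅ (cut_mem p false v) (e₁ false)
      refine ⟨Sum.elim (cut p true v) (Sum.elim 0 (g₅ + g₂)), 0, ?_, ?_⟩
      · rw [hmul, hzero, hft, mulVec_add Y, hg₅, hg₂]
        simp
      · rw [hB, hcc, hg₂', htf', sub_self, mulVec_zero]
    rw [chi, chi, (key false).some.length_eq, (key true).some.length_eq]
  have hαd : ∀ i j, (1 + ν) i j ≠ 0 → (wt i).bodd = (wt j).bodd := fun i j hij => by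
    by_cases h : ν i j = 0
    · rw [Matrix.add_apply, h, add_zero] at hij
      rw [by_contra fun e : ¬i = j => hij (one_apply_ne e)]
    · simp [hνd i j h]
  have hEβ : E * β = E :=
    calc E * β = E * (1 + ν) * β := by rw [Matrix.mul_add, hEν, Matrix.mul_one, add_zero]
      _ = E := by rw [Matrix.mul_assoc, hβ₂, Matrix.mul_one]
  have hY₁ : β * Y * (1 + ν) = Y + β * a * E := by
    rw [Matrix.mul_assoc, Matrix.mul_add, hYν, Matrix.mul_one, add_left_comm,
      show Y + ν * Y = (1 + ν) * Y by rw [Matrix.add_mul, Matrix.one_mul], Matrix.mul_add,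
      ← Matrix.mul_assoc β (1 + ν), hβ₁, Matrix.one_mul, Matrix.mul_assoc, add_comm]
  have hEY' : E * Y = 0 := Matrix.ext_iff_mulVec.mpr fun v => by
    rw [← mulVec_mulVec, hEY, zero_mulVec]
  have hXE' : X * E = 0 := Matrix.ext_iff_mulVec.mpr fun v => by
    rw [← mulVec_mulVec, hXE, zero_mulVec]
  have hPP : X * parProj R p false + X * parProj R p true = X :=
    Matrix.ext_iff_mulVec.mpr fun v => by
      rw [add_mulVec, ← mulVec_mulVec, ← mulVec_mulVec, hP, hP, ← mulVec_add,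
        add_comm, htf']
  let S : Matrix (κ ⊕ κ) (κ ⊕ κ) R := fromBlocks (β * Y * (1 + ν)) 0 (1 + ν) (-Y)
  have hSo : OddM (Sum.elim (fun j => !(wt j).bodd) fun j => (wt j).bodd)
      (Sum.elim (fun j => !(wt j).bodd) fun j => (wt j).bodd) S := by
    refine oddM_blocks (fun i j hij => ?_) (fun _ _ _ => rfl) (fun i j hij => ?_)
      fun i j hij => neg_eq_zero.mpr (oddM_of_deg hY.deg i j hij)
    · by_contra h
      obtain ⟨l, h₁, h₂⟩ := mul_ne_zero_entry h
      obtain ⟨l', h₃, h₄⟩ := mul_ne_zero_entry h₁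
      simp [hβd i l' h₃, ← hαd l j h₂, hY.deg l' l h₄] at hij
    · by_contra h
      simp [hαd i j h] at hij
  have hαβ : ∀ A : Matrix κ κ R, (1 + ν) * (β * A) = A := fun A => by
    rw [← Matrix.mul_assoc, hβ₂, Matrix.one_mul]
  have hSS : S * S = 0 := by
    simp [S, fromBlocks_multiply, Matrix.mul_assoc, hαβ, hY.sq, ← Matrix.mul_assoc Y Y]
  have hSh : S * fromBlocks 0 β 0 0 + fromBlocks 0 β 0 0 * S = 1 := by
    rw [← fromBlocks_one]
    simp [S, fromBlocks_multiply, fromBlocks_add, Matrix.mul_assoc, hβ₁, hβ₂]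
  have hEo : OddM p (Sum.elim (fun j => !(wt j).bodd) fun j => (wt j).bodd) (fromCols E 0) := by
    rintro i (j | j) hij
    · by_contra h
      simp [hEd i j h] at hij
    · rfl
  have hES : X * fromCols E (0 : Matrix ι κ R) + fromCols E (0 : Matrix ι κ R) * S = 0 := by
    rw [mul_fromCols, fromCols_mul_fromBlocks, ← Matrix.mul_assoc, ← Matrix.mul_assoc, hEβ, hEY',
      hXE']
    simp
  have hS := Cx.of_contr (x := x) hSo hSS hSh
  have hT' := hX.tri hS hEo hES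
  have hTo : OddM (fun i => (w i).bodd) (fun i => (w i).bodd) (Z (1 + ν)) := by
    rw [hpar] at hZo ⊢
    rintro (i | i | i) (j | j | j) hij
    any_goals exact hZo _ _ hij
    by_contra h
    simp [hαd i j h] at hij
  have hU : ∀ n : Matrix (κ ⊕ κ) ι R, fromBlocks 1 0 n 1 * fromBlocks 1 0 (-n) 1 =
      (1 : Matrix (ι ⊕ κ ⊕ κ) (ι ⊕ κ ⊕ κ) R) := fun n => by
    simp [fromBlocks_multiply]
  have hU' := hU (-fromRows (β * a) 0)
  rw [neg_neg] at hU'
  have hTU : fromBlocks X (fromCols E 0) 0 S * fromBlocks 1 0 (fromRows (β * a) 0) 1 =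
      fromBlocks 1 0 (fromRows (β * a) 0) 1 * Z (1 + ν) := by
    have e₁ : X + E * (β * a) = X * parProj R p false := by
      rw [← Matrix.mul_assoc, hEβ, hEa, ← sub_eq_add_neg, sub_eq_iff_eq_add, hPP]
    have e₂ : β * Y * (1 + ν) * (β * a) = β * a * (X * parProj R p false) := by
      rw [Matrix.mul_assoc, ← Matrix.mul_assoc (1 + ν), hβ₂, Matrix.one_mul, Matrix.mul_assoc, hYa,
        Matrix.mul_assoc]
    have e₃ : (1 + ν) * (β * a) = a := by rw [← Matrix.mul_assoc, hβ₂, Matrix.one_mul]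
    simp only [Z, S, fromBlocks_multiply, Matrix.mul_one, Matrix.one_mul, Matrix.mul_zero,
      Matrix.zero_mul, add_zero, zero_add, fromCols_mul_fromRows, fromBlocks_mul_fromRows,
      fromRows_mul, e₁, e₂, e₃]
    congr 1
    · ext (i | i) j <;> simp
    · rw [hY₁, mul_fromCols]
      ext (i | i) (j | j) <;> simp [add_comm]
  have hT : Cx x (fun i => (w i).bodd) (Z (1 + ν)) := hT'.conj hTo (hU _) hU' hTU
  rw [← hρ.pert _ _ _ _ 1 w le_rfl hT hZx hdeg (by
    rintro (i | i | i) (j | j | j) hij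
    any_goals exact absurd rfl hij
    have : i = j := by_contra fun e => hij (by simp [Z, one_apply_ne e])
    simp [w, this]), ← hρ.iso hT' hT (by
    simp only [fun i => congrFun hpar i]
    rintro (i | i | i) (j | j | j) hij
    any_goals rfl
    any_goals exact one_apply_ne (by rintro ⟨rfl⟩; simp at hij)
    · by_contra h
      obtain ⟨l, h₁, h₂⟩ := mul_ne_zero_entry h
      rcases h' : p j <;> simp [hβd i l h₁, had l j h₂, h'] at hij) (hU _) hU' hTU,
    hρ.tri hX hS hEo hES, hρ.contr' hSo hSS hSh, add_zero]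

end

section

variable {R : Type} [CommRing R] [IsRegularLocalRing R] {D : ℕ} {x : Fin D → R} {Q : Type}
  [AddCommGroup Q] {ρ : ∀ (ι : Type) [Fintype ι] [DecidableEq ι], (ι → Bool) → Matrix ι ι R → Q}

/-- The index theorem. -/
theorem IsIdx.exists_eq_chi (hρ : IsIdx x ρ) (hx : Ideal.span (Set.range x) = maximalIdeal R) :
    ∃ r : Q, ∀ (ι : Type) [Fintype ι] [DecidableEq ι] (p : ι → Bool) (X : Matrix ι ι R),
      Cx x p X → ρ ι p X = chi p X • r := by
  obtain ⟨-, n, -, hn, -⟩ := exists_params R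
  obtain ⟨κ, _, _, w₀, K, ε₀, hK⟩ := exists_fres n _ (pd_of_regularLocal n hn.le (R ⧸ maximalIdeal R))
  refine ⟨ρ κ (fun j => (w₀ j).bodd) K, fun ι _ _ p X hX => ?_⟩
  obtain ⟨γ, _, _, wt, Y, ε, hY⟩ := exists_fres n _ (pd_of_regularLocal n hn.le (Zb p X false))
  obtain ⟨w, Z, h₁, h₂, h₃, h₄⟩ := hρ.unfold hX hY
  obtain ⟨m, hm⟩ := ENat.ne_top_iff_exists.mp
    (WithTop.add_ne_top.mpr ⟨h₂.length_ne_top hx false, h₂.length_ne_top hx true⟩)
  rw [← h₃, ← h₄]
  exact hρ.graded hx hK m _ w Z h₁ h₂ hm.symm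

/-- If the index function is not torsion on one complex, linear relations between its values are
relations between Euler characteristics. -/
theorem IsIdx.chi_rel (hρ : IsIdx x ρ) (hx : Ideal.span (Set.range x) = maximalIdeal R)
    {μ : Type} [Fintype μ] [DecidableEq μ] {p₀ : μ → Bool} {K : Matrix μ μ R} (hK : Cx x p₀ K)
    (hK' : ∀ m : ℤ, m • ρ μ p₀ K = 0 → m = 0) {ι κ : Type} [Fintype ι] [DecidableEq ι] [Fintype κ]
    [DecidableEq κ] {p : ι → Bool} {X : Matrix ι ι R} {p' : κ → Bool} {X' : Matrix κ κ R}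
    (h : Cx x p X) (h' : Cx x p' X') {a b : ℤ} (e : a • ρ ι p X = b • ρ κ p' X') :
    a * chi p X = b * chi p' X' := by
  obtain ⟨r, hr⟩ := hρ.exists_eq_chi hx
  rw [hr _ _ _ h, hr _ _ _ h', smul_smul, smul_smul, ← sub_eq_zero, ← sub_smul] at e
  exact sub_eq_zero.mp (hK' _ (by rw [hr _ _ _ hK, smul_comm, e, smul_zero]))

end

theorem IsObj.cx_tens {R ι κ : Type} [CommRing R] [Fintype ι] [DecidableEq ι] [Fintype κ]
    [DecidableEq κ] {D N : ℕ} {x : Fin D → R} {f : R} {p : ι → Bool} {p' : κ → Bool}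
    {E : Matrix ι ι R} {F : Matrix κ κ R} (hE : IsObj x N f p E) (hF : IsObj x N (-f) p' F) :
    Cx x (tpar p p') (tens p E F) := by
  refine Cx.mk' (tens_odd hE.odd hF.odd) (by rw [tens_sq hE.odd hE.sq hF.sq]; simp) fun j => ?_
  obtain ⟨g, hg, hg'⟩ := hE.supp
  refine ⟨N, kroneckerMap (· * ·) (g j) 1, ?_⟩
  simp only [tens, Matrix.add_mul, Matrix.mul_add, ← mul_kronecker_mul, Matrix.one_mul,
    Matrix.mul_one]
  rw [add_add_add_comm, ← add_kronecker, ← add_kronecker, hg', add_comm (SM R p * g j),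
    SM_anti (hg j), zero_kronecker, add_zero, smul_kronecker, one_kronecker_one]

/-- The theorem on matrix factorizations follows from an index function, which may depend on the
two factorizations, with the product formula. -/
theorem MFAt_of_idx {R : Type} [CommRing R] [IsRegularLocalRing R] {D : ℕ} {x : Fin D → R}
    (hx : Ideal.span (Set.range x) = maximalIdeal R)
    (H : ∀ (N : ℕ) (f : R) (ι₁ ι₂ : Type) [Fintype ι₁] [DecidableEq ι₁] [Fintype ι₂]
      [DecidableEq ι₂] (p₁ : ι₁ → Bool) (p₂ : ι₂ → Bool) (E : Matrix ι₁ ι₁ R) (F : Matrix ι₂ ι₂ R),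
      IsObj x N f p₁ E → IsObj x N (-f) p₂ F → 0 < D →
      ∃ (Q : Type) (_ : AddCommGroup Q)
        (ρ : ∀ (ι : Type) [Fintype ι] [DecidableEq ι], (ι → Bool) → Matrix ι ι R → Q)
        (μ : Type) (_ : Fintype μ) (_ : DecidableEq μ) (p₀ : μ → Bool) (K : Matrix μ μ R),
        IsIdx x ρ ∧ Cx x p₀ K ∧ (∀ m : ℤ, m • ρ μ p₀ K = 0 → m = 0) ∧
        (Odd D → ρ _ (tpar p₁ p₂) (tens p₁ E F) = 0) ∧
        (Even D → ρ _ (tpar (fun i => !p₁ i) p₂) (tens (fun i => !p₁ i) Eᵀ F) =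
          (-(-1) ^ (D / 2) : ℤ) • ρ _ (tpar p₁ p₂) (tens p₁ E F))) : MFAt R x := by
  intro N f ι₁ ι₂ _ _ _ _ p₁ p₂ E F hE hF
  have h₁ := hE.cx_tens hF
  have h₂ := hE.transpose.cx_tens hF
  refine ⟨fun hD => ?_, fun hD h0 => ?_⟩
  · obtain ⟨Q, _, ρ, μ, _, _, p₀, K, hρ, hK, hK', h, -⟩ := H N f _ _ p₁ p₂ E F hE hF hD.pos
    simpa using hρ.chi_rel hx hK hK' h₁ h₁ (a := 1) (b := 0) (by rw [h hD]; simp)
  · obtain ⟨Q, _, ρ, μ, _, _, p₀, K, hρ, hK, hK', -, h⟩ := H N f _ _ p₁ p₂ E F hE hF h0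
    exact (one_mul _).symm.trans (hρ.chi_rel hx hK hK' h₂ h₁ (a := 1) (by rw [h hD, one_smul]))

end Pool.Agent.P.MP_f43029_ag
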