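import Pool.Agent.P.MP_f43029_ag.Bridge
import Pool.Agent.P.MP_f43029_ag.CAFin
import Pool.Agent.P.MP_f43029_ag.CACohen

/-!
Reduction of the duality for the theta function, for every local hypersurface, to the theorem on
matrix factorizations over a complete regular local ring of positive residue characteristic.
-/

set_option autoImplicit false

namespace Pool.Agent.P.MP_f43029_ag

open Matrix IsLocalRing TensorProduct RingTheory.Sequence CategoryTheory

/-- The theorem on matrix factorizations over the ring `R` with the parameters `x`. -/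
def MFAt (R : Type) [CommRing R] {D : ℕ} (x : Fin D → R) : Prop :=
  ∀ (N : ℕ) (f : R) (ι₁ ι₂ : Type) [Fintype ι₁] [DecidableEq ι₁] [Fintype ι₂] [DecidableEq ι₂]
    (p₁ : ι₁ → Bool) (p₂ : ι₂ → Bool) (E : Matrix ι₁ ι₁ R) (F : Matrix ι₂ ι₂ R),
    IsObj x N f p₁ E → IsObj x N (-f) p₂ F →
    (Odd D → chi (tpar p₁ p₂) (tens p₁ E F) = 0) ∧
    (Even D → 0 < D → chi (tpar (fun i => !p₁ i) p₂) (tens (fun i => !p₁ i) Eᵀ F) =
      -(-1) ^ (D / 2) * chi (tpar p₁ p₂) (tens p₁ E F))

/-- The theorem on matrix factorizations over every complete regular local ring of positive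
residue characteristic. -/
def MFMixed : Prop :=
  ∀ (p : ℕ) [Fact p.Prime] (R : Type) [CommRing R] [IsRegularLocalRing R]
    [IsAdicComplete (maximalIdeal R) R] (D : ℕ) (x : Fin D → R), ringKrullDim R = D →
    Ideal.span (Set.range x) = maximalIdeal R → (p : R) ∈ maximalIdeal R → MFAt R x

theorem exists_params (R : Type) [CommRing R] [IsRegularLocalRing R] :
    IsDomain R ∧ ∃ (D : ℕ) (x : Fin D → R), ringKrullDim R = D ∧
      Ideal.span (Set.range x) = maximalIdeal R := by
  obtain ⟨s, hs, hm⟩ := Submodule.FG.exists_span_finset_card_eq_spanFinrank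
    (IsNoetherian.noetherian (maximalIdeal R))
  have hd := IsRegularLocalRing.spanFinrank_maximalIdeal (R := R)
  refine ⟨(regseq_of_gens s.card R s le_rfl hm (by rw [hs, hd])).1, s.card,
    fun i => (s.equivFin.symm i : R), by rw [hs, hd], ?_⟩
  rw [← hm]
  congr 1
  ext y
  exact ⟨fun ⟨i, hi⟩ => hi ▸ (s.equivFin.symm i).2,
    fun hy => ⟨s.equivFin ⟨y, hy⟩, by simp⟩⟩

theorem pd_of_mcm' {R : Type} [CommRing R] [IsRegularLocalRing R] {D : ℕ}
    (hD : ringKrullDim R = D) (L : Type) [AddCommGroup L] [Module R L] [Module.Finite R L]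
    (rs : List R) (reg : IsWeaklyRegular L rs)
    (hmem : ∀ r ∈ rs, r ∈ maximalIdeal R) (hlen : rs.length + 1 = D) :
    HasProjectiveDimensionLT (ModuleCat.of R L) 2 := by
  rcases subsingleton_or_nontrivial L with h | h
  · have : Limits.IsZero (ModuleCat.of R L) := ModuleCat.isZero_of_subsingleton _
    have := this.hasProjectiveDimensionLT_zero
    exact hasProjectiveDimensionLT_of_ge _ 0 _ (Nat.zero_le _)
  · have h1 := ModuleCat.projectiveDimension_quotient_eq_add_length_of_isWeaklyRegular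
      (ModuleCat.of R L) rs reg hmem
    have h2 := (projectiveDimension_le_iff _ _).mpr
      (pd_of_regularLocal D hD.le (L ⧸ Ideal.ofList rs • (⊤ : Submodule R L)))
    rw [h1] at h2
    refine (projectiveDimension_le_iff _ 1).mp ?_
    refine (ENat.WithBot.add_le_add_natCast_right_iff (c := rs.length)).mp (h2.trans ?_)
    rw [← Nat.cast_add]
    exact_mod_cast (by omega)

section

variable {A B R : Type} [CommRing A] [CommRing B] [CommRing R] [IsLocalRing A] [IsLocalRing B]
  [IsRegularLocalRing R] [IsNoetherianRing A] [IsNoetherianRing B] [Algebra A B] [Module.Flat A B]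
  {D : ℕ} [Algebra R B] {f : R} {x : Fin D → R}

theorem dim_succ' (hD : ringKrullDim R = D) (hf : f ≠ 0)
    (hm : (maximalIdeal A).map (algebraMap A B) = maximalIdeal B)
    (hs : Function.Surjective (algebraMap R B)) (hk : ∀ y, algebraMap R B y = 0 ↔ f ∣ y) :
    ringKrullDim A + 1 = D := by
  have := (exists_params R).1
  have h1 : RingHom.ker (algebraMap R B) = Ideal.span {f} := by
    ext y
    rw [RingHom.mem_ker, hk, Ideal.mem_span_singleton]
  have hfm : f ∈ maximalIdeal R := by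
    intro hu
    have := hu.map (algebraMap R B)
    rw [(hk f).mpr dvd_rfl] at this
    exact not_isUnit_zero this
  rw [dim_eq_of_flat hm, ← ringKrullDim_eq_of_ringEquiv (RingHom.quotientKerEquivOfSurjective hs),
    h1, ringKrullDim_quotient_span_singleton_succ_eq_ringKrullDim_of_mem_nonZeroDivisors
      (mem_nonZeroDivisors_of_ne_zero hf) hfm, hD]

theorem mcm_data' (hD : ringKrullDim R = D) (hx : ∀ j, x j ∈ maximalIdeal R) (hf : f ≠ 0)
    (hm : (maximalIdeal A).map (algebraMap A B) = maximalIdeal B)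
    (hs : Function.Surjective (algebraMap R B)) (hk : ∀ y, algebraMap R B y = 0 ↔ f ∣ y)
    (hiso : ∀ (p : Ideal A) [p.IsPrime], p ≠ maximalIdeal A →
      IsRegularLocalRing (Localization.AtPrime p))
    (M : Type) [AddCommGroup M] [Module A M] (hM : IsMCM A M) :
    ∃ (r : ℕ) (a b : Matrix (Fin r) (Fin r) R) (q : (Fin r → B) →ₗ[B] B ⊗[A] M) (N : ℕ),
      a * b = f • (1 : Matrix (Fin r) (Fin r) R) ∧ b * a = f • (1 : Matrix (Fin r) (Fin r) R) ∧
      Function.Surjective q ∧ Function.Exact (a.map (algebraMap R B)).mulVecLin q ∧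
      ∀ j, ∃ p p' : Matrix (Fin r) (Fin r) R,
        a * p' + p * b = x j ^ N • (1 : Matrix (Fin r) (Fin r) R) ∧
        b * p + p' * a = x j ^ N • (1 : Matrix (Fin r) (Fin r) R) := by
  have := (exists_params R).1
  obtain ⟨hfin, rs, hlen, hmem, hreg⟩ := hM
  obtain ⟨Y, _, _, _, _, ⟨φ⟩⟩ := exists_model R B (B ⊗[A] M)
  have : Module.Finite B Y := Module.Finite.equiv φ
  have : Module.Finite R B := Module.Finite.of_surjective (Algebra.linearMap R B) hs
  have : Module.Finite R Y := Module.Finite.trans B Y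
  obtain ⟨rs', hrs'⟩ := List.map_surjective_iff.mpr hs (rs.map (algebraMap A B))
  have hreg' : IsWeaklyRegular Y rs' := by
    rw [← isWeaklyRegular_map_algebraMap_iff B, hrs', ← φ.isWeaklyRegular_congr]
    exact IsWeaklyRegular.of_flat_of_isBaseChange (TensorProduct.isBaseChange A M B) hreg
  have hmem' : ∀ y ∈ rs', y ∈ maximalIdeal R := by
    intro y hy hu
    have h1 : algebraMap R B y ∈ rs.map (algebraMap A B) := hrs' ▸ List.mem_map_of_mem hy
    obtain ⟨z, hz, h2⟩ := List.mem_map.mp h1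
    have h3 : algebraMap A B z ∈ maximalIdeal B := hm ▸ Ideal.mem_map_of_mem _ (hmem z hz)
    rw [h2] at h3
    exact h3 (hu.map _)
  have hD' := dim_succ' hD hf hm hs hk
  have hlen' : rs'.length + 1 = D := by
    have h1 := congrArg List.length hrs'
    rw [List.length_map, List.length_map] at h1
    rw [← hlen, ← h1] at hD'
    exact_mod_cast hD'
  obtain ⟨r, a, b, q, hab, hba, hq, hker⟩ := exists_mf_of_pd f hf Y
    (fun y => by rw [← algebraMap_smul B, (hk f).mpr dvd_rfl, zero_smul])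
    (pd_of_mcm' hD Y rs' hreg' hmem' hlen')
  obtain ⟨q', -, hq', hex⟩ := cover_toB hs q hq hker
  have hq'' : Function.Surjective (φ.symm.toLinearMap ∘ₗ q') := φ.symm.surjective.comp hq'
  have hex' : Function.Exact (a.map (algebraMap R B)).mulVecLin
      (φ.symm.toLinearMap ∘ₗ q') := LinearEquiv.postcomp_exact_iff_exact.mpr hex
  obtain ⟨N, hN⟩ := exists_pow_extAnn_of_isolated B (2 * rs.length)
    (by rw [← hlen]; exact_mod_cast (by omega)) hiso M
  refine ⟨r, a, b, _, N, hab, hba, hq'', hex', fun j => ?_⟩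
  refine homotopy_of_extAnn hf hs hk hab hba _ hq'' hex' rs.length (hN _ ?_)
  rw [Ideal.map_pow, hm, map_pow]
  refine Ideal.pow_mem_pow ?_ N
  rw [← map_maximalIdeal_of_surjective _ hs]
  exact Ideal.mem_map_of_mem _ (hx j)

theorem core' (H : MFAt R x) (hD : ringKrullDim R = D) (hx : ∀ j, x j ∈ maximalIdeal R)
    (hD₀ : 0 < D) (hf : f ≠ 0) (hm : (maximalIdeal A).map (algebraMap A B) = maximalIdeal B)
    (hs : Function.Surjective (algebraMap R B)) (hk : ∀ y, algebraMap R B y = 0 ↔ f ∣ y)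
    (hiso : ∀ (p : Ideal A) [p.IsPrime], p ≠ maximalIdeal A →
      IsRegularLocalRing (Localization.AtPrime p))
    (M N : ModuleCat.{0} A) (hM : IsMCM A M) (hN : IsMCM A N) :
    (Even D → theta A M N + (-1) ^ (D / 2) * theta A (ModuleCat.of A (Module.Dual A M)) N = 0) ∧
    (Odd D → theta A M N = 0 ∧ theta A (ModuleCat.of A (Module.Dual A M)) N = 0) := by
  have := (exists_params R).1
  obtain ⟨r, a, b, q, N₁, hab, hba, hq, hex, h₁⟩ := mcm_data' hD hx hf hm hs hk hiso M hM
  obtain ⟨n, c, e, ρ, N₂, hce, hec, hρ, hρc, h₂⟩ := mcm_data' hD hx hf hm hs hk hiso N hN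
  have hE := (blocks_obj hab hba h₁).mono (le_max_left N₁ N₂)
  have hF := (blocks_obj (f := -f) (a := c) (b := -e) (N := N₂) (x := x)
    (by rw [Matrix.mul_neg, hce, neg_smul]) (by rw [Matrix.neg_mul, hec, neg_smul]) (fun j => by
      obtain ⟨p, p', h₃, h₄⟩ := h₂ j
      exact ⟨-p, p', by rw [neg_mul_neg, h₃], by rw [neg_mul_neg, h₄]⟩)).mono (le_max_right N₁ N₂)
  have hab' : aᵀ * bᵀ = f • (1 : Matrix (Fin r) (Fin r) R) := by
    rw [← transpose_mul, hba, transpose_smul, transpose_one]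
  have hba' : bᵀ * aᵀ = f • (1 : Matrix (Fin r) (Fin r) R) := by
    rw [← transpose_mul, hab, transpose_smul, transpose_one]
  obtain ⟨q', hq', hex'⟩ := dual_cover (exact_bar hf hs hk hba hab)
    (exact_bar hf hs hk hba' hab') (exact_bar hf hs hk hab' hba') q hq hex
  have := hM.1
  have : Module.FinitePresentation A M := Module.finitePresentation_of_finite A M
  let ψ : B ⊗[A] Module.Dual A M ≃ₗ[B] Module.Dual B (B ⊗[A] M) :=
    (Module.FinitePresentation.isBaseChange_map A M A B).equiv ≪≫ₗ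
      LinearEquiv.congrRight (AlgebraTensorModule.rid A B B)
  have t₁ := (theta_eq_chi hf hm hs hk M N hab hba hce hec q hq hex ρ hρ hρc).1
  have t₂ := (theta_eq_chi hf hm hs hk (ModuleCat.of A (Module.Dual A M)) N hab' hba' hce hec
    (ψ.symm.toLinearMap ∘ₗ q') (ψ.symm.surjective.comp hq')
    (LinearEquiv.postcomp_exact_iff_exact.mpr hex') ρ hρ hρc).2
  have hT : (fromBlocks 0 a b 0)ᵀ = fromBlocks 0 bᵀ aᵀ 0 := by
    rw [fromBlocks_transpose, transpose_zero]
  rw [← hT] at t₂
  rw [t₁, t₂]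
  refine ⟨fun hD => ?_, fun hD => ⟨(H _ f _ _ _ _ _ _ hE hF).1 hD,
    (H _ f _ _ _ _ _ _ hE.transpose hF).1 hD⟩⟩
  rw [(H _ f _ _ _ _ _ _ hE hF).2 hD hD₀, ← mul_assoc, mul_neg, ← mul_pow]
  simp

end

section

variable (A : Type) [CommRing A] [IsLocalRing A] [IsNoetherianRing A] {R : Type} [CommRing R]
  [IsRegularLocalRing R] {f : R}

theorem tor_finite' (hf : f ≠ 0) (φ₀ : AdicCompletion (maximalIdeal A) A ≃+* R ⧸ Ideal.span {f})
    (hiso : ∀ (p : Ideal A) [p.IsPrime], p ≠ maximalIdeal A →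
      IsRegularLocalRing (Localization.AtPrime p))
    (X N : ModuleCat.{0} A) [Module.Finite A X] (hN : IsMCM A N) :
    Module.length A (((Tor (ModuleCat.{0} A) 1).obj X).obj N) ≠ ⊤ ∧
      Module.length A (((Tor (ModuleCat.{0} A) 2).obj X).obj N) ≠ ⊤ := by
  obtain ⟨_, D, x, hD, hx⟩ := exists_params R
  let B := AdicCompletion (maximalIdeal A) A
  let : Algebra R B := (φ₀.symm.toRingHom.comp (Ideal.Quotient.mk _)).toAlgebra
  have : IsNoetherianRing B := isNoetherianRing_of_ringEquiv _ φ₀.symm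
  have hs : Function.Surjective (algebraMap R B) :=
    φ₀.symm.surjective.comp Ideal.Quotient.mk_surjective
  have hk : ∀ y, algebraMap R B y = 0 ↔ f ∣ y := fun y => by
    change φ₀.symm (Ideal.Quotient.mk _ y) = 0 ↔ _
    rw [map_eq_zero_iff _ φ₀.symm.injective, Ideal.Quotient.eq_zero_iff_mem,
      Ideal.mem_span_singleton]
  have hm := (AdicCompletion.maximalIdeal_eq_map (R := A)).symm
  obtain ⟨n, c, e, ρ, N₂, hce, hec, hρ, hρc, h₂⟩ := mcm_data' (x := x) hD
    (fun j => hx ▸ Ideal.subset_span ⟨j, rfl⟩) hf hm hs hk hiso N hN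
  obtain ⟨Y, _, _, _, _, ⟨φ⟩⟩ := exists_model R B (B ⊗[A] X)
  have : Module.Finite B Y := Module.Finite.equiv φ
  have : Module.Finite R B := Module.Finite.of_surjective (Algebra.linearMap R B) hs
  have : Module.Finite R Y := Module.Finite.trans B Y
  obtain ⟨t₁, t₂⟩ := length_tor hm hs X N c e ρ ⟨inferInstance, inferInstance, inferInstance,
    inferInstance, hρ, hρc, exact_bar hf hs hk hce hec, exact_bar hf hs hk hec hce⟩ Y φ
  have key : ∀ (H : Type) [AddCommGroup H] [Module R H] [Module.Finite R H],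
      (∀ j, ∀ y : H, x j ^ N₂ • y = 0) → Module.length R H ≠ ⊤ := by
    intro H _ _ _ h
    refine length_ne_top_of_killed H (Module.annihilator R H) ?_
      fun y hy => Module.mem_annihilator.mp hy
    rw [← hx, Ideal.span_le]
    rintro _ ⟨j, rfl⟩
    exact ⟨N₂, Module.mem_annihilator.mpr (h j)⟩
  rw [t₁, t₂]
  refine ⟨key _ fun j y => ?_, key _ fun j y => ?_⟩
  · obtain ⟨p, p', -, h⟩ := h₂ j
    exact hml_killed h y
  · obtain ⟨p, p', h, -⟩ := h₂ j
    exact hml_killed h y

theorem main_of_MFAt {D : ℕ} {x : Fin D → R} (H : MFAt R x) (hD : ringKrullDim R = D)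
    (hx : ∀ j, x j ∈ maximalIdeal R) (hf : f ≠ 0)
    (e : AdicCompletion (maximalIdeal A) A ≃+* R ⧸ Ideal.span {f})
    (hiso : ∀ (p : Ideal A) [p.IsPrime], p ≠ maximalIdeal A →
      IsRegularLocalRing (Localization.AtPrime p))
    (d : ℕ) (hd : ringKrullDim A = d) (M N : ModuleCat.{0} A) (hM : IsMCM A M) (hN : IsMCM A N) :
    (Odd d →
      theta A M N + (-1) ^ ((d + 1) / 2) * theta A (ModuleCat.of A (Module.Dual A M)) N = 0) ∧
    (Even d → theta A M N = 0 ∧ theta A (ModuleCat.of A (Module.Dual A M)) N = 0) := by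
  let : Algebra R (AdicCompletion (maximalIdeal A) A) :=
    (e.symm.toRingHom.comp (Ideal.Quotient.mk _)).toAlgebra
  have : IsNoetherianRing (AdicCompletion (maximalIdeal A) A) :=
    isNoetherianRing_of_ringEquiv _ e.symm
  have hs : Function.Surjective (algebraMap R (AdicCompletion (maximalIdeal A) A)) :=
    e.symm.surjective.comp Ideal.Quotient.mk_surjective
  have hk : ∀ y, algebraMap R (AdicCompletion (maximalIdeal A) A) y = 0 ↔ f ∣ y := fun y => by
    change e.symm (Ideal.Quotient.mk _ y) = 0 ↔ _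
    rw [map_eq_zero_iff _ e.symm.injective, Ideal.Quotient.eq_zero_iff_mem,
      Ideal.mem_span_singleton]
  have hm := (AdicCompletion.maximalIdeal_eq_map (R := A)).symm
  have hD' := dim_succ' hD hf hm hs hk
  rw [hd] at hD'
  obtain rfl : d + 1 = D := by exact_mod_cast hD'
  obtain ⟨h₁, h₂⟩ := core' H hD hx (Nat.succ_pos d) hf hm hs hk hiso M N hM hN
  exact ⟨fun h => h₁ h.add_one, fun h => h₂ h.add_one⟩

end

/-- The full duality statement follows from the theorem on matrix factorizations in positive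
residue characteristic. -/
theorem full_of_MFMixed (H : MFMixed) (A : Type) [CommRing A] [IsLocalRing A] [IsNoetherianRing A]
    (hA : ∃ (R : Type) (_ : CommRing R) (_ : IsRegularLocalRing R)
      (_ : IsAdicComplete (maximalIdeal R) R) (f : R), f ≠ 0 ∧ f ∈ maximalIdeal R ∧
      Nonempty (AdicCompletion (maximalIdeal A) A ≃+* R ⧸ Ideal.span {f}))
    (hiso : ∀ (p : Ideal A) [p.IsPrime], p ≠ maximalIdeal A →
      IsRegularLocalRing (Localization.AtPrime p))
    (d : ℕ) (hd : ringKrullDim A = d) (M N : ModuleCat.{0} A) (hM : IsMCM A M) (hN : IsMCM A N) :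
    ∃ a₁ a₂ b₁ b₂ : ℕ,
      Module.length A (((Tor (ModuleCat.{0} A) 1).obj M).obj N) = a₁ ∧
      Module.length A (((Tor (ModuleCat.{0} A) 2).obj M).obj N) = a₂ ∧
      Module.length A
        (((Tor (ModuleCat.{0} A) 1).obj (ModuleCat.of A (Module.Dual A M))).obj N) = b₁ ∧
      Module.length A
        (((Tor (ModuleCat.{0} A) 2).obj (ModuleCat.of A (Module.Dual A M))).obj N) = b₂ ∧
      (Odd d → ((a₂ : ℤ) - a₁) + (-1) ^ ((d + 1) / 2) * ((b₂ : ℤ) - b₁) = 0) ∧
      (Even d → (a₂ : ℤ) - a₁ = 0 ∧ (b₂ : ℤ) - b₁ = 0) := by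
  obtain ⟨R, _, _, _, f, hf, hfm, ⟨e⟩⟩ := hA
  have := hM.1
  have : Module.Finite A (ModuleCat.of A (Module.Dual A M)) :=
    ⟨(isNoetherian_linearMap A A M).noetherian ⊤⟩
  obtain ⟨h₁, h₂⟩ := tor_finite' A hf e hiso M N hN
  obtain ⟨h₃, h₄⟩ := tor_finite' A hf e hiso (ModuleCat.of A (Module.Dual A M)) N hN
  refine ⟨_, _, _, _, (ENat.natCast_toNat h₁).symm, (ENat.natCast_toNat h₂).symm,
    (ENat.natCast_toNat h₃).symm, (ENat.natCast_toNat h₄).symm, ?_⟩
  obtain ⟨p, hp⟩ := CharP.exists (ResidueField R)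
  rcases CharP.char_is_prime_or_zero (ResidueField R) p with h | rfl
  · have := Fact.mk h
    obtain ⟨-, D, x, hD, hx⟩ := exists_params R
    have hpm : (p : R) ∈ maximalIdeal R := by
      rw [← residue_eq_zero_iff, map_natCast, CharP.cast_eq_zero]
    exact main_of_MFAt A (H p R D x hD hx hpm) hD (fun j => hx ▸ Ideal.subset_span ⟨j, rfl⟩) hf e
      hiso d hd M N hM hN
  · have := CharP.charP_to_charZero (ResidueField R)
    have hu : ∀ y : nonZeroDivisors ℤ, IsUnit (Int.castRingHom R y) := fun y => by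
      rw [← notMem_maximalIdeal, ← residue_eq_zero_iff, eq_intCast, map_intCast]
      exact Int.cast_ne_zero.mpr (nonZeroDivisors.coe_ne_zero y)
    let : Algebra ℚ (AdicCompletion (maximalIdeal A) A) :=
      ((e.symm.toRingHom.comp (Ideal.Quotient.mk _)).comp (IsLocalization.lift hu)).toAlgebra
    exact main_of_MFThm mfThm A (cohen ℚ (AdicCompletion (maximalIdeal A) A) R f hf hfm e) hiso d
      hd M N hM hN

end Pool.Agent.P.MP_f43029_ag
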