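import Pool.Agent.P.MP_f43029_ag.Mx.Index

/-!
The rings `W(k)[[x]] / (p - g)` are regular, and the index theorem for index functions whose
formal properties only hold eventually along a filter of contexts.
-/

set_option autoImplicit false

namespace Pool.Agent.P.MP_f43029_ag

open IsLocalRing Matrix Filter

theorem dim_add_le_mvPowerSeries (R : Type) [CommRing R] :
    ∀ D : ℕ, ringKrullDim R + D ≤ ringKrullDim (MvPowerSeries (Fin D) R)
  | 0 => by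
    rw [Nat.cast_zero, add_zero]
    exact (ringKrullDim_eq_of_ringEquiv (MvPowerSeries.isEmptyEquiv (Fin 0) R).toRingEquiv).ge
  | D + 1 => by
    rw [ringKrullDim_eq_of_ringEquiv (MvPowerSeries.finSuccEquiv R D).toRingEquiv, Nat.cast_succ,
      ← add_assoc]
    refine le_trans ?_ ringKrullDim_succ_le_ringKrullDim_powerseries
    gcongr
    exact dim_add_le_mvPowerSeries R D

theorem regular_RW {p : ℕ} [Fact p.Prime] {k : Type} [Field k] [CharP k p] [PerfectRing k p]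
    {D : ℕ} {g : SW p k D} (hg : MvPowerSeries.constantCoeff g = 0) :
    IsRegularLocalRing (RW g) := by
  have := isLocalRing_RW hg
  refine IsRegularLocalRing.of_spanFinrank_maximalIdeal_le _ ?_
  have h1 := Submodule.spanFinrank_span_le_ncard_of_finite (R := RW g) (Set.finite_range (xW g))
  have h2 : (Set.range (xW g)).ncard ≤ D := by
    rw [← Set.image_univ]
    exact (Set.ncard_image_le Set.finite_univ).trans (by simp [Set.ncard_univ])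
  have h3 := dim_add_le_mvPowerSeries (WittVector p k) D
  have h4 := ringKrullDim_le_ringKrullDim_quotient_add_encard (R := SW p k D)
    {(p : SW p k D) - g} (by
      rintro _ rfl
      rw [IsLocalRing.ringJacobson_eq_maximalIdeal]
      intro h
      have h5 := MvPowerSeries.isUnit_iff_constantCoeff.mp h
      rw [map_sub, hg, sub_zero, map_natCast] at h5
      exact (WittVector.irreducible p).not_isUnit h5)
  rw [IsDiscreteValuationRing.ringKrullDim_eq_one] at h3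
  have h6 := h3.trans h4
  rw [Set.encard_singleton, add_comm] at h6
  have h7 : (D : WithBot ℕ∞) ≤ ringKrullDim (RW g) := by
    obtain ⟨n, hn⟩ := WithBot.ne_bot_iff_exists.mp (ringKrullDim_ne_bot (R := RW g))
    rw [← hn] at h6 ⊢
    norm_cast at h6 ⊢
    exact (ENat.add_le_add_iff_right ENat.one_ne_top).mp (by exact_mod_cast h6)
  rw [← span_xW hg]
  exact le_trans (by exact_mod_cast h1.trans h2) h7

/-- The formal properties of an index function, eventually along a filter of contexts. -/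
structure IsIdxF {R : Type} [CommRing R] {D : ℕ} (x : Fin D → R) {C : Type} (𝓕 : Filter C)
    (Θ : C → ∀ (ι : Type) [Fintype ι] [DecidableEq ι], (ι → Bool) → Matrix ι ι R → ℚ) : Prop where
  sum : ∀ (ι κ : Type) [Fintype ι] [DecidableEq ι] [Fintype κ] [DecidableEq κ] (p : ι → Bool)
    (X : Matrix ι ι R) (p' : κ → Bool) (X' : Matrix κ κ R), Cx x p X → Cx x p' X' →
    ∀ᶠ c in 𝓕, Θ c (ι ⊕ κ) (Sum.elim p p') (fromBlocks X 0 0 X') = Θ c ι p X + Θ c κ p' X'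
  contr : ∀ (ι : Type) [Fintype ι] [DecidableEq ι] (p : ι → Bool) (X h : Matrix ι ι R),
    OddM p p X → X * X = 0 → OddM p p h → X * h + h * X = 1 → ∀ᶠ c in 𝓕, Θ c ι p X = 0
  pert : ∀ (ι : Type) [Fintype ι] [DecidableEq ι] (p : ι → Bool) (X X₀ : Matrix ι ι R) (s : ℕ)
    (wt : ι → ℕ), s ≤ 1 → Cx x p X → Cx x p X₀ → (∀ i j, X₀ i j ≠ 0 → wt j = wt i + s) →
    (∀ i j, X i j ≠ X₀ i j → wt i + s < wt j) → ∀ᶠ c in 𝓕, Θ c ι p X = Θ c ι p X₀

theorem IsIdxF.isIdx {R : Type} [CommRing R] {D : ℕ} {x : Fin D → R} {C : Type} {𝓕 : Filter C}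
    {Θ : C → ∀ (ι : Type) [Fintype ι] [DecidableEq ι], (ι → Bool) → Matrix ι ι R → ℚ}
    (h : IsIdxF x 𝓕 Θ) : IsIdx x fun ι _ _ p X => ((fun c => Θ c ι p X : C → ℚ) : Germ 𝓕 ℚ) where
  sum ι κ _ _ _ _ p X p' X' h₁ h₂ := Germ.coe_eq.mpr (h.sum ι κ p X p' X' h₁ h₂)
  contr ι _ _ p X g h₁ h₂ h₃ h₄ := Germ.coe_eq.mpr (h.contr ι p X g h₁ h₂ h₃ h₄)
  pert ι _ _ p X X₀ s wt h₁ h₂ h₃ h₄ h₅ := Germ.coe_eq.mpr (h.pert ι p X X₀ s wt h₁ h₂ h₃ h₄ h₅)

/-- What the analytic side has to deliver for one pair of matrix factorizations. -/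
def IdxFor {R : Type} [CommRing R] {D : ℕ} (x : Fin D → R) {ι₁ ι₂ : Type} [Fintype ι₁]
    [DecidableEq ι₁] [Fintype ι₂] [DecidableEq ι₂] (p₁ : ι₁ → Bool) (p₂ : ι₂ → Bool)
    (E : Matrix ι₁ ι₁ R) (F : Matrix ι₂ ι₂ R) : Prop :=
  ∃ (C : Type) (𝓕 : Filter C) (_ : 𝓕.NeBot)
    (Θ : C → ∀ (ι : Type) [Fintype ι] [DecidableEq ι], (ι → Bool) → Matrix ι ι R → ℚ)
    (μ : Type) (_ : Fintype μ) (_ : DecidableEq μ) (p₀ : μ → Bool) (K : Matrix μ μ R),
    IsIdxF x 𝓕 Θ ∧ Cx x p₀ K ∧ (∀ᶠ c in 𝓕, Θ c μ p₀ K ≠ 0) ∧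
    (Odd D → ∀ᶠ c in 𝓕, Θ c _ (tpar p₁ p₂) (tens p₁ E F) = 0) ∧
    (Even D → ∀ᶠ c in 𝓕, Θ c _ (tpar (fun i => !p₁ i) p₂) (tens (fun i => !p₁ i) Eᵀ F) =
      -(-1) ^ (D / 2) * Θ c _ (tpar p₁ p₂) (tens p₁ E F))

theorem MFAt_of_idxFor {R : Type} [CommRing R] [IsRegularLocalRing R] {D : ℕ} {x : Fin D → R}
    (hx : Ideal.span (Set.range x) = maximalIdeal R)
    (H : ∀ (N : ℕ) (f : R) (ι₁ ι₂ : Type) [Fintype ι₁] [DecidableEq ι₁] [Fintype ι₂]
      [DecidableEq ι₂] (p₁ : ι₁ → Bool) (p₂ : ι₂ → Bool) (E : Matrix ι₁ ι₁ R) (F : Matrix ι₂ ι₂ R),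
      IsObj x N f p₁ E → IsObj x N (-f) p₂ F → 0 < D → IdxFor x p₁ p₂ E F) : MFAt R x := by
  refine MFAt_of_idx hx fun N f ι₁ ι₂ _ _ _ _ p₁ p₂ E F hE hF hD => ?_
  obtain ⟨C, 𝓕, _, Θ, μ, _, _, p₀, K, h₁, h₂, h₃, h₄, h₅⟩ := H N f ι₁ ι₂ p₁ p₂ E F hE hF hD
  refine ⟨Germ 𝓕 ℚ, inferInstance, _, μ, inferInstance, inferInstance, p₀, K, h₁.isIdx, h₂,
    fun m hm => ?_, fun h => Germ.coe_eq.mpr (h₄ h), fun h => Germ.coe_eq.mpr ?_⟩
  · obtain ⟨c, hc, hc'⟩ := (h₃.and (Germ.coe_eq.mp hm)).exists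
    exact (smul_eq_zero.mp hc').resolve_right hc
  · filter_upwards [h₅ h] with c hc
    rw [hc]
    simp

/-- The statement that the analytic side proves. -/
def IdxW : Prop :=
  ∀ (p : ℕ) [Fact p.Prime] (k : Type) [Field k] [IsAlgClosed k] [CharP k p] (D : ℕ)
    (g : SW p k D), MvPowerSeries.constantCoeff g = 0 → 0 < D →
    ∀ (N : ℕ) (f : RW g) (ι₁ ι₂ : Type) [Fintype ι₁] [DecidableEq ι₁] [Fintype ι₂]
      [DecidableEq ι₂] (p₁ : ι₁ → Bool) (p₂ : ι₂ → Bool) (E : Matrix ι₁ ι₁ (RW g))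
      (F : Matrix ι₂ ι₂ (RW g)), IsObj (xW g) N f p₁ E → IsObj (xW g) N (-f) p₂ F →
      IdxFor (xW g) p₁ p₂ E F

theorem MFW_of_IdxW (H : IdxW) : MFW := by
  intro p _ k _ _ _ D g hg
  have := regular_RW hg
  exact MFAt_of_idxFor (span_xW hg) fun N f ι₁ ι₂ _ _ _ _ p₁ p₂ E F hE hF hD =>
    H p k D g hg hD N f ι₁ ι₂ p₁ p₂ E F hE hF

end Pool.Agent.P.MP_f43029_ag
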