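import Pool.Agent.P.MP_f43029_ag.Mx.Reduce
import Pool.Agent.P.MP_f43029_ag.Mx.Gonfle

/-!
A regular local ring of residue characteristic `p` has a flat unramified local map to a ring
`W(k)[[x]] / (p - g)` with `k` algebraically closed, and Euler characteristics are preserved.
-/

set_option autoImplicit false

namespace Pool.Agent.P.MP_f43029_ag

open IsLocalRing Matrix TensorProduct

theorem exists_witt_lift (p : ℕ) [hp : Fact p.Prime] {C K : Type} [CommRing C] [CommRing K]
    [CharP K p] [PerfectRing K p] (π : C →+* K) (hπ : Function.Surjective π)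
    [IsAdicComplete (RingHom.ker π) C] :
    ∃ θ : WittVector p K →+* C, ∀ w, π (θ w) = w.coeff 0 := by
  have hpJ : (p : C) ∈ RingHom.ker π := by rw [RingHom.mem_ker, map_natCast, CharP.cast_eq_zero]
  have hker : ∀ n, RingHom.ker (WittVector.map (p := p) π) ≤
      RingHom.ker ((Ideal.Quotient.mk (RingHom.ker π ^ (n + 1))).comp
        (WittVector.ghostComponent (p := p) n)) := by
    intro n x hx
    rw [RingHom.mem_ker, WittVector.map_eq_zero_iff] at hx
    rw [RingHom.mem_ker, RingHom.comp_apply, Ideal.Quotient.eq_zero_iff_mem,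
      WittVector.ghostComponent_apply, aeval_wittPolynomial]
    refine Ideal.sum_mem _ fun i hi => ?_
    have h1 := Ideal.mul_mem_mul (Ideal.pow_mem_pow hpJ i)
      (Ideal.pow_mem_pow (show x.coeff i ∈ RingHom.ker π from hx i) (p ^ (n - i)))
    rw [← pow_add] at h1
    refine Ideal.pow_le_pow_right ?_ h1
    have := Nat.lt_pow_self (n := n - i) hp.out.one_lt
    have := Finset.mem_range.mp hi
    omega
  let gh : ∀ n, WittVector p K →+* C ⧸ RingHom.ker π ^ (n + 1) := fun n =>
    RingHom.liftOfSurjective (WittVector.map π) (WittVector.map_surjective _ hπ) ⟨_, hker n⟩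
  have hgh : ∀ n y, gh n (WittVector.map π y) =
      Ideal.Quotient.mk _ (WittVector.ghostComponent n y) := fun n y =>
    RingHom.liftOfSurjective_comp_apply ..
  let f : ∀ n, WittVector p K →+* C ⧸ RingHom.ker π ^ (n + 1) := fun n =>
    (gh n).comp (WittVector.map ((iterateFrobeniusEquiv K p n).symm : K →+* K))
  have hf : ∀ n x c, π c ^ p ^ n = x →
      f n (WittVector.teichmuller p x) = Ideal.Quotient.mk _ (c ^ p ^ n) := by
    intro n x c hc
    have h1 : ((iterateFrobeniusEquiv K p n).symm : K →+* K) x = π c := by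
      rw [RingHom.coe_coe, RingEquiv.symm_apply_eq, iterateFrobeniusEquiv_def, hc]
    change gh n (WittVector.map _ _) = _
    rw [WittVector.map_teichmuller, h1, ← WittVector.map_teichmuller, hgh,
      WittVector.ghostComponent_teichmuller]
  have hmono : StrictMono fun n : ℕ => n + 1 := fun _ _ h => Nat.succ_lt_succ h
  have hcomp : ∀ {n}, (Ideal.Quotient.factorPow (RingHom.ker π)
      (hmono.monotone n.le_succ)).comp (f (n + 1)) = f n := by
    intro n
    refine WittVector.eq_of_apply_teichmuller_eq _ _ ⟨n + 1, ?_⟩ fun x => ?_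
    · rw [← map_natCast (Ideal.Quotient.mk _), ← map_pow, Ideal.Quotient.eq_zero_iff_mem]
      exact Ideal.pow_mem_pow hpJ _
    · obtain ⟨c, hc⟩ := hπ ((iterateFrobeniusEquiv K p (n + 1)).symm x)
      have h1 : π c ^ p ^ (n + 1) = x := by
        rw [hc, ← iterateFrobeniusEquiv_def, RingEquiv.apply_symm_apply]
      change Ideal.Quotient.factorPow _ (Nat.le_succ _) (f (n + 1) _) = _
      rw [hf _ x c h1, hf n x (c ^ p) (by rw [map_pow, ← pow_mul, ← pow_succ', h1]),
        ← pow_mul, ← pow_succ']
      rfl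
  refine ⟨IsAdicComplete.StrictMono.liftRingHom _ hmono f hcomp, fun w => ?_⟩
  have h1 := IsAdicComplete.StrictMono.mk_liftRingHom _ hmono f hcomp (n := 0) w
  obtain ⟨y, hy⟩ := WittVector.map_surjective (p := p) π hπ
    (WittVector.map ((iterateFrobeniusEquiv K p 0).symm : K →+* K) w)
  have h2 : f 0 w = Ideal.Quotient.mk _ (WittVector.ghostComponent 0 y) := by
    rw [← hgh, hy]; rfl
  replace h1 := Ideal.Quotient.eq.mp (h1.trans h2)
  rw [zero_add, pow_one, RingHom.mem_ker, map_sub, sub_eq_zero] at h1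
  have h3 := congrArg (fun z => z.coeff 0) hy
  simp only [WittVector.map_coeff, RingHom.coe_coe] at h3
  rw [h1, WittVector.ghostComponent_apply, aeval_wittPolynomial]
  simp only [zero_add, Finset.range_one, Finset.sum_singleton, pow_zero, tsub_self, pow_one,
    one_mul]
  rw [h3, RingEquiv.symm_apply_eq, iterateFrobeniusEquiv_def, pow_zero, pow_one]

theorem flat_of_approx {R B C : Type} [CommRing R] [CommRing B] [CommRing C] [IsNoetherianRing R]
    [IsNoetherianRing C] [Algebra R B] [Algebra R C] [Module.Flat R B] (ι : B →ₐ[R] C)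
    (I : Ideal R) (hI : I.map (algebraMap R C) ≤ Ideal.jacobson ⊥)
    (ha : ∀ n y, ∃ z, y - ι z ∈ (I ^ n).map (algebraMap R C))
    (hb : ∀ n z, ι z ∈ (I ^ n).map (algebraMap R C) → z ∈ (I ^ n).map (algebraMap R B)) :
    Module.Flat R C := by
  classical
  refine Module.Flat.of_forall_isTrivialRelation fun {l a y} hy => ?_
  let φ : (Fin l → R) →ₗ[R] R := Fintype.linearCombination R a
  let N : Submodule C (Fin l → C) :=
    Submodule.span C ((fun z i => algebraMap R C (z i)) '' (LinearMap.ker φ : Set (Fin l → R)))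
  suffices h : y ∈ N by
    obtain ⟨n, c, g, hg⟩ := Submodule.mem_span_set'.mp h
    choose z hz hz' using fun j => (g j).2
    refine ⟨n, fun i j => z j i, c, fun i => ?_, fun j => ?_⟩
    · rw [← hg, Finset.sum_apply]
      refine Finset.sum_congr rfl fun j _ => ?_
      rw [← hz', Pi.smul_apply, smul_eq_mul, Algebra.smul_def, mul_comm]
    · have : φ (z j) = 0 := hz j
      simpa [φ, Fintype.linearCombination_apply, mul_comm] using this
  obtain ⟨k, hk⟩ := Ideal.exists_pow_inf_eq_pow_smul I (LinearMap.range φ)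
  have := IsHausdorff.of_le_jacobson (I.map (algebraMap R C)) ((Fin l → C) ⧸ N) hI
  rw [← Submodule.Quotient.mk_eq_zero]
  refine IsHausdorff.haus this _ fun n => ?_
  rw [SModEq.zero]
  let T : Submodule C ((Fin l → C) ⧸ N) := I.map (algebraMap R C) ^ n • ⊤
  have hT : ∀ v : Fin l → C, (∀ i, v i ∈ (I ^ n).map (algebraMap R C)) → N.mkQ v ∈ T := by
    intro v hv
    rw [← Finset.univ_sum_single v, map_sum]
    refine T.sum_mem fun i _ => ?_
    have : Pi.single i (v i) = v i • (Pi.single i 1 : Fin l → C) := by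
      rw [← Pi.single_smul, smul_eq_mul, mul_one]
    rw [this, map_smul]
    exact Submodule.smul_mem_smul (Ideal.map_pow (algebraMap R C) I n ▸ hv i) trivial
  choose z hz using fun i => ha (n + k) (y i)
  have h1 : ∑ i, a i • z i ∈ (I ^ (n + k)).map (algebraMap R B) := by
    refine hb _ _ ?_
    have : ι (∑ i, a i • z i) = -∑ i, a i • (y i - ι (z i)) := by
      simp [smul_sub, Finset.sum_sub_distrib, hy]
    rw [this, Ideal.neg_mem_iff]
    exact Ideal.sum_mem _ fun i _ => by
      rw [Algebra.smul_def]; exact Ideal.mul_mem_left _ _ (hz i)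
  obtain ⟨m, c, g, hg⟩ := Submodule.mem_span_set'.mp h1
  choose u hu hu' using fun j => (g j).2
  obtain ⟨q, e, w, he, he'⟩ := Module.Flat.isTrivialRelation_of_sum_smul_eq_zero (R := R)
    (f := Sum.elim a fun j => -u j) (x := Sum.elim z c) (by
      rw [Fintype.sum_sum_type]
      simp only [Sum.elim_inl, Sum.elim_inr, neg_smul, Finset.sum_neg_distrib]
      rw [← hg, add_neg_eq_zero]
      exact Finset.sum_congr rfl fun j _ => by
        rw [← hu', smul_eq_mul, Algebra.smul_def, mul_comm])
  have h2 : ∀ j, N.mkQ (fun i => algebraMap R C (e (Sum.inl i) j)) ∈ T := by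
    intro j
    have h3 : φ (fun i => e (Sum.inl i) j) ∈ I ^ (n + k) • (⊤ : Submodule R R) := by
      have h4 := he' j
      rw [Fintype.sum_sum_type] at h4
      simp only [Sum.elim_inl, Sum.elim_inr, neg_mul, Finset.sum_neg_distrib,
        add_neg_eq_zero] at h4
      have h5 : φ (fun i => e (Sum.inl i) j) = ∑ i, u i * e (Sum.inr i) j := by
        rw [← h4]; simp [φ, Fintype.linearCombination_apply, mul_comm]
      rw [h5, smul_eq_mul, Ideal.mul_top]
      exact Ideal.sum_mem _ fun i _ => Ideal.mul_mem_right _ _ (hu i)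
    have h6 : φ (fun i => e (Sum.inl i) j) ∈ (I ^ n • (⊤ : Submodule R (Fin l → R))).map φ := by
      have h7 := (hk (n + k) (by omega)).le ⟨h3, LinearMap.mem_range_self φ _⟩
      rw [Nat.add_sub_cancel] at h7
      rw [Submodule.map_smul'', Submodule.map_top]
      exact Submodule.smul_mono le_rfl inf_le_right h7
    obtain ⟨s, hs, hs'⟩ := h6
    have h8 : (fun i => algebraMap R C (e (Sum.inl i) j)) =
        (fun i => algebraMap R C (((fun i => e (Sum.inl i) j) - s) i)) +
          fun i => algebraMap R C (s i) := by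
      ext i; simp
    rw [h8, map_add, (Submodule.Quotient.mk_eq_zero N).mpr (Submodule.subset_span
      ⟨_, by rw [SetLike.mem_coe, LinearMap.mem_ker, map_sub, hs', sub_self], rfl⟩) |>.trans
        rfl |> (N.mkQ_apply _).trans, zero_add]
    refine hT _ fun i => Ideal.mem_map_of_mem _ ?_
    have h9 := Submodule.mem_map_of_mem (f := LinearMap.proj (R := R) (φ := fun _ => R) i) hs
    rw [Submodule.map_smul''] at h9
    exact (Submodule.smul_le.mpr fun r hr x _ => Ideal.mul_mem_right _ _ hr) h9
  have h10 : y = (fun i => y i - ι (z i)) +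
      ∑ j, ι (w j) • fun i => algebraMap R C (e (Sum.inl i) j) := by
    ext i
    have := he (Sum.inl i)
    simp only [Sum.elim_inl] at this
    rw [Pi.add_apply, Finset.sum_apply, this, map_sum]
    simp [Algebra.smul_def, mul_comm]
  change N.mkQ y ∈ T
  rw [h10, map_add, map_sum]
  refine T.add_mem (hT _ fun i => Ideal.map_mono (Ideal.pow_le_pow_right (by omega)) (hz i))
    (T.sum_mem fun j _ => ?_)
  rw [map_smul]
  exact T.smul_mem _ (h2 j)

theorem exists_pow_map {W C : Type} [CommRing W] [CommRing C] (J : Ideal C) [IsAdicComplete J C]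
    (θ : W →+* C) {n : ℕ} (x : Fin n → C) (hx : ∀ i, x i ∈ J) :
    ∃ φ : MvPowerSeries (Fin n) W →+* C, (∀ i, φ (MvPowerSeries.X i) = x i) ∧
      ∀ a, φ (MvPowerSeries.C a) = θ a := by
  let P := MvPolynomial (Fin n) W
  let : Algebra P C := (MvPolynomial.eval₂Hom θ x).toAlgebra
  have hle : MvPolynomial.idealOfVars (Fin n) W ≤ J.comap (algebraMap P C) := by
    rw [MvPolynomial.idealOfVars, Ideal.span_le]
    rintro _ ⟨i, rfl⟩
    change MvPolynomial.eval₂Hom θ x (MvPolynomial.X i) ∈ J
    rw [MvPolynomial.eval₂Hom_X']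
    exact hx i
  have hle' : ∀ m, MvPolynomial.idealOfVars (Fin n) W ^ m ≤ (J ^ m).comap (Algebra.ofId P C) :=
    fun m => (Ideal.pow_right_mono hle m).trans (Ideal.le_comap_pow _ m)
  let φ : MvPowerSeries (Fin n) W →ₐ[P] C :=
    IsAdicComplete.liftAlgHom J (fun m => (Ideal.quotientMapₐ _ (Algebra.ofId P C) (hle' m)).comp
        (MvPowerSeries.truncTotalAlgHom (Fin n) W m)) (fun {l m} h => by
      ext q
      change Ideal.Quotient.mk _ (algebraMap P C (q.truncTotal m)) =
        Ideal.Quotient.mk _ (algebraMap P C (q.truncTotal l))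
      rw [Ideal.Quotient.eq, ← map_sub]
      exact hle' l (MvPowerSeries.truncTotal_sub_truncTotal_mem_pow_idealOfVars h le_rfl q))
  refine ⟨φ.toRingHom, fun i => ?_, fun a => ?_⟩
  · have := φ.commutes (MvPolynomial.X i)
    rw [← MvPolynomial.coe_X]
    exact this.trans (MvPolynomial.eval₂Hom_X' _ _ _)
  · have := φ.commutes (MvPolynomial.C a)
    rw [← MvPolynomial.coe_C]
    exact this.trans (MvPolynomial.eval₂Hom_C _ _ _)

/-- The ring `W(k)[[x_1, ..., x_D]]`. -/
abbrev SW (p : ℕ) [Fact p.Prime] (k : Type) [CommRing k] (D : ℕ) : Type :=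
  MvPowerSeries (Fin D) (WittVector p k)

/-- The ring `W(k)[[x_1, ..., x_D]] / (p - g)`. -/
abbrev RW {p : ℕ} [Fact p.Prime] {k : Type} [CommRing k] {D : ℕ} (g : SW p k D) : Type :=
  SW p k D ⧸ Ideal.span {(p : SW p k D) - g}

/-- The parameters of `W(k)[[x_1, ..., x_D]] / (p - g)`. -/
noncomputable def xW {p : ℕ} [Fact p.Prime] {k : Type} [CommRing k] {D : ℕ} (g : SW p k D)
    (j : Fin D) : RW g :=
  Ideal.Quotient.mk _ (MvPowerSeries.X j)

section

variable {p : ℕ} [Fact p.Prime] {k : Type} [Field k] [CharP k p] [PerfectRing k p] {D : ℕ}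
  {g : SW p k D}

theorem mem_span_xW (hg : MvPowerSeries.constantCoeff g = 0) (s : SW p k D) :
    Ideal.Quotient.mk _ s ∈ Ideal.span (Set.range (xW g)) ↔
      (MvPowerSeries.constantCoeff s).coeff 0 = 0 := by
  have h1 : Ideal.span (Set.range (xW g)) =
      (Ideal.span (Set.range MvPowerSeries.X)).map (Ideal.Quotient.mk _) := by
    rw [Ideal.map_span, ← Set.range_comp]; rfl
  rw [h1]
  constructor
  · intro h
    rw [Ideal.mem_quotient_iff_mem_sup] at h
    let ρ : SW p k D →+* k := WittVector.constantCoeff.comp MvPowerSeries.constantCoeff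
    refine (sup_le (Ideal.span_le.mpr ?_) (Ideal.span_le.mpr ?_) : _ ≤ RingHom.ker ρ) h
    · rintro _ ⟨j, rfl⟩
      simp [ρ]
    · rintro _ rfl
      simp [ρ, hg]
  · intro h
    obtain ⟨b, hb⟩ := Ideal.mem_span_singleton'.mp
      ((WittVector.mem_span_p_iff_coeff_zero_eq_zero _).mpr h)
    have h2 : Ideal.Quotient.mk (Ideal.span {(p : SW p k D) - g}) s = Ideal.Quotient.mk _
        (s - MvPowerSeries.C b * ((p : SW p k D) - g)) := by
      rw [Ideal.Quotient.eq, sub_sub_cancel]
      exact Ideal.mul_mem_left _ _ (Ideal.mem_span_singleton_self _)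
    rw [h2]
    exact Ideal.mem_map_of_mem _ (mem_span_X D _ (by simp [hg, hb]))

theorem isLocalRing_RW (hg : MvPowerSeries.constantCoeff g = 0) : IsLocalRing (RW g) := by
  have : Nontrivial (RW g) := ⟨1, 0, fun h => by
    have := (mem_span_xW hg 1).mp (by rw [map_one, h]; exact zero_mem _)
    simp at this⟩
  exact IsLocalRing.of_surjective' (Ideal.Quotient.mk _) Ideal.Quotient.mk_surjective

theorem span_xW (hg : MvPowerSeries.constantCoeff g = 0) [IsLocalRing (RW g)] :
    Ideal.span (Set.range (xW g)) = maximalIdeal (RW g) := by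
  refine le_antisymm (le_maximalIdeal fun h => ?_) fun y hy => ?_
  · have := (mem_span_xW hg 1).mp (by rw [h]; trivial)
    simp at this
  · obtain ⟨s, rfl⟩ := Ideal.Quotient.mk_surjective y
    rw [mem_span_xW hg]
    by_contra h
    exact hy ((MvPowerSeries.isUnit_iff_constantCoeff.mpr
      (WittVector.isUnit_of_coeff_zero_ne_zero _ h)).map _)

end

theorem dim_le_of_span {S : Type} [CommRing S] [IsLocalRing S] [IsNoetherianRing S] {D : ℕ}
    (x : Fin D → S) (hx : Ideal.span (Set.range x) = maximalIdeal S) : ringKrullDim S ≤ D := by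
  refine (ringKrullDim_le_spanFinrank_maximalIdeal _).trans ?_
  have h1 := Submodule.spanFinrank_span_le_ncard_of_finite (R := S) (Set.finite_range x)
  have h2 : (Set.range x).ncard ≤ D := by
    rw [← Set.image_univ]
    exact (Set.ncard_image_le Set.finite_univ).trans (by simp [Set.ncard_univ])
  rw [← hx]
  exact_mod_cast h1.trans h2

theorem exists_witt_model (p : ℕ) [Fact p.Prime] (R : Type) [CommRing R] [IsRegularLocalRing R]
    {D : ℕ} (x : Fin D → R) (hD : ringKrullDim R = D)
    (hx : Ideal.span (Set.range x) = maximalIdeal R) (hp : (p : R) ∈ maximalIdeal R) :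
    ∃ (k : Type) (_ : Field k) (_ : IsAlgClosed k) (_ : CharP k p) (g : SW p k D)
      (_ : Algebra R (RW g)), MvPowerSeries.constantCoeff g = 0 ∧ Module.Flat R (RW g) ∧
      ∀ i, algebraMap R (RW g) (x i) = xW g i := by
  classical
  have := (exists_params R).1
  obtain ⟨B, _, _, K, _, π, hflat, hK, hπ, hker⟩ := exists_gonflement R
  have : CharP K p := (CharP.charP_iff_prime_eq_zero Fact.out).mpr (by
    rw [← map_natCast π, ← map_natCast (algebraMap R B), ← RingHom.mem_ker, hker]
    exact Ideal.mem_map_of_mem _ hp)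
  let J := (maximalIdeal R).map (algebraMap R B)
  have hJ : J.FG := Ideal.FG.map (IsNoetherian.noetherian _) _
  let C := AdicCompletion J B
  have hJC : ∀ n, (J ^ n).map (algebraMap B C) = (maximalIdeal R ^ n).map (algebraMap R C) := by
    intro n
    rw [← Ideal.map_pow, Ideal.map_map]; rfl
  have hev : ∀ n (y : C), y ∈ (maximalIdeal R ^ n).map (algebraMap R C) ↔
      AdicCompletion.eval J B n y = 0 := by
    intro n y
    rw [← LinearMap.mem_ker, ← AdicCompletion.pow_smul_top_eq_ker_eval hJ, ← hJC,
      Ideal.smul_top_eq_map]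
    rfl
  let π' : C →+* K := (RingHom.quotientKerEquivOfSurjective hπ).toRingHom.comp
    ((Ideal.quotEquivOfEq hker.symm).toRingHom.comp (AdicCompletion.evalOneₐ J).toRingHom)
  have hπ' : Function.Surjective π' := (RingHom.quotientKerEquivOfSurjective hπ).surjective.comp
    ((Ideal.quotEquivOfEq hker.symm).surjective.comp (AdicCompletion.evalOneₐ_surjective J))
  have hker' : RingHom.ker π' = (maximalIdeal R).map (algebraMap R C) := by
    rw [← pow_one (maximalIdeal R), ← hJC, pow_one, ← AdicCompletion.ker_evalOneₐ_eq_map J hJ]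
    ext y
    simp only [π', RingHom.mem_ker, RingHom.comp_apply, RingEquiv.toRingHom_eq_coe,
      RingHom.coe_coe, EmbeddingLike.map_eq_zero_iff]
  have hcomp : IsAdicComplete (RingHom.ker π') C := by
    rw [hker', ← pow_one (maximalIdeal R), ← hJC, pow_one]
    exact AdicCompletion.isAdicComplete_self J hJ
  obtain ⟨θ, hθ⟩ := exists_witt_lift p π' hπ'
  obtain ⟨ψ, hψX, hψC⟩ := exists_pow_map (RingHom.ker π') θ (fun i => algebraMap R C (x i))
    fun i => hker' ▸ Ideal.mem_map_of_mem _ (hx ▸ Ideal.subset_span ⟨i, rfl⟩)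
  have hmap : (Ideal.span (Set.range MvPowerSeries.X)).map ψ = RingHom.ker π' := by
    rw [hker', ← hx, Ideal.map_span, Ideal.map_span, ← Set.range_comp, ← Set.range_comp]
    congr 2
    exact funext hψX
  have hψ : Function.Surjective ψ := by
    refine surjective_of_mk_map_comp_surjective (I := Ideal.span (Set.range MvPowerSeries.X)) _
      (haus := by rw [hmap]; infer_instance) fun y => ?_
    obtain ⟨y, rfl⟩ := Ideal.Quotient.mk_surjective y
    refine ⟨MvPowerSeries.C (WittVector.teichmuller p (π' y)), Ideal.Quotient.eq.mpr ?_⟩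
    rw [hmap, RingHom.mem_ker, map_sub, hψC, hθ, WittVector.teichmuller_coeff_zero, sub_self]
  have : IsNoetherianRing C := isNoetherianRing_of_surjective _ _ ψ hψ
  have hmax : (RingHom.ker π').IsMaximal := RingHom.ker_isMaximal_of_surjective _ hπ'
  have : IsLocalRing C := isLocalRing_of_isAdicComplete_maximal (RingHom.ker π')
  have hm : (maximalIdeal R).map (algebraMap R C) = maximalIdeal C := by
    rw [← hker']; exact eq_maximalIdeal hmax
  have : Module.Flat R C := by
    refine flat_of_approx (IsScalarTower.toAlgHom R B C) (maximalIdeal R)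
      (by rw [hm]; exact maximalIdeal_le_jacobson _) (fun n y => ?_) fun n z hz => ?_
    · obtain ⟨z, hz⟩ := Submodule.Quotient.mk_surjective _ (AdicCompletion.eval J B n y)
      exact ⟨z, (hev n _).mpr (by rw [map_sub, ← hz]; exact sub_self _)⟩
    · have h1 : z ∈ J ^ n • (⊤ : Submodule B B) :=
        (Submodule.Quotient.mk_eq_zero _).mp ((hev n _).mp hz)
      rwa [smul_eq_mul, Ideal.mul_top, ← Ideal.map_pow] at h1
  obtain ⟨r, hr⟩ := Ideal.mem_span_range_iff_exists_fun.mp (hx ▸ hp : (p : R) ∈ Ideal.span _)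
  choose s hs using fun i => hψ (algebraMap R C (r i))
  let g : SW p K D := ∑ i, s i * MvPowerSeries.X i
  have hg : MvPowerSeries.constantCoeff g = 0 := by simp [g]
  have hψg : ψ ((p : SW p K D) - g) = 0 := by
    rw [map_sub, map_natCast, ← map_natCast (algebraMap R C), ← hr, map_sum, map_sum, sub_eq_zero]
    exact Finset.sum_congr rfl fun i _ => by rw [map_mul, map_mul, hs, hψX]
  let ψ' : RW g →+* C := Ideal.Quotient.lift _ ψ fun a ha => by
    obtain ⟨b, rfl⟩ := Ideal.mem_span_singleton'.mp ha
    rw [map_mul, hψg, mul_zero]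
  have hψ' : Function.Surjective ψ' := Ideal.Quotient.lift_surjective_of_surjective _ _ hψ
  have := isLocalRing_RW hg
  have hdC : ringKrullDim C = D := by rw [← dim_eq_of_flat hm, hD]
  have : IsDomain (RW g) := (regseq_of_gens D (RW g) (Finset.univ.image (xW g))
    (Finset.card_image_le.trans (by simp)) (by rw [← span_xW hg]; simp)
    (hdC ▸ ringKrullDim_le_of_surjective ψ' hψ')).1
  have hinj : Function.Injective ψ' := by
    rw [injective_iff_map_eq_zero]
    intro a ha
    by_contra h
    have h1 := (ringKrullDim_succ_le_of_surjective ψ' hψ' (mem_nonZeroDivisors_of_ne_zero h)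
      ha).trans (dim_le_of_span _ (span_xW hg))
    rw [hdC] at h1
    norm_cast at h1
    omega
  let e := RingEquiv.ofBijective ψ' ⟨hinj, hψ'⟩
  let : Algebra R (RW g) := (e.symm.toRingHom.comp (algebraMap R C)).toAlgebra
  let e' : RW g ≃ₐ[R] C := { e with commutes' := fun a => e.apply_symm_apply _ }
  refine ⟨K, inferInstance, hK, inferInstance, g, inferInstance, hg,
    Module.Flat.of_linearEquiv e'.toLinearEquiv, fun i => e.injective ?_⟩
  exact (e'.commutes _).trans (hψX i).symm

section

variable {R ι : Type} [CommRing R] [Fintype ι] [DecidableEq ι]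

/-- The projection onto the indices of parity `b`. -/
def parProj (R : Type) [CommRing R] {ι : Type} [DecidableEq ι] (p : ι → Bool) (b : Bool) :
    Matrix ι ι R :=
  diagonal fun i => if p i = b then 1 else 0

theorem parProj_mulVec (p : ι → Bool) (b : Bool) (v : ι → R) (i : ι) :
    (parProj R p b *ᵥ v) i = if p i = b then v i else 0 := by
  simp [parProj, mulVec_diagonal]

theorem hb_equiv_hml (p : ι → Bool) (X : Matrix ι ι R) (b : Bool) :
    Nonempty (Hb p X b ≃ₗ[R]
      Hml (X * parProj R p (!b)).mulVecLin (fromRows X (parProj R p (!b))).mulVecLin) := by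
  have hZ : LinearMap.ker (fromRows X (parProj R p (!b))).mulVecLin = Zb p X b := by
    ext v
    rw [LinearMap.mem_ker, mulVecLin_apply, fromRows_mulVec, ← Sum.elim_zero_zero, Sum.elim_eq_iff]
    refine and_congr Iff.rfl ⟨fun h i hi => ?_, fun h => funext fun i => ?_⟩
    · have := congrFun h i
      rwa [parProj_mulVec, if_pos (by cases b <;> simpa using hi)] at this
    · rw [parProj_mulVec]
      split_ifs with hi
      · exact h i (by rw [hi]; cases b <;> simp)
      · rfl
  have hB : LinearMap.range (X * parProj R p (!b)).mulVecLin = Bb p X b := by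
    ext v
    constructor
    · rintro ⟨u, rfl⟩
      exact ⟨parProj R p (!b) *ᵥ u, fun i hi => by rw [parProj_mulVec, if_neg hi], by simp⟩
    · rintro ⟨u, hu, rfl⟩
      refine ⟨u, ?_⟩
      rw [mulVecLin_apply, ← mulVec_mulVec, mulVecLin_apply]
      congr 1
      ext i
      rw [parProj_mulVec]
      split_ifs with hi
      · rfl
      · exact (hu i hi).symm
  exact sq_equiv LinearMap.id (fun v hv => hZ ▸ hv) (fun v hv => hB ▸ hv) (fun v _ hv => hB ▸ hv)
    (fun v hv => ⟨v, hZ ▸ hv, by simp⟩)

variable {B : Type} [CommRing B] [Algebra R B]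

theorem piScalarRight_baseChange {ι' : Type} [Fintype ι'] [DecidableEq ι'] (c : Matrix ι' ι R)
    (u : B ⊗[R] (ι → R)) : piScalarRight R B B ι' (c.mulVecLin.baseChange B u) =
      (c.map (algebraMap R B)).mulVecLin (piScalarRight R B B ι u) := by
  induction u using TensorProduct.induction_on with
  | zero => simp
  | add x y hx hy => simp only [map_add, hx, hy]
  | tmul x v =>
    ext i
    simp [Matrix.mulVec, dotProduct, Algebra.smul_def, Finset.sum_mul, mul_assoc]

theorem length_hb_map [IsLocalRing R] [IsLocalRing B] [IsLocalHom (algebraMap R B)]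
    [Module.Flat R B] {p : ι → Bool} {X : Matrix ι ι R} (ho : OddM p p X) (hX : X * X = 0)
    (b : Bool) : Module.length B (Hb p (X.map (algebraMap R B)) b) =
      Module.length R (Hb p X b) * Module.length B (B ⧸ (maximalIdeal R).map (algebraMap R B)) := by
  have h0 : (fromRows X (parProj R p (!b))).mulVecLin ∘ₗ (X * parProj R p (!b)).mulVecLin = 0 := by
    rw [← mulVecLin_mul, fromRows_mul, ← Matrix.mul_assoc, hX, Matrix.zero_mul]
    have : parProj R p (!b) * (X * parProj R p (!b)) = 0 := by
      ext i j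
      simp only [parProj, diagonal_mul, mul_diagonal, Matrix.zero_apply]
      split_ifs with hi hj
      · rw [ho i j (hi.trans hj.symm)]; simp
      all_goals simp
    rw [this]
    simp
  have hP : (parProj R p (!b)).map (algebraMap R B) = parProj B p (!b) := by
    rw [parProj, diagonal_map (map_zero _)]
    simp [parProj, apply_ite]
  rw [(hb_equiv_hml p X b).some.length_eq, ← IsLocalRing.length_baseChange,
    (hml_baseChange B _ _ h0).some.length_eq,
    (hml_congr _ _ _ (piScalarRight_baseChange _) (piScalarRight_baseChange _)).some.length_eq,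
    Matrix.map_mul, fromRows_map, hP, (hb_equiv_hml p _ b).some.length_eq]

theorem chi_map [IsLocalRing R] [IsLocalRing B] [IsLocalHom (algebraMap R B)]
    [Module.Flat R B] {e : ℕ}
    (he : Module.length B (B ⧸ (maximalIdeal R).map (algebraMap R B)) = e)
    {p : ι → Bool} {X : Matrix ι ι R} (ho : OddM p p X) (hX : X * X = 0) :
    chi p (X.map (algebraMap R B)) = e * chi p X := by
  rw [chi, chi, length_hb_map ho hX, length_hb_map ho hX, he, ENat.toNat_mul, ENat.toNat_mul,
    ENat.toNat_natCast]
  push_cast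
  ring

omit [Algebra R B] in
theorem IsObj.map (φ : R →+* B) {D N q : ℕ} {x : Fin D → R} {y : Fin D → B}
    (hxy : ∀ j, φ (x j) = y j ^ q) {f : R} {p : ι → Bool} {X : Matrix ι ι R}
    (h : IsObj x N f p X) : IsObj y (q * N) (φ f) p (X.map φ) := by
  obtain ⟨h₁, h₂, g, h₃, h₄⟩ := h
  have hs : ∀ c : R, (c • (1 : Matrix ι ι R)).map φ = φ c • (1 : Matrix ι ι B) := fun c => by
    ext i j
    by_cases hij : i = j <;> simp [hij]
  refine ⟨fun i j hij => by simp [h₁ i j hij], by rw [← Matrix.map_mul, h₂, hs],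
    fun j => (g j).map φ, fun j i i' hi => by simp [h₃ j i i' hi], fun j => ?_⟩
  rw [← Matrix.map_mul, ← Matrix.map_mul, ← Matrix.map_add _ (map_add φ), h₄, hs, map_pow, hxy,
    pow_mul]

omit [Algebra R B] [Fintype ι] in
theorem tens_map (φ : R →+* B) {ι' : Type} [DecidableEq ι'] (p : ι → Bool) (E : Matrix ι ι R)
    (F : Matrix ι' ι' R) : (tens p E F).map φ = tens p (E.map φ) (F.map φ) := by
  ext ⟨i, j⟩ ⟨i', j'⟩
  simp [tens, SM, Matrix.one_apply, diagonal_apply, apply_ite φ]

/-- The theorem on matrix factorizations descends along a flat local map with finite closed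
fibre under which the parameters become powers of the parameters. -/
theorem MFAt.of_flat [IsLocalRing R] [IsLocalRing B] [IsLocalHom (algebraMap R B)]
    [Module.Flat R B] {e : ℕ} (he₀ : e ≠ 0)
    (he : Module.length B (B ⧸ (maximalIdeal R).map (algebraMap R B)) = e) {D q : ℕ}
    {x : Fin D → R} {y : Fin D → B} (hxy : ∀ j, algebraMap R B (x j) = y j ^ q) (H : MFAt B y) :
    MFAt R x := by
  intro N f ι₁ ι₂ _ _ _ _ p₁ p₂ E F hE hF
  have hF' := hF.map (algebraMap R B) hxy
  rw [map_neg] at hF'
  obtain ⟨h₁, h₂⟩ := H _ _ _ _ _ _ _ _ (hE.map (algebraMap R B) hxy) hF'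
  have he' : (e : ℤ) ≠ 0 := by exact_mod_cast he₀
  rw [← tens_map, chi_map he (tens_odd hE.odd hF.odd)
    (by rw [tens_sq hE.odd hE.sq hF.sq]; simp)] at h₁ h₂
  rw [← transpose_map, ← tens_map, chi_map he (tens_odd hE.transpose.odd hF.odd)
    (by rw [tens_sq hE.transpose.odd hE.transpose.sq hF.sq]; simp)] at h₂
  refine ⟨fun h => (mul_eq_zero.mp (h₁ h)).resolve_left he', fun h h' => ?_⟩
  exact mul_left_cancel₀ he' ((h₂ h h').trans (by ring))

end

/-- The theorem on matrix factorizations over the rings `W(k)[[x]] / (p - g)`. -/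
def MFW : Prop :=
  ∀ (p : ℕ) [Fact p.Prime] (k : Type) [Field k] [IsAlgClosed k] [CharP k p] (D : ℕ)
    (g : SW p k D), MvPowerSeries.constantCoeff g = 0 → MFAt (RW g) (xW g)

theorem MFMixed_of_MFW (H : MFW) : MFMixed := by
  intro p _ R _ _ _ D x hD hx hp
  obtain ⟨k, _, _, _, g, _, hg, _, hxg⟩ := exists_witt_model p R x hD hx hp
  have := isLocalRing_RW hg
  have hm : (maximalIdeal R).map (algebraMap R (RW g)) = maximalIdeal (RW g) := by
    rw [← hx, ← span_xW hg, Ideal.map_span, ← Set.range_comp]
    congr 2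
    exact funext hxg
  have : IsLocalHom (algebraMap R (RW g)) :=
    ((IsLocalRing.local_hom_TFAE (algebraMap R (RW g))).out 0 2).mpr hm.le
  refine MFAt.of_flat (e := 1) (q := 1) one_ne_zero ?_ (fun j => by rw [hxg, pow_one])
    (H p k D g hg)
  have : IsSimpleModule (RW g) (RW g ⧸ maximalIdeal (RW g)) :=
    isSimpleModule_iff_isCoatom.mpr (Ideal.isMaximal_def.mp inferInstance)
  rw [hm, Module.length_eq_one (RW g) (RW g ⧸ maximalIdeal (RW g)), Nat.cast_one]

end Pool.Agent.P.MP_f43029_ag
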